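import Pool.Agent.H709U.Defs
set_option autoImplicit false
namespace Pool.Agent.H709U


theorem b1_deg (n : ℕ) (h a : MvPolynomial (Fin 2) ℝ) (hh : h ≠ 0)
    (hd : (h * a).totalDegree ≤ n) : a.totalDegree ≤ n := by
  by_cases ha : a = 0
  · subst ha; simp
  · rw [MvPolynomial.totalDegree_mul_of_isDomain hh ha] at hd
    omega

theorem b1_aux (n : ℕ) (P Q : MvPolynomial (Fin 2) ℝ) (hP : P.totalDegree ≤ n)
    (hQ : Q.totalDegree ≤ n) (h0 : P ≠ 0) :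
    ∃ h P₁ Q₁ : MvPolynomial (Fin 2) ℝ, P = h * P₁ ∧ Q = h * Q₁ ∧ IsRelPrime P₁ Q₁ ∧
      P₁.totalDegree ≤ n ∧ Q₁.totalDegree ≤ n := by
  obtain ⟨a', b', c', hrel, h1, h2⟩ :=
    UniqueFactorizationMonoid.exists_reduced_factors P h0 Q
  have hc : c' ≠ 0 := by
    rintro rfl
    exact h0 (by rw [← h1, zero_mul])
  refine ⟨c', a', b', h1.symm, h2.symm, hrel, ?_, ?_⟩
  · exact b1_deg n c' a' hc (by rw [h1]; exact hP)
  · exact b1_deg n c' b' hc (by rw [h2]; exact hQ)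

theorem b1 : S_B1 := by
  intro n P Q hP hQ h
  rcases h with h | h
  · exact b1_aux n P Q hP hQ h
  · obtain ⟨c, a, b, h1, h2, h3, h4, h5⟩ := b1_aux n Q P hQ hP h
    exact ⟨c, b, a, h2, h1, h3.symm, h5, h4⟩

end Pool.Agent.H709U
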