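import Pool.Agent.H709U.Defs

/-! B2: change of time -/

open Real Set MeasureTheory Topology Filter
open scoped ENNReal

namespace Pool.Agent.H709U

noncomputable section

open Pool.Agent.H709R2 (rot wedge field ClosedOrbit divW winv)

namespace B2

/-- the inverse of the primitive of a positive periodic function -/
lemma time_change (K : ℝ → ℝ) (hK : Continuous K) (hpos : ∀ t, 0 < K t) (T : ℝ) (hT : 0 < T)
    (hper : ∀ t, K (t + T) = K t) :
    ∃ (τ : ℝ → ℝ) (S : ℝ), 0 < S ∧ Function.Surjective τ ∧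
      (∀ v, HasDerivAt τ (K (τ v))⁻¹ v) ∧ ∀ v, τ (v + S) = τ v + T := by
  set sg : ℝ → ℝ := fun t => ∫ x in (0:ℝ)..t, K x with hsg
  have hint : ∀ a b, IntervalIntegrable K volume a b := fun a b => hK.intervalIntegrable a b
  have hd : ∀ t, HasDerivAt sg (K t) t := fun t =>
    intervalIntegral.integral_hasDerivAt_right (hint 0 t)
      hK.aestronglyMeasurable.stronglyMeasurableAtFilter hK.continuousAt
  have hcont : Continuous sg := continuous_iff_continuousAt.2 fun t => (hd t).continuousAt
  have hmono : StrictMono sg := strictMono_of_deriv_pos fun t => by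
    rw [(hd t).deriv]
    exact hpos t
  have hper' : Function.Periodic K T := hper
  have hsurj : Function.Surjective sg := hcont.surjective
    (hper'.tendsto_atTop_intervalIntegral_of_pos' (hint 0 T) hpos hT)
    (hper'.tendsto_atBot_intervalIntegral_of_pos' (hint 0 T) hpos hT)
  have h0 : sg 0 = 0 := by simp [hsg]
  have hS : 0 < sg T := by
    rw [← h0]
    exact hmono hT
  have hadd : ∀ t, sg (t + T) = sg t + sg T := by
    intro t
    have h1 := hper'.intervalIntegral_add_eq_add 0 t hint
    simp only [zero_add] at h1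
    exact h1
  let e : ℝ ≃o ℝ := StrictMono.orderIsoOfSurjective sg hmono hsurj
  have he : ∀ v, sg (e.symm v) = v := fun v => e.apply_symm_apply v
  refine ⟨e.symm, sg T, hS, e.symm.surjective, ?_, ?_⟩
  · intro v
    exact HasDerivAt.of_local_left_inverse e.symm.continuous.continuousAt (hd (e.symm v))
      (hpos _).ne' (Filter.Eventually.of_forall he)
  · intro v
    apply hmono.injective
    rw [he, hadd, he]

lemma rot_smul (α c : ℝ) (v : ℝ × ℝ) : rot α (c • v) = c • rot α v := by
  unfold rot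
  ext
  · simp only [Prod.smul_fst, Prod.smul_snd, smul_eq_mul]
    ring
  · simp only [Prod.smul_fst, Prod.smul_snd, smul_eq_mul]
    ring

lemma rot_zero (α : ℝ) : rot α (0 : ℝ × ℝ) = 0 := by
  unfold rot
  simp

lemma field_mul (h P Q : MvPolynomial (Fin 2) ℝ) (z : ℝ × ℝ) :
    field (h * P) (h * Q) z = (MvPolynomial.eval ![z.1, z.2] h) • field P Q z := by
  unfold field
  simp [Prod.smul_mk]

end B2

open B2 in
/-- B2: change of time -/
theorem b2 : S_M0 → S_B2 := by
  intro hM0 h P₁ Q₁ α C hC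
  have hX : ContDiff ℝ 2 (field (h * P₁) (h * Q₁)) := H709R2.contDiff_field _ _
  obtain ⟨γ, T, hO, rfl⟩ := hM0 _ hX α C hC
  set k : ℝ → ℝ := fun t => MvPolynomial.eval ![(γ t).1, (γ t).2] h with hk
  have hγc : Continuous γ := continuous_iff_continuousAt.2 fun t => (hO.ode t).continuousAt
  have hkc : Continuous k :=
    (H709R2.contDiff_evalPoly (m := 2) h).continuous.comp hγc
  have hval : ∀ t, rf (field (h * P₁) (h * Q₁)) α (γ t) = k t • rot α (field P₁ Q₁ (γ t)) := by
    intro t
    show rot α (field (h * P₁) (h * Q₁) (γ t)) = _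
    rw [field_mul, rot_smul]
  have hk0 : ∀ t, k t ≠ 0 := by
    intro t ht
    apply hO.ne t
    rw [hval, ht, zero_smul]
  have hkper : ∀ t, k (t + T) = k t := by
    intro t
    simp only [hk]
    rw [hO.per t]
  -- the sign
  obtain ⟨ε, hε, hεk⟩ : ∃ ε : ℝ, (ε = 1 ∨ ε = -1) ∧ ∀ t, 0 < ε * k t := by
    by_cases hs : ∀ t, 0 < k t
    · exact ⟨1, Or.inl rfl, fun t => by rw [one_mul]; exact hs t⟩
    · refine ⟨-1, Or.inr rfl, fun t => ?_⟩
      push Not at hs
      obtain ⟨s, hs⟩ := hs
      by_contra hcon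
      have h1 : 0 ≤ k t := by linarith
      obtain ⟨u, hu⟩ := mem_range_of_exists_le_of_exists_ge hkc ⟨s, hs⟩ ⟨t, h1⟩
      exact hk0 u hu
  have hε2 : ε * ε = 1 := by rcases hε with h | h <;> rw [h] <;> norm_num
  obtain ⟨τ, S, hS, hτs, hτd, hτp⟩ := time_change (fun t => ε * k t)
    (continuous_const.mul hkc) hεk T hO.pos (fun t => by simp only [hkper])
  have hper1 : ∀ v, γ (τ (v + S)) = γ (τ v) := fun v => by rw [hτp, hO.per]
  have hper2 : ∀ v, γ (τ (v - S)) = γ (τ v) := fun v => by
    have := hper1 (v - S)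
    rw [sub_add_cancel] at this
    exact this.symm
  have hes : Function.Surjective (fun u : ℝ => ε * u) := fun v =>
    ⟨ε * v, by simp only; rw [← mul_assoc, hε2, one_mul]⟩
  have hrange : range γ = range (fun u => γ (τ (ε * u))) :=
    ((hτs.comp hes).range_comp γ).symm
  refine ⟨fun u => γ (τ (ε * u)), S, hS, ?_, ?_, ?_, hrange⟩
  · intro u
    have h1 : HasDerivAt (fun u : ℝ => ε * u) ε u := by
      simpa using (hasDerivAt_id u).const_mul ε
    have h2 : HasDerivAt (fun u => τ (ε * u)) ((ε * k (τ (ε * u)))⁻¹ * ε) u :=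
      (hτd (ε * u)).comp u h1
    have h3 := (hO.ode (τ (ε * u))).scomp u h2
    rw [hval, smul_smul] at h3
    have h4 : (ε * k (τ (ε * u)))⁻¹ * ε * k (τ (ε * u)) = 1 := by
      have h5 := (hεk (τ (ε * u))).ne'
      rw [mul_assoc, inv_mul_cancel₀ h5]
    rw [h4, one_smul] at h3
    exact h3
  · intro u
    show γ (τ (ε * (u + S))) = γ (τ (ε * u))
    rcases hε with h | h
    · rw [h, one_mul, one_mul, hper1]
    · rw [h, show (-1 : ℝ) * (u + S) = -1 * u - S by ring, hper2]
  · -- nonconstant
    have h1 : γ 0 ≠ γ (T / 2) := by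
      intro h2
      obtain ⟨m, hm⟩ := hO.inj _ _ h2
      have h3 : ((2 * m + 1 : ℤ) : ℝ) * T = 0 := by
        push_cast
        linarith
      rcases mul_eq_zero.1 h3 with h4 | h4
      · have : (2 * m + 1 : ℤ) = 0 := by exact_mod_cast h4
        omega
      · exact hO.pos.ne' h4
    have h2 : γ 0 ∈ range (fun u => γ (τ (ε * u))) := by rw [← hrange]; exact mem_range_self 0
    have h3 : γ (T / 2) ∈ range (fun u => γ (τ (ε * u))) := by
      rw [← hrange]; exact mem_range_self _
    obtain ⟨s, hs⟩ := h2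
    obtain ⟨t, ht⟩ := h3
    exact ⟨s, t, by simp only at hs ht ⊢; rw [hs, ht]; exact h1⟩

end

end Pool.Agent.H709U
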