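import Pool.Agent.H709Q.T9a
import Pool.Agent.H709R2.ThmA

/-! Definitions and statements of the project on the uniform bound, in measure, for the number of
closed orbits of rotated polynomial vector fields. -/

open Real Set MeasureTheory Topology Filter
open scoped ENNReal

namespace Pool.Agent.H709U

noncomputable section

open Pool.Agent.H709R2 (rot wedge field ClosedOrbit divW winv)
open Pool.Agent.H709Q (Maj)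

/-! ### Basic notions -/

/-- scalar product -/
def dot (a b : ℝ × ℝ) : ℝ := a.1 * b.1 + a.2 * b.2

/-- quarter turn -/
def J (a : ℝ × ℝ) : ℝ × ℝ := (-a.2, a.1)

/-- the rotated field -/
def rf (X : ℝ × ℝ → ℝ × ℝ) (α : ℝ) (z : ℝ × ℝ) : ℝ × ℝ := rot α (X z)

/-- angular component of the rotated field with respect to `p` -/
def V (X : ℝ × ℝ → ℝ × ℝ) (p : ℝ × ℝ) (α : ℝ) (z : ℝ × ℝ) : ℝ := wedge (z - p) (rot α (X z))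

/-- radial component of the rotated field with respect to `p` -/
def W (X : ℝ × ℝ → ℝ × ℝ) (p : ℝ × ℝ) (α : ℝ) (z : ℝ × ℝ) : ℝ := dot (z - p) (rot α (X z))

/-- radial derivative of the direction (times `|X|²`) -/
def A0 (X : ℝ × ℝ → ℝ × ℝ) (p z : ℝ × ℝ) : ℝ := wedge (X z) (fderiv ℝ X z (z - p))

/-- angular derivative of the direction relative to the radius (times `|X|²`) -/
def B0 (X : ℝ × ℝ → ℝ × ℝ) (p z : ℝ × ℝ) : ℝ :=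
  wedge (X z) (fderiv ℝ X z (J (z - p))) - H709R2.sq (X z)

/-- logarithm of the distance to `p` -/
def lg (p z : ℝ × ℝ) : ℝ := Real.log (H709R2.sq (z - p)) / 2

/-- point with log-polar coordinates `(u, θ)` with respect to `p` -/
def pt (p : ℝ × ℝ) (u θ : ℝ) : ℝ × ℝ := (p.1 + exp u * cos θ, p.2 + exp u * sin θ)

/-- a simple closed orbit of `Y` parametrised with its minimal period `T` -/
structure Orb (Y : ℝ × ℝ → ℝ × ℝ) (γ : ℝ → ℝ × ℝ) (T : ℝ) : Prop where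
  pos : 0 < T
  ode : ∀ t, HasDerivAt γ (Y (γ t)) t
  per : ∀ t, γ (t + T) = γ t
  inj : ∀ s t, γ s = γ t → ∃ k : ℤ, s = t + k * T
  ne : ∀ t, Y (γ t) ≠ 0

/-- `p` lies in the closed bounding box of `C` -/
def InBox (p : ℝ × ℝ) (C : Set (ℝ × ℝ)) : Prop :=
  (∃ x ∈ C, ∃ y ∈ C, x.1 ≤ p.1 ∧ p.1 ≤ y.1) ∧ (∃ x ∈ C, ∃ y ∈ C, x.2 ≤ p.2 ∧ p.2 ≤ y.2)

/-- all closed orbits of the polynomial field `(P, Q)` rotated by `α` -/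
def Cl (P Q : MvPolynomial (Fin 2) ℝ) (α : ℝ) : Set (Set (ℝ × ℝ)) :=
  {C | ClosedOrbit (rf (field P Q) α) C}

/-! ### Group M: master inequalities -/

/-- M0 -/
def S_M0 : Prop := ∀ X : ℝ × ℝ → ℝ × ℝ, ContDiff ℝ 2 X → ∀ (α : ℝ) (C : Set (ℝ × ℝ)),
  ClosedOrbit (rf X α) C → ∃ γ T, Orb (rf X α) γ T ∧ C = range γ

/-- MA -/
def S_MA : Prop := ∀ X : ℝ × ℝ → ℝ × ℝ, ContDiff ℝ 2 X → ∀ (w : ℝ → ℝ × ℝ → ℝ)
    (F : ℝ × (ℝ × ℝ) → ℝ), Continuous F → ∀ Ω : Set (ℝ × ℝ), IsCompact Ω →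
    ∀ h : ℝ × ℝ → ℝ≥0∞, Measurable h → ∀ l : ℝ, 0 < l →
    (∀ α ∈ Ioo 0 π, ∀ z ∈ Ω, X z ≠ 0 → 0 < F (α, z) →
      ContDiffAt ℝ 1 (w α) z ∧ ENNReal.ofReal |divW (w α) X α z| ≤ h z) →
    (∀ α ∈ Ioo 0 π, ∀ γ T, Orb (rf X α) γ T → (∀ t, γ t ∈ Ω) → (∀ t, 0 < F (α, γ t)) →
      l ≤ ∫ t in (0:ℝ)..T, w α (γ t) * H709R2.sq (X (γ t))) →
    ∃ g : ℝ → ℝ≥0∞, Measurable g ∧
      (∀ α ∈ Ioo 0 π, ({C | ClosedOrbit (rf X α) C ∧ C ⊆ Ω ∧ ∀ z ∈ C, 0 < F (α, z)}.encard :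
        ℝ≥0∞) ≤ g α) ∧
      ∫⁻ α, g α ≤ ENNReal.ofReal (1 / l) * ∫⁻ z in Ω, h z

/-- MB -/
def S_MB : Prop := ∀ X : ℝ × ℝ → ℝ × ℝ, ContDiff ℝ 2 X → ∀ w : ℝ × ℝ → ℝ,
    (∀ z, X z ≠ 0 → ContDiffAt ℝ 1 w z) → ∀ Ω : Set (ℝ × ℝ), IsCompact Ω →
    ∀ h : ℝ × ℝ → ℝ≥0∞, Measurable h → ∀ l : ℝ, 0 < l →
    (∀ α ∈ Ioo 0 π, ∀ z ∈ Ω, X z ≠ 0 → ENNReal.ofReal |divW w X α z| ≤ h z) →
    ∃ g : ℝ → ℝ≥0∞, Measurable g ∧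
      (∀ α ∈ Ioo 0 π, ({C | ∃ γ T, Orb (rf X α) γ T ∧ C = range γ ∧ C ⊆ Ω ∧
        l ≤ ∫ t in (0:ℝ)..T, w (γ t) * H709R2.sq (X (γ t))}.encard : ℝ≥0∞) ≤ g α) ∧
      ∫⁻ α, g α ≤ ENNReal.ofReal (1 / l) * ∫⁻ z in Ω, h z

/-! ### Group G: star-shaped closed orbits -/

/-- the radial kernel -/
def kern (X : ℝ × ℝ → ℝ × ℝ) (p z : ℝ × ℝ) : ℝ := |A0 X p z| / (H709R2.sq (X z) * H709R2.sq (z - p))

/-- G1 -/
def S_G1 : Prop := ∀ X : ℝ × ℝ → ℝ × ℝ, ContDiff ℝ 2 X → ∀ (p z : ℝ × ℝ) (α x : ℝ), 0 < x →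
  x ^ 2 * W X p α z ^ 2 < V X p α z ^ 2 →
  ContDiffAt ℝ 1 (fun z => |V X p α z|⁻¹) z ∧
    |divW (fun z => |V X p α z|⁻¹) X α z| ≤ (1 + 1 / x ^ 2) * kern X p z

/-- G2 -/
def S_G2 : Prop := ∀ (n : ℕ) (P Q : MvPolynomial (Fin 2) ℝ), P.totalDegree ≤ n →
  Q.totalDegree ≤ n → ∀ p : ℝ × ℝ,
  Measurable (fun z => ENNReal.ofReal (kern (field P Q) p z)) ∧
  ∫⁻ z, ENNReal.ofReal (kern (field P Q) p z) ≤ ENNReal.ofReal (2 * π ^ 2 * n)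

/-- G3 -/
def S_G3 : Prop := ∀ X : ℝ × ℝ → ℝ × ℝ, Continuous X → ∀ (p : ℝ × ℝ) (α : ℝ) (γ : ℝ → ℝ × ℝ)
  (T : ℝ), Orb (rf X α) γ T → (∀ t, V X p α (γ t) ≠ 0) →
  2 * π ≤ ∫ t in (0:ℝ)..T, |V X p α (γ t)|⁻¹ * H709R2.sq (X (γ t))

/-- G4: all closed orbits that are uniformly star-shaped with respect to `p` -/
def S_G4 : Prop := ∀ (n : ℕ) (P Q : MvPolynomial (Fin 2) ℝ), P.totalDegree ≤ n →
  Q.totalDegree ≤ n → ∀ (p : ℝ × ℝ) (x : ℝ), 0 < x →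
  Maj (fun α => ({C | C ∈ Cl P Q α ∧
    ∀ z ∈ C, x ^ 2 * W (field P Q) p α z ^ 2 < V (field P Q) p α z ^ 2}.encard : ℝ≥0∞))
    ((1 + 1 / x ^ 2) * (π * n))

/-! ### Group H: closed orbits touching a given scale -/

/-- the weight -/
def chi (p : ℝ × ℝ) (R : ℝ) (z : ℝ × ℝ) : ℝ := (R ^ 2 / (R ^ 2 + H709R2.sq (z - p))) ^ 2

/-- H1 -/
def S_H1 : Prop := ∀ X : ℝ × ℝ → ℝ × ℝ, ContDiff ℝ 2 X → ∀ (p z : ℝ × ℝ) (R α : ℝ), 0 < R →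
  X z ≠ 0 → ContDiffAt ℝ 1 (fun z => chi p R z * winv X z) z ∧
    |divW (fun z => chi p R z * winv X z) X α z| ≤
      chi p R z * (|wedge (X z) (fderiv ℝ X z (1, 0))| / H709R2.sq (X z) +
        |wedge (X z) (fderiv ℝ X z (0, 1))| / H709R2.sq (X z) + 4 / R)

/-- H2 -/
def S_H2 : Prop := ∀ (n : ℕ) (P Q : MvPolynomial (Fin 2) ℝ), P.totalDegree ≤ n →
  Q.totalDegree ≤ n → ∀ (p : ℝ × ℝ) (R : ℝ), 0 < R →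
  Measurable (fun z => ENNReal.ofReal (chi p R z * (|wedge (field P Q z)
      (fderiv ℝ (field P Q) z (1, 0))| / H709R2.sq (field P Q z) +
        |wedge (field P Q z) (fderiv ℝ (field P Q) z (0, 1))| / H709R2.sq (field P Q z) + 4 / R))) ∧
  ∫⁻ z, ENNReal.ofReal (chi p R z * (|wedge (field P Q z)
      (fderiv ℝ (field P Q) z (1, 0))| / H709R2.sq (field P Q z) +
        |wedge (field P Q z) (fderiv ℝ (field P Q) z (0, 1))| / H709R2.sq (field P Q z) + 4 / R)) ≤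
    ENNReal.ofReal ((2 * n + 4) * π ^ 2 * R)

/-- H3: a closed curve whose bounding box contains `p` and which has a point at distance between
`R / 3` and `R` from `p` has weighted length at least `R / 200` -/
def S_H3 : Prop := ∀ (γ γ' : ℝ → ℝ × ℝ) (T : ℝ), 0 < T → (∀ t, HasDerivAt γ (γ' t) t) →
  Continuous γ' → (∀ t, γ (t + T) = γ t) → ∀ (p : ℝ × ℝ) (R : ℝ), 0 < R → InBox p (range γ) →
  (∃ t, R ^ 2 / 9 ≤ H709R2.sq (γ t - p) ∧ H709R2.sq (γ t - p) ≤ R ^ 2) →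
  R / 200 ≤ ∫ t in (0:ℝ)..T, chi p R (γ t) * √(H709R2.sq (γ' t))

/-- H4: all closed orbits touching the annulus `v ≤ log |z - p| ≤ v + 1` and having `p` in their
bounding box -/
def S_H4 : Prop := ∀ (n : ℕ) (P Q : MvPolynomial (Fin 2) ℝ), P.totalDegree ≤ n →
  Q.totalDegree ≤ n → ∀ (p : ℝ × ℝ) (v : ℝ),
  Maj (fun α => ({C | C ∈ Cl P Q α ∧ InBox p C ∧ p ∉ C ∧ ∃ z ∈ C, v ≤ lg p z ∧ lg p z ≤ v + 1}.encard :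
    ℝ≥0∞)) (8000 * (n + 1))

/-! ### Group K: the key lemma -/

/-- K1: propagation of steep level curves -/
def S_K1 : Prop := ∀ (F Fu Ft : ℝ × ℝ → ℝ) (b u₁ t₁ : ℝ), 0 < b →
  (∀ q, HasFDerivAt F (Fu q • ContinuousLinearMap.fst ℝ ℝ ℝ + Ft q • ContinuousLinearMap.snd ℝ ℝ ℝ)
    q) → Continuous Fu → Continuous Ft → F (u₁, t₁) = 0 →
  b ^ 2 * Ft (u₁, t₁) ^ 2 < Fu (u₁, t₁) ^ 2 →
  (∀ u t, |u - u₁| ≤ π / b → t ∈ Icc t₁ (t₁ + π) → F (u, t) = 0 →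
    Fu (u, t) ^ 2 ≠ b ^ 2 * Ft (u, t) ^ 2) →
  ∀ t ∈ Icc t₁ (t₁ + π), ∃ u, |u - u₁| ≤ π / b ∧ F (u, t) = 0

/-- K2: trapping -/
def S_K2 : Prop := ∀ X : ℝ × ℝ → ℝ × ℝ, ContDiff ℝ 2 X → ∀ (p : ℝ × ℝ) (α b x : ℝ), 0 < b →
  b ≤ x → ∀ (γ : ℝ → ℝ × ℝ) (T : ℝ), Orb (rf X α) γ T → (∀ t, γ t ≠ p) →
  (∀ t, V X p α (γ t) ^ 2 ≤ x ^ 2 * W X p α (γ t) ^ 2 →
    A0 X p (γ t) ^ 2 < b ^ 2 * B0 X p (γ t) ^ 2) →
  ∀ t, x ^ 2 * W X p α (γ t) ^ 2 < V X p α (γ t) ^ 2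

/-- K3: derivatives of `V` on its zero set -/
def S_K3 : Prop := ∀ X : ℝ × ℝ → ℝ × ℝ, ContDiff ℝ 2 X → ∀ (p z : ℝ × ℝ) (α : ℝ),
  z ≠ p → X z ≠ 0 → V X p α z = 0 →
  ∃ m : ℝ, 0 < m ∧ (fderiv ℝ (V X p α) z (z - p)) ^ 2 = m * A0 X p z ^ 2 ∧
    (fderiv ℝ (V X p α) z (J (z - p))) ^ 2 = m * B0 X p z ^ 2

/-- K4: polynomial representations -/
def S_K4 : Prop := ∀ (n : ℕ) (P Q : MvPolynomial (Fin 2) ℝ), P.totalDegree ≤ n →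
  Q.totalDegree ≤ n → ∀ p : ℝ × ℝ, ∃ a b f g s : MvPolynomial (Fin 2) ℝ,
    a.totalDegree ≤ 2 * n ∧ b.totalDegree ≤ 2 * n ∧ f.totalDegree ≤ n + 1 ∧
    g.totalDegree ≤ n + 1 ∧ s.totalDegree ≤ 2 ∧
    ∀ z : ℝ × ℝ, MvPolynomial.eval ![z.1, z.2] a = A0 (field P Q) p z ∧
      MvPolynomial.eval ![z.1, z.2] b = B0 (field P Q) p z ∧
      MvPolynomial.eval ![z.1, z.2] f = wedge (z - p) (field P Q z) ∧
      MvPolynomial.eval ![z.1, z.2] g = dot (z - p) (field P Q z) ∧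
      MvPolynomial.eval ![z.1, z.2] s = H709R2.sq (z - p)

/-- K5: the degenerate case -/
def S_K5 : Prop := ∀ (P Q : MvPolynomial (Fin 2) ℝ) (p : ℝ × ℝ) (α : ℝ) (z : ℝ × ℝ),
  (∀ q, A0 (field P Q) p q = 0) → (∀ q, B0 (field P Q) p q = 0) → z ≠ p → field P Q z ≠ 0 →
  V (field P Q) p α z = 0 → ∀ q, V (field P Q) p α q = 0

/-- E1: elimination by counting dimensions -/
def S_E1 : Prop := ∀ (d k : ℕ) (K f g s : MvPolynomial (Fin 2) ℝ), 1 ≤ d → 1 ≤ k → K ≠ 0 →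
  K.totalDegree ≤ d → f.totalDegree ≤ k → g.totalDegree ≤ k → s.totalDegree ≤ 2 →
  ∃ c : Fin (2 * d * k + 1) → Fin (4 * d - 1 + 1) → ℝ, c ≠ 0 ∧
    ∀ z : Fin 2 → ℝ, MvPolynomial.eval z K = 0 →
      ∑ i, (∑ j, c i j * MvPolynomial.eval z f ^ (j : ℕ) *
        MvPolynomial.eval z g ^ (4 * d - 1 - (j : ℕ))) * MvPolynomial.eval z s ^ (i : ℕ) = 0

/-- homogeneous trigonometric form -/
def form {N : ℕ} (c : Fin (N + 1) → ℝ) (α : ℝ) : ℝ :=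
  ∑ j, c j * sin α ^ (j : ℕ) * (-cos α) ^ (N - (j : ℕ))

/-- the point `exp (2 i α)` -/
def ee (α : ℝ) : ℂ := Complex.exp (2 * α * Complex.I)

/-- E2: lower bound for forms away from the zeros -/
def S_E2 : Prop := ∀ (N : ℕ) (c : Fin (N + 1) → ℝ), c ≠ 0 →
  ∃ R : Finset ℂ, R.card ≤ N ∧ ∃ m : ℝ, 0 < m ∧ (∀ α, |form c α| ≤ m) ∧
    ∀ δ : ℝ, 0 < δ → δ ≤ 1 → ∀ α, (∀ a ∈ R, δ ≤ ‖ee α - a‖) → (δ / 3) ^ N * m ≤ |form c α|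

/-- E2b: measure of the exceptional set -/
def S_E2b : Prop := ∀ (a : ℂ) (δ : ℝ), 0 < δ →
  volume {α | α ∈ Ioo 0 π ∧ ‖ee α - a‖ < 2 * δ} ≤ ENNReal.ofReal (20 * δ)

/-- E3: location of the positive roots -/
def S_E3 : Prop := ∀ (M : ℕ) (c m : Fin (M + 1) → ℝ) (κ s : ℝ), 0 < κ → κ ≤ 1 →
  (∀ i, 0 ≤ m i) → (∀ i, κ * m i ≤ |c i|) → (∀ i, |c i| ≤ m i) → (∃ i, 0 < m i) → 0 < s →
  ∑ i, c i * s ^ (i : ℕ) = 0 →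
  ∃ k l : Fin (M + 1), k < l ∧ 0 < m k ∧ 0 < m l ∧
    |Real.log s - (Real.log (m k) - Real.log (m l)) / ((l : ℕ) - (k : ℕ) : ℝ)| ≤
      Real.log ((M + 1) / κ)

/-- the number of scales -/
def nM (n : ℕ) : ℕ := 2 * (4 * n + 1) * (n + 1)

/-- the degree of the forms -/
def nN (n : ℕ) : ℕ := 4 * (4 * n + 1) - 1

/-- the half-width of the windows -/
def L0 (n : ℕ) (δ : ℝ) : ℝ := Real.log ((nM n + 1) * (3 / δ) ^ nN n) / 2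

/-- E4: exceptional angles and scales for the intersection of an algebraic curve with the curves
`V = 0` -/
def S_E4 : Prop := ∀ (n : ℕ) (K f g : MvPolynomial (Fin 2) ℝ) (p : ℝ × ℝ), K ≠ 0 →
  K.totalDegree ≤ 4 * n + 1 → f.totalDegree ≤ n + 1 → g.totalDegree ≤ n + 1 →
  ∀ δ : ℝ, 0 < δ → δ ≤ 1 →
  ∃ (R : Finset ℂ) (S : Finset ℝ), R.card ≤ (nM n + 1) * nN n ∧ S.card ≤ (nM n + 1) ^ 2 ∧
    ∀ α : ℝ, (∀ a ∈ R, δ ≤ ‖ee α - a‖) → ∀ z : ℝ × ℝ, z ≠ p →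
      MvPolynomial.eval ![z.1, z.2] K = 0 →
      cos α * MvPolynomial.eval ![z.1, z.2] f + sin α * MvPolynomial.eval ![z.1, z.2] g = 0 →
      (MvPolynomial.eval ![z.1, z.2] f ≠ 0 ∨ MvPolynomial.eval ![z.1, z.2] g ≠ 0) →
      ∃ c ∈ S, |lg p z - c| ≤ L0 n δ

/-- K7: the key lemma -/
def S_K7 : Prop := ∀ (n : ℕ) (P Q : MvPolynomial (Fin 2) ℝ), P.totalDegree ≤ n →
  Q.totalDegree ≤ n → ∀ Z : Finset (ℝ × ℝ), (∀ z, field P Q z = 0 → z ∈ Z) →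
  ∀ (p : ℝ × ℝ) (δ : ℝ), 0 < δ → δ ≤ 1 →
  ∃ (R : Finset ℂ) (S : Finset ℝ), R.card ≤ (nM n + 1) * nN n ∧
    S.card ≤ (nM n + 1) ^ 2 + Z.card ∧
    ∀ α : ℝ, (∀ a ∈ R, 2 * δ ≤ ‖ee α - a‖) → ∀ C ∈ Cl P Q α, p ∉ C →
      (∀ z ∈ C, ∀ c ∈ S, L0 n δ + 4 * π / δ < |lg p z - c|) →
      ∀ z ∈ C, (δ / 2) ^ 2 * W (field P Q) p α z ^ 2 < V (field P Q) p α z ^ 2

/-! ### Group T: a closed orbit has a zero of the field in its bounding box -/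

/-- T1: the secant map of a simple closed curve -/
def S_T1 : Prop := ∀ (γ γ' : ℝ → ℂ) (T : ℝ), 0 < T → (∀ t, HasDerivAt γ (γ' t) t) →
  Continuous γ' → (∀ t, γ (t + T) = γ t) → (∀ t, γ' t ≠ 0) →
  (∀ s t, γ s = γ t → ∃ k : ℤ, s = t + k * T) →
  ∃ E : ℝ × ℝ → ℂ, Continuous E ∧ (∀ q, E q ≠ 0) ∧
    (∀ s t, 0 ≤ s → s < t → t ≤ T → (s, t) ≠ (0, T) →
      ∃ r : ℝ, 0 < r ∧ γ t - γ s = r * E (s, t)) ∧
    (∀ t, 0 ≤ t → t ≤ T → ∃ r : ℝ, 0 < r ∧ γ' t = r * E (t, t)) ∧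
    (∃ r : ℝ, 0 < r ∧ γ' 0 = -(r * E (0, T)))

/-- T2: the tangent direction of a simple closed curve turns -/
def S_T2 : Prop := ∀ (γ γ' : ℝ → ℂ) (T : ℝ), 0 < T → (∀ t, HasDerivAt γ (γ' t) t) →
  Continuous γ' → (∀ t, γ (t + T) = γ t) → (∀ t, γ' t ≠ 0) →
  (∀ s t, γ s = γ t → ∃ k : ℤ, s = t + k * T) →
  ∀ L : ℝ → ℂ, Continuous L → (∀ t, Complex.exp (L t) = γ' t) → L T ≠ L 0

/-- T3 -/
def S_T3 : Prop := ∀ X : ℝ × ℝ → ℝ × ℝ, ContDiff ℝ 2 X → ∀ (α : ℝ) (C : Set (ℝ × ℝ)),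
  ClosedOrbit (rf X α) C → ∃ p, X p = 0 ∧ InBox p C

/-! ### Group B: algebra -/

/-- B1: dividing out the greatest common divisor -/
def S_B1 : Prop := ∀ (n : ℕ) (P Q : MvPolynomial (Fin 2) ℝ), P.totalDegree ≤ n →
  Q.totalDegree ≤ n → (P ≠ 0 ∨ Q ≠ 0) →
  ∃ h P₁ Q₁ : MvPolynomial (Fin 2) ℝ, P = h * P₁ ∧ Q = h * Q₁ ∧ IsRelPrime P₁ Q₁ ∧
    P₁.totalDegree ≤ n ∧ Q₁.totalDegree ≤ n

/-- B2: change of time -/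
def S_B2 : Prop := ∀ (h P₁ Q₁ : MvPolynomial (Fin 2) ℝ) (α : ℝ),
  Cl (h * P₁) (h * Q₁) α ⊆ Cl P₁ Q₁ α

/-- B3: Bezout bound for the number of real zeros -/
def S_B3 : Prop := ∀ (n : ℕ) (P Q : MvPolynomial (Fin 2) ℝ), P.totalDegree ≤ n →
  Q.totalDegree ≤ n → IsRelPrime P Q →
  ∃ Z : Finset (ℝ × ℝ), Z.card ≤ n ^ 2 ∧ ∀ z, field P Q z = 0 ↔ z ∈ Z

/-! ### Final statement -/

/-- Z: the theorem for coprime components -/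
def S_Z1 : Prop := ∀ (n : ℕ) (P Q : MvPolynomial (Fin 2) ℝ), P.totalDegree ≤ n →
  Q.totalDegree ≤ n → IsRelPrime P Q → ∀ δ : ℝ, 0 < δ → δ ≤ 1 →
  ∃ B : Set ℝ, volume B ≤ ENNReal.ofReal (n ^ 2 * ((nM n + 1) * nN n) * (20 * δ)) ∧
    Maj (fun α => indicator Bᶜ (fun α => ((Cl P Q α).encard : ℝ≥0∞)) α)
      (n ^ 2 * ((1 + 4 / δ ^ 2) * (π * n) +
        ((nM n + 1) ^ 2 + n ^ 2) * (2 * (L0 n δ + 4 * π / δ) + 2) * (8000 * (n + 1))))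

/-- the main theorem -/
def S_Z : Prop := ∀ (n : ℕ) (P Q : MvPolynomial (Fin 2) ℝ), P.totalDegree ≤ n →
  Q.totalDegree ≤ n → (P ≠ 0 ∨ Q ≠ 0) → ∀ ε : ℝ, 0 < ε → ε ≤ 1 →
  volume {α | α ∈ Ioo 0 π ∧ ENNReal.ofReal (10 ^ 11 * (n + 1) ^ 13 / ε ^ 3) <
    ((Cl P Q α).encard : ℝ≥0∞)} ≤ ENNReal.ofReal ε

end

end Pool.Agent.H709U
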