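import Pool.Agent.H709U.Defs

/-! E1: elimination by counting dimensions. -/

open MvPolynomial

namespace Pool.Agent.H709U

namespace E1

noncomputable section

/-- the exponent `(i, j)` -/
def ex (e : ℕ × ℕ) : Fin 2 →₀ ℕ := Finsupp.single 0 e.1 + Finsupp.single 1 e.2

lemma ex_zero (e : ℕ × ℕ) : ex e 0 = e.1 := by simp [ex]

lemma ex_one (e : ℕ × ℕ) : ex e 1 = e.2 := by simp [ex]

lemma ex_inj {e e' : ℕ × ℕ} (h : ex e = ex e') : e = e' := by
  ext
  · rw [← ex_zero, h, ex_zero]
  · rw [← ex_one, h, ex_one]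

lemma ex_surj (m : Fin 2 →₀ ℕ) : m = ex (m 0, m 1) := by
  ext i
  fin_cases i
  · simp [ex]
  · simp [ex]

/-- exponents of degree at most `m` -/
def EE (m : ℕ) : Finset (ℕ × ℕ) := (Finset.range (m + 1) ×ˢ Finset.range (m + 1)).filter fun e => e.1 + e.2 ≤ m

lemma mem_EE {m : ℕ} {e : ℕ × ℕ} : e ∈ EE m ↔ e.1 + e.2 ≤ m := by
  unfold EE
  rw [Finset.mem_filter, Finset.mem_product, Finset.mem_range, Finset.mem_range]
  constructor
  · exact fun h => h.2
  · intro h; exact ⟨⟨by omega, by omega⟩, h⟩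

lemma card_EE (D d : ℕ) (h : d ≤ D) : (EE D).card ≤ (EE (D - d)).card + d * (D + 1) := by
  have h1 : EE D ⊆ EE (D - d) ∪ (EE D).filter (fun e => D - d < e.1 + e.2) := by
    intro e he
    rw [Finset.mem_union, Finset.mem_filter, mem_EE, mem_EE]
    rw [mem_EE] at he
    omega
  refine (Finset.card_le_card h1).trans ((Finset.card_union_le _ _).trans ?_)
  have h2 : ((EE D).filter (fun e => D - d < e.1 + e.2)).card ≤ (Finset.Ioc (D - d) D ×ˢ Finset.range (D + 1)).card := by
    apply Finset.card_le_card_of_injOn (fun e => (e.1 + e.2, e.1))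
    · intro e he
      rw [Finset.coe_filter, Set.mem_ofPred_eq, mem_EE] at he
      rw [Finset.coe_product, Set.mem_prod, Finset.mem_coe, Finset.mem_coe, Finset.mem_Ioc, Finset.mem_range]
      dsimp only
      omega
    · intro e he e' he' hee
      simp only [Prod.mk.injEq] at hee
      ext
      · exact hee.2
      · omega
  rw [Finset.card_product, Nat.card_Ioc, Finset.card_range] at h2
  have h3 : D - (D - d) = d := by omega
  rw [h3] at h2
  omega

lemma sum_ex (e : ℕ × ℕ) : ((ex e).sum fun _ n => n) = e.1 + e.2 := by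
  rw [Finsupp.sum_fintype _ _ (fun _ => rfl), Fin.sum_univ_two, ex_zero, ex_one]

lemma eq_zero_of_coeff {D : ℕ} {P : MvPolynomial (Fin 2) ℝ} (hP : P.totalDegree ≤ D)
    (h : ∀ e ∈ EE D, coeff (ex e) P = 0) : P = 0 := by
  ext m
  rw [coeff_zero]
  by_contra hm
  have h1 : m ∈ P.support := mem_support_iff.2 hm
  have h2 := le_totalDegree h1
  rw [ex_surj m, sum_ex] at h2
  apply hm
  rw [ex_surj m]
  exact h _ (mem_EE.2 (h2.trans hP))

/-- the polynomial with coefficients `h` -/
def PH (m : ℕ) : (EE m → ℝ) →ₗ[ℝ] MvPolynomial (Fin 2) ℝ where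
  toFun h := ∑ e : EE m, C (h e) * monomial (ex e) 1
  map_add' a b := by simp only [Pi.add_apply, map_add, add_mul, Finset.sum_add_distrib]
  map_smul' a b := by
    simp only [Pi.smul_apply, smul_eq_mul, map_mul, RingHom.id_apply, Finset.smul_sum, smul_eq_C_mul, mul_assoc]

lemma PH_apply (m : ℕ) (h : EE m → ℝ) : PH m h = ∑ e : EE m, C (h e) * monomial (ex e) 1 := rfl

lemma PH_deg (m : ℕ) (h : EE m → ℝ) : (PH m h).totalDegree ≤ m := by
  rw [PH_apply]
  apply totalDegree_finsetSum_le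
  intro e _
  refine (totalDegree_mul _ _).trans ?_
  rw [totalDegree_C, zero_add]
  refine (totalDegree_monomial_le _ _).trans ?_
  exact (sum_ex (e : ℕ × ℕ)).le.trans (mem_EE.1 e.2)

lemma PH_zero {m : ℕ} {h : EE m → ℝ} (hh : PH m h = 0) : h = 0 := by
  funext e
  have h1 : coeff (ex e) (PH m h) = h e := by
    rw [PH_apply, coeff_sum, Finset.sum_eq_single e]
    · rw [coeff_C_mul, coeff_monomial, if_pos rfl, mul_one]
    · intro b _ hb
      rw [coeff_C_mul, coeff_monomial, if_neg, mul_zero]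
      intro hc
      exact hb (Subtype.ext (ex_inj hc))
    · intro h; exact absurd (Finset.mem_univ _) h
  rw [hh, coeff_zero] at h1
  exact h1.symm

/-- the combination with coefficients `c` -/
def PC (M N : ℕ) (f g s : MvPolynomial (Fin 2) ℝ) : (Fin (M + 1) → Fin (N + 1) → ℝ) →ₗ[ℝ] MvPolynomial (Fin 2) ℝ where
  toFun c := ∑ i, ∑ j, C (c i j) * (f ^ (j : ℕ) * g ^ (N - (j : ℕ)) * s ^ (i : ℕ))
  map_add' a b := by simp only [Pi.add_apply, map_add, add_mul, Finset.sum_add_distrib]
  map_smul' a b := by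
    simp only [Pi.smul_apply, smul_eq_mul, map_mul, RingHom.id_apply, Finset.smul_sum, smul_eq_C_mul, mul_assoc]

lemma PC_apply (M N : ℕ) (f g s : MvPolynomial (Fin 2) ℝ) (c : Fin (M + 1) → Fin (N + 1) → ℝ) :
    PC M N f g s c = ∑ i, ∑ j, C (c i j) * (f ^ (j : ℕ) * g ^ (N - (j : ℕ)) * s ^ (i : ℕ)) := rfl

lemma PC_deg {M N k : ℕ} {f g s : MvPolynomial (Fin 2) ℝ} (hf : f.totalDegree ≤ k) (hg : g.totalDegree ≤ k)
    (hs : s.totalDegree ≤ 2) (c : Fin (M + 1) → Fin (N + 1) → ℝ) :
    (PC M N f g s c).totalDegree ≤ 2 * M + k * N := by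
  rw [PC_apply]
  apply totalDegree_finsetSum_le
  intro i _
  apply totalDegree_finsetSum_le
  intro j _
  refine (totalDegree_mul _ _).trans ?_
  rw [totalDegree_C, zero_add]
  refine (totalDegree_mul _ _).trans ?_
  have h1 : (f ^ (j : ℕ)).totalDegree ≤ (j : ℕ) * k := (totalDegree_pow _ _).trans (Nat.mul_le_mul_left _ hf)
  have h2 : (g ^ (N - (j : ℕ))).totalDegree ≤ (N - (j : ℕ)) * k := (totalDegree_pow _ _).trans (Nat.mul_le_mul_left _ hg)
  have h3 : (s ^ (i : ℕ)).totalDegree ≤ (i : ℕ) * 2 := (totalDegree_pow _ _).trans (Nat.mul_le_mul_left _ hs)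
  have h4 := totalDegree_mul (f ^ (j : ℕ)) (g ^ (N - (j : ℕ)))
  have h5 : (j : ℕ) * k + (N - (j : ℕ)) * k = k * N := by
    rw [← add_mul, Nat.add_sub_cancel' (Nat.lt_succ_iff.1 j.2), mul_comm]
  have h6 : (i : ℕ) ≤ M := Nat.lt_succ_iff.1 i.2
  omega

/-- the linear map -/
def LL (M N D d : ℕ) (K f g s : MvPolynomial (Fin 2) ℝ) :
    ((Fin (M + 1) → Fin (N + 1) → ℝ) × (EE (D - d) → ℝ)) →ₗ[ℝ] (EE D → ℝ) where
  toFun x e := coeff (ex e) (PC M N f g s x.1 - K * PH (D - d) x.2)
  map_add' a b := by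
    funext e
    rw [Prod.fst_add, Prod.snd_add, map_add, map_add, Pi.add_apply, ← coeff_add]
    congr 1
    ring
  map_smul' a b := by
    funext e
    rw [Prod.smul_fst, Prod.smul_snd, map_smul, map_smul, Pi.smul_apply, RingHom.id_apply, smul_eq_mul,
      ← coeff_C_mul, smul_eq_C_mul, smul_eq_C_mul]
    congr 1
    ring

lemma LL_apply (M N D d : ℕ) (K f g s : MvPolynomial (Fin 2) ℝ) (x : (Fin (M + 1) → Fin (N + 1) → ℝ) × (EE (D - d) → ℝ))
    (e : EE D) : LL M N D d K f g s x e = coeff (ex e) (PC M N f g s x.1 - K * PH (D - d) x.2) := rfl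

end

end E1

theorem e1 : S_E1 := by
  intro d k K f g s hd hk hK hKd hf hg hs
  set M := 2 * d * k with hM
  set N := 4 * d - 1 with hN
  set D := 2 * M + k * N with hD
  have hdD : d ≤ D := by
    have h1 : d * 1 ≤ d * k := Nat.mul_le_mul_left d hk
    have h2 : 2 * M = 4 * (d * k) := by rw [hM]; ring
    omega
  have hdim : Module.finrank ℝ (E1.EE D → ℝ) <
      Module.finrank ℝ ((Fin (M + 1) → Fin (N + 1) → ℝ) × (E1.EE (D - d) → ℝ)) := by
    rw [Module.finrank_prod, Module.finrank_fintype_fun_eq_card, Module.finrank_fintype_fun_eq_card,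
      Module.finrank_pi_fintype]
    simp only [Module.finrank_fintype_fun_eq_card, Fintype.card_fin, Finset.sum_const, Finset.card_univ,
      smul_eq_mul, Fintype.card_coe]
    have h1 := E1.card_EE D d hdD
    have h2 : d * (D + 1) < (M + 1) * (N + 1) := by
      have h3 : N + 1 = 4 * d := by omega
      have h4 : k * N + k = 4 * (d * k) := by
        have : k * (N + 1) = 4 * (d * k) := by rw [h3]; ring
        linarith [this]
      have h5 : D + k = 8 * (d * k) := by
        have h9 : 2 * (2 * d * k) = 4 * (d * k) := by ring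
        rw [hD, hM, h9]
        omega
      rw [h3]
      have h6 : d * (D + 1) + d * k = 8 * (d * (d * k)) + d := by
        have : d * (D + k + 1) = d * (8 * (d * k) + 1) := by rw [h5]
        nlinarith
      have h7 : (M + 1) * (4 * d) = 8 * (d * (d * k)) + 4 * d := by rw [hM]; ring
      have h8 : 0 < d * k := Nat.mul_pos hd hk
      omega
    omega
  have hker := LinearMap.ker_ne_bot_of_finrank_lt (f := E1.LL M N D d K f g s) hdim
  obtain ⟨x, hx, hx0⟩ := Submodule.exists_mem_ne_zero_of_ne_bot hker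
  rw [LinearMap.mem_ker] at hx
  have hP : E1.PC M N f g s x.1 - K * E1.PH (D - d) x.2 = 0 := by
    apply E1.eq_zero_of_coeff (D := D)
    · refine (MvPolynomial.totalDegree_sub _ _).trans (max_le (E1.PC_deg hf hg hs _) ?_)
      refine (MvPolynomial.totalDegree_mul _ _).trans ?_
      have := E1.PH_deg (D - d) x.2
      omega
    · intro e he
      have := congrFun hx ⟨e, he⟩
      rw [E1.LL_apply] at this
      exact this
  refine ⟨x.1, ?_, ?_⟩
  · intro hc
    apply hx0
    have h1 : E1.PC M N f g s x.1 = 0 := by rw [hc, map_zero]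
    rw [h1, zero_sub, neg_eq_zero, mul_eq_zero] at hP
    have h2 := E1.PH_zero (hP.resolve_left hK)
    exact Prod.ext hc h2
  · intro z hz
    have h1 := congrArg (MvPolynomial.eval z) hP
    rw [map_sub, map_mul, hz, zero_mul, sub_zero, map_zero, E1.PC_apply] at h1
    rw [map_sum] at h1
    rw [← h1]
    apply Finset.sum_congr rfl
    intro i _
    rw [map_sum, Finset.sum_mul]
    apply Finset.sum_congr rfl
    intro j _
    simp only [map_mul, map_pow, MvPolynomial.eval_C]
    ring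

end Pool.Agent.H709U
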