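import Pool.Agent.H709U.Defs

open Real Set MeasureTheory Topology Filter
open scoped ENNReal

namespace Pool.Agent.H709U

namespace E2

/-- the polynomial with `form c α = exp (- i N α) Q (exp (2 i α))` -/
noncomputable def QQ {N : ℕ} (c : Fin (N + 1) → ℝ) : Polynomial ℂ :=
  ∑ j, Polynomial.C (c j : ℂ) *
    ((Polynomial.C (1 / (2 * Complex.I)) * (Polynomial.X - 1)) ^ (j : ℕ) *
      (Polynomial.C (-1 / 2) * (Polynomial.X + 1)) ^ (N - (j : ℕ)))

theorem QQ_natDegree {N : ℕ} (c : Fin (N + 1) → ℝ) : (QQ c).natDegree ≤ N := by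
  unfold QQ
  apply Polynomial.natDegree_sum_le_of_forall_le
  intro j _
  have hj : (j : ℕ) + (N - (j : ℕ)) = N := by have := j.2; omega
  have h1 : ((Polynomial.C (1 / (2 * Complex.I)) * (Polynomial.X - 1)) :
      Polynomial ℂ).natDegree ≤ 1 := by compute_degree
  have h2 : ((Polynomial.C (-1 / 2) * (Polynomial.X + 1)) :
      Polynomial ℂ).natDegree ≤ 1 := by compute_degree
  refine (Polynomial.natDegree_C_mul_le _ _).trans (Polynomial.natDegree_mul_le.trans ?_)
  have h3 := Polynomial.natDegree_pow_le_of_le (j : ℕ) h1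
  have h4 := Polynomial.natDegree_pow_le_of_le (N - (j : ℕ)) h2
  omega

theorem sin_eq (α : ℝ) : ((sin α : ℝ) : ℂ) =
    Complex.exp (-(α * Complex.I)) * ((1 / (2 * Complex.I)) * (ee α - 1)) := by
  have h1 : Complex.exp (-(α * Complex.I)) * ee α = Complex.exp (α * Complex.I) := by
    unfold ee
    rw [← Complex.exp_add]; congr 1; ring
  have hI : Complex.I ≠ 0 := Complex.I_ne_zero
  rw [Complex.ofReal_sin, Complex.sin]
  have h2 : Complex.exp (-(α * Complex.I)) * ((1 / (2 * Complex.I)) * (ee α - 1)) =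
      (1 / (2 * Complex.I)) * (Complex.exp (-(α * Complex.I)) * ee α -
        Complex.exp (-(α * Complex.I))) := by ring
  rw [h2, h1, neg_mul]
  field_simp
  rw [Complex.I_sq]
  ring

theorem cos_eq (α : ℝ) : (-(cos α : ℝ) : ℂ) =
    Complex.exp (-(α * Complex.I)) * ((-1 / 2) * (ee α + 1)) := by
  have h1 : Complex.exp (-(α * Complex.I)) * ee α = Complex.exp (α * Complex.I) := by
    unfold ee
    rw [← Complex.exp_add]; congr 1; ring
  rw [Complex.ofReal_cos, Complex.cos]
  have h2 : Complex.exp (-(α * Complex.I)) * ((-1 / 2) * (ee α + 1)) =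
      (-1 / 2) * (Complex.exp (-(α * Complex.I)) * ee α +
        Complex.exp (-(α * Complex.I))) := by ring
  rw [h2, h1, neg_mul]
  ring

theorem form_eq {N : ℕ} (c : Fin (N + 1) → ℝ) (α : ℝ) : ((form c α : ℝ) : ℂ) =
    Complex.exp (-(α * Complex.I)) ^ N * (QQ c).eval (ee α) := by
  unfold form QQ
  rw [Complex.ofReal_sum, Polynomial.eval_finsetSum, Finset.mul_sum]
  apply Finset.sum_congr rfl
  intro j _
  have hj : (j : ℕ) + (N - (j : ℕ)) = N := by have := j.2; omega
  rw [Complex.ofReal_mul, Complex.ofReal_mul, Complex.ofReal_pow, Complex.ofReal_pow,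
    Complex.ofReal_neg, sin_eq, cos_eq]
  simp only [Polynomial.eval_mul, Polynomial.eval_pow, Polynomial.eval_sub, Polynomial.eval_add,
    Polynomial.eval_C, Polynomial.eval_X, Polynomial.eval_one]
  rw [mul_pow (Complex.exp _), mul_pow (Complex.exp _)]
  have hE : Complex.exp (-(α * Complex.I)) ^ N = Complex.exp (-(α * Complex.I)) ^ (j : ℕ) *
      Complex.exp (-(α * Complex.I)) ^ (N - (j : ℕ)) := by rw [← pow_add, hj]
  rw [hE]
  ring

theorem norm_exp_one (α : ℝ) : ‖Complex.exp (-(α * Complex.I))‖ = 1 := by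
  have : -(α * Complex.I) = ((-α : ℝ) : ℂ) * Complex.I := by push_cast; ring
  rw [this, Complex.norm_exp_ofReal_mul_I]

theorem norm_ee (α : ℝ) : ‖ee α‖ = 1 := by
  unfold ee
  have : 2 * (α : ℂ) * Complex.I = ((2 * α : ℝ) : ℂ) * Complex.I := by push_cast; ring
  rw [this, Complex.norm_exp_ofReal_mul_I]

theorem abs_form {N : ℕ} (c : Fin (N + 1) → ℝ) (α : ℝ) : |form c α| = ‖(QQ c).eval (ee α)‖ := by
  have h := congrArg norm (form_eq c α)
  rw [norm_mul, norm_pow, norm_exp_one, one_pow, one_mul, Complex.norm_real, Real.norm_eq_abs] at h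
  exact h

theorem form_continuous {N : ℕ} (c : Fin (N + 1) → ℝ) : Continuous (form c) := by
  unfold form
  apply continuous_finsetSum
  intro j _
  exact (continuous_const.mul (continuous_sin.pow _)).mul (continuous_cos.neg.pow _)

theorem form_periodic {N : ℕ} (c : Fin (N + 1) → ℝ) : Function.Periodic (form c) (2 * π) := by
  intro α
  unfold form
  rw [sin_add_two_pi, cos_add_two_pi]

theorem exists_ne {N : ℕ} (c : Fin (N + 1) → ℝ) (hc : c ≠ 0) : ∃ α, form c α ≠ 0 := by
  let p : Polynomial ℝ := ∑ j : Fin (N + 1), Polynomial.C (c j) * Polynomial.X ^ (j : ℕ)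
  have hp : p ≠ 0 := by
    intro h0
    apply hc
    funext j
    have h1 : p.coeff (j : ℕ) = c j := by
      simp only [p, Polynomial.finsetSum_coeff, Polynomial.coeff_C_mul, Polynomial.coeff_X_pow]
      rw [Finset.sum_eq_single j]
      · simp
      · intro b _ hb
        have : (j : ℕ) ≠ (b : ℕ) := fun h => hb (Fin.ext h.symm)
        simp [this]
      · simp
    rw [← h1, h0]; simp
  have ht : ∃ t : ℝ, p.eval t ≠ 0 := by
    by_contra hcon
    push Not at hcon
    exact hp (Polynomial.funext (fun r => by rw [hcon r]; simp))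
  obtain ⟨t, ht⟩ := ht
  refine ⟨-arctan t, ?_⟩
  have hcos : 0 < cos (arctan t) := cos_arctan_pos t
  have hsin : sin (arctan t) = t * cos (arctan t) := by
    have := tan_arctan t
    rw [tan_eq_sin_div_cos, div_eq_iff hcos.ne'] at this
    exact this
  have h2 : form c (-arctan t) = (-cos (arctan t)) ^ N * p.eval t := by
    unfold form
    simp only [p, Polynomial.eval_finsetSum, Polynomial.eval_mul, Polynomial.eval_C,
      Polynomial.eval_pow, Polynomial.eval_X]
    rw [Finset.mul_sum]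
    apply Finset.sum_congr rfl
    intro j _
    have hj : (j : ℕ) + (N - (j : ℕ)) = N := by have := j.2; omega
    rw [sin_neg, cos_neg, hsin]
    have hE : (-cos (arctan t)) ^ N = (-cos (arctan t)) ^ (j : ℕ) *
      (-cos (arctan t)) ^ (N - (j : ℕ)) := by rw [← pow_add, hj]
    rw [hE]
    have : (-(t * cos (arctan t))) ^ (j : ℕ) = (-cos (arctan t)) ^ (j : ℕ) * t ^ (j : ℕ) := by
      rw [← mul_pow]; congr 1; ring
    rw [this]
    ring
  rw [h2]
  exact mul_ne_zero (pow_ne_zero _ (neg_ne_zero.mpr hcos.ne')) ht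

theorem prod_le (w w' : ℂ) (δ : ℝ) (hδ : 0 < δ) (hδ1 : δ ≤ 1) (hw : ‖w‖ = 1) (hw' : ‖w'‖ = 1)
    (s : Multiset ℂ) (hs : ∀ a ∈ s, δ ≤ ‖w - a‖) :
    (δ / 3) ^ s.card * (s.map (fun a => ‖w' - a‖)).prod ≤ (s.map (fun a => ‖w - a‖)).prod := by
  induction s using Multiset.induction with
  | empty => simp
  | cons a s ih =>
    rw [Multiset.card_cons, Multiset.map_cons, Multiset.map_cons, Multiset.prod_cons,
      Multiset.prod_cons, pow_succ]
    have h1 := ih (fun b hb => hs b (Multiset.mem_cons_of_mem hb))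
    have h2 := hs a (Multiset.mem_cons_self a s)
    have h3 : ‖w' - a‖ ≤ 2 + ‖w - a‖ := by
      have : w' - a = w' - w + (w - a) := by ring
      rw [this]
      calc _ ≤ ‖w' - w‖ + ‖w - a‖ := norm_add_le _ _
        _ ≤ 2 + ‖w - a‖ := by
          have := norm_sub_le w' w
          rw [hw, hw'] at this
          linarith
    have h4 : (δ / 3) * ‖w' - a‖ ≤ ‖w - a‖ := by
      nlinarith [norm_nonneg (w - a)]
    have h5 : 0 ≤ (s.map (fun a => ‖w' - a‖)).prod := by
      apply Multiset.prod_nonneg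
      intro b hb
      obtain ⟨x, _, rfl⟩ := Multiset.mem_map.mp hb
      exact norm_nonneg _
    calc (δ / 3) ^ s.card * (δ / 3) * (‖w' - a‖ * (s.map (fun a => ‖w' - a‖)).prod)
        = ((δ / 3) * ‖w' - a‖) * ((δ / 3) ^ s.card * (s.map (fun a => ‖w' - a‖)).prod) := by ring
      _ ≤ ‖w - a‖ * (s.map (fun a => ‖w - a‖)).prod :=
        mul_le_mul h4 h1 (by positivity) (norm_nonneg _)

end E2

open E2 in
theorem e2 : S_E2 := by
  intro N c hc
  obtain ⟨α₀, hα₀⟩ := exists_ne c hc
  have hcont : ContinuousOn (fun α => |form c α|) (Icc 0 (2 * π)) :=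
    (form_continuous c).abs.continuousOn
  obtain ⟨β, hβ, hmax⟩ := isCompact_Icc.exists_isMaxOn
    (nonempty_Icc.mpr (by positivity : (0 : ℝ) ≤ 2 * π)) hcont
  have hall : ∀ α, |form c α| ≤ |form c β| := by
    intro α
    obtain ⟨y, hy, hy2⟩ := (form_periodic c).exists_mem_Ico₀ (by positivity) α
    rw [hy2]
    exact hmax (Ico_subset_Icc_self hy)
  have hm : 0 < |form c β| := lt_of_lt_of_le (abs_pos.mpr hα₀) (hall α₀)
  have hQ : QQ c ≠ 0 := by
    intro h0
    rw [abs_form, h0] at hm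
    simp at hm
  refine ⟨(QQ c).roots.toFinset, ?_, |form c β|, hm, hall, ?_⟩
  · exact (Multiset.toFinset_card_le _).trans
      ((Polynomial.card_roots' _).trans (QQ_natDegree c))
  · intro δ hδ hδ1 α hα
    have hfac : ∀ w : ℂ, ‖(QQ c).eval w‖ = ‖(QQ c).leadingCoeff‖ *
        ((QQ c).roots.map (fun a => ‖w - a‖)).prod := by
      intro w
      have h1 := (IsAlgClosed.splits (QQ c)).eval_eq_prod_roots w
      rw [h1, norm_mul]
      congr 1
      have h2 := map_multiset_prod (normHom : ℂ →*₀ ℝ) ((QQ c).roots.map (fun x => w - x))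
      rw [Multiset.map_map] at h2
      exact h2
    rw [abs_form, abs_form, hfac, hfac]
    have h1 := prod_le (ee α) (ee β) δ hδ hδ1 (norm_ee α) (norm_ee β) (QQ c).roots
      (fun a ha => hα a (Multiset.mem_toFinset.mpr ha))
    have h2 : (δ / 3) ^ N ≤ (δ / 3) ^ (QQ c).roots.card :=
      pow_le_pow_of_le_one (by positivity) (by linarith)
        ((Polynomial.card_roots' _).trans (QQ_natDegree c))
    have h5 : 0 ≤ ((QQ c).roots.map (fun a => ‖ee β - a‖)).prod := by
      apply Multiset.prod_nonneg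
      intro b hb
      obtain ⟨x, _, rfl⟩ := Multiset.mem_map.mp hb
      exact norm_nonneg _
    calc (δ / 3) ^ N * (‖(QQ c).leadingCoeff‖ *
        ((QQ c).roots.map (fun a => ‖ee β - a‖)).prod)
        ≤ (δ / 3) ^ (QQ c).roots.card * (‖(QQ c).leadingCoeff‖ *
        ((QQ c).roots.map (fun a => ‖ee β - a‖)).prod) := by gcongr
      _ = ‖(QQ c).leadingCoeff‖ * ((δ / 3) ^ (QQ c).roots.card *
        ((QQ c).roots.map (fun a => ‖ee β - a‖)).prod) := by ring
      _ ≤ _ := by gcongr

end Pool.Agent.H709U
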