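import Mathlib
import Pool.Agent.H709U.Defs

namespace Pool.Agent.H709U

open Real Set MeasureTheory

lemma e2b_norm (x y : ℝ) : ‖ee x - ee y‖ = 2 * |sin (x - y)| := by
  have h : ee x - ee y = Complex.exp ((x + y : ℝ) * Complex.I) * (2 * Complex.I * (sin (x - y) : ℝ)) := by
    have h1 : ((sin (x - y) : ℝ) : ℂ) = Complex.sin ((x : ℂ) - y) := by push_cast; rfl
    rw [h1]
    have h2 : 2 * Complex.I * Complex.sin ((x : ℂ) - y)
        = Complex.exp (((x : ℂ) - y) * Complex.I) - Complex.exp (-(((x : ℂ) - y)) * Complex.I) := by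
      rw [Complex.sin]
      have : Complex.I * Complex.I = -1 := Complex.I_mul_I
      linear_combination (-1 : ℂ) * (Complex.exp (((x : ℂ) - y) * Complex.I)
        - Complex.exp (-(((x : ℂ) - y)) * Complex.I)) * this
    rw [h2, mul_sub, ← Complex.exp_add, ← Complex.exp_add]
    unfold ee
    congr 1
    · congr 1
      push_cast
      ring
    · congr 1
      push_cast
      ring
  rw [h, norm_mul, Complex.norm_exp_ofReal_mul_I, one_mul, norm_mul, norm_mul, Complex.norm_I,
    mul_one, Complex.norm_real, Real.norm_eq_abs]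
  simp

lemma e2b_sin {x d : ℝ} (h1 : -π < x) (h2 : x < π) (h : |sin x| < 2 * d) :
    |x| ≤ π * d ∨ |x - π| ≤ π * d ∨ |x + π| ≤ π * d := by
  have hpi := Real.pi_pos
  rcases le_total x 0 with h0 | h0
  · rcases le_total (-(π / 2)) x with h3 | h3
    · left
      have h4 := Real.mul_le_sin (x := -x) (by linarith) (by linarith)
      rw [Real.sin_neg] at h4
      have h5 := neg_abs_le (sin x)
      rw [abs_of_nonpos h0]
      have h6 : 2 / π * (-x) < 2 * d := by linarith
      have h7 : π * (2 / π * (-x)) < π * (2 * d) := mul_lt_mul_of_pos_left h6 hpi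
      have h8 : π * (2 / π * (-x)) = 2 * (-x) := by field_simp
      linarith
    · right; right
      have h4 := Real.mul_le_sin (x := x + π) (by linarith) (by linarith)
      rw [Real.sin_add_pi] at h4
      have h5 := neg_abs_le (sin x)
      rw [abs_of_nonneg (by linarith)]
      have h6 : 2 / π * (x + π) < 2 * d := by linarith
      have h7 : π * (2 / π * (x + π)) < π * (2 * d) := mul_lt_mul_of_pos_left h6 hpi
      have h8 : π * (2 / π * (x + π)) = 2 * (x + π) := by field_simp
      linarith
  · rcases le_total x (π / 2) with h3 | h3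
    · left
      have h4 := Real.mul_le_sin h0 h3
      have h5 := le_abs_self (sin x)
      rw [abs_of_nonneg h0]
      have h6 : 2 / π * x < 2 * d := by linarith
      have h7 : π * (2 / π * x) < π * (2 * d) := mul_lt_mul_of_pos_left h6 hpi
      have h8 : π * (2 / π * x) = 2 * x := by field_simp
      linarith
    · right; left
      have h4 := Real.mul_le_sin (x := π - x) (by linarith) (by linarith)
      rw [Real.sin_pi_sub] at h4
      have h5 := le_abs_self (sin x)
      rw [abs_of_nonpos (by linarith)]
      have h6 : 2 / π * (π - x) < 2 * d := by linarith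
      have h7 : π * (2 / π * (π - x)) < π * (2 * d) := mul_lt_mul_of_pos_left h6 hpi
      have h8 : π * (2 / π * (π - x)) = 2 * (π - x) := by field_simp
      linarith

theorem e2b : S_E2b := by
  intro a δ hδ
  rcases (Set.eq_empty_or_nonempty {α | α ∈ Ioo 0 π ∧ ‖ee α - a‖ < 2 * δ}) with h | ⟨b, hb⟩
  · rw [h]; simp
  have hpi := Real.pi_pos
  have hsub : {α | α ∈ Ioo 0 π ∧ ‖ee α - a‖ < 2 * δ} ⊆
      (Icc (b - π * δ) (b + π * δ) ∪ Icc (b + π - π * δ) (b + π + π * δ)) ∪
        Icc (b - π - π * δ) (b - π + π * δ) := by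
    intro α hα
    obtain ⟨⟨hα1, hα2⟩, hα3⟩ := hα
    obtain ⟨⟨hb1, hb2⟩, hb3⟩ := hb
    have h1 : ‖ee α - ee b‖ < 4 * δ := by
      have : ee α - ee b = (ee α - a) - (ee b - a) := by ring
      rw [this]
      calc ‖(ee α - a) - (ee b - a)‖ ≤ ‖ee α - a‖ + ‖ee b - a‖ := norm_sub_le _ _
        _ < 4 * δ := by linarith
    rw [e2b_norm] at h1
    have h2 : |sin (α - b)| < 2 * δ := by linarith
    rcases e2b_sin (by linarith) (by linarith) h2 with h3 | h3 | h3
    · left; left
      rw [abs_le] at h3
      constructor <;> linarith [h3.1, h3.2]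
    · left; right
      rw [abs_le] at h3
      constructor <;> linarith [h3.1, h3.2]
    · right
      rw [abs_le] at h3
      constructor <;> linarith [h3.1, h3.2]
  refine (measure_mono hsub).trans ?_
  refine (measure_union_le _ _).trans ?_
  refine (add_le_add_left (measure_union_le _ _) _).trans ?_
  rw [Real.volume_Icc, Real.volume_Icc, Real.volume_Icc, ← ENNReal.ofReal_add (by nlinarith)
    (by nlinarith), ← ENNReal.ofReal_add (by nlinarith) (by nlinarith)]
  apply ENNReal.ofReal_le_ofReal
  have := Real.pi_lt_d2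
  nlinarith

end Pool.Agent.H709U
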