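import Pool.Agent.H709U.Defs

/-! E3: location of the positive roots (helper903). -/

open Real Set MeasureTheory Topology Filter
open scoped ENNReal

namespace Pool.Agent.H709U

theorem e3_pos {a b : ℝ} (h : 0 < a * b) (hb : 0 ≤ b) : 0 < a := by
  by_contra hcon
  push Not at hcon
  nlinarith [mul_nonneg (neg_nonneg.2 hcon) hb]

theorem e3_core (M : ℕ) (m : Fin (M + 1) → ℝ) (s B : ℝ) (hs : 0 < s) (k l : Fin (M + 1))
    (hkl : k < l) (hk : 0 < m k) (hl : 0 < m l)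
    (h : |Real.log (m k * s ^ (k : ℕ)) - Real.log (m l * s ^ (l : ℕ))| ≤ B) :
    |Real.log s - (Real.log (m k) - Real.log (m l)) / ((l : ℕ) - (k : ℕ) : ℝ)| ≤ B := by
  have hkl' : ((k : ℕ) : ℝ) + 1 ≤ ((l : ℕ) : ℝ) := by
    have : (k : ℕ) + 1 ≤ (l : ℕ) := hkl
    exact_mod_cast this
  have hd : (1 : ℝ) ≤ ((l : ℕ) - (k : ℕ) : ℝ) := by linarith
  have hd0 : (0 : ℝ) < ((l : ℕ) - (k : ℕ) : ℝ) := by linarith
  have e1 : Real.log (m k * s ^ (k : ℕ)) - Real.log (m l * s ^ (l : ℕ)) =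
      -(((l : ℕ) - (k : ℕ) : ℝ) * (Real.log s - (Real.log (m k) - Real.log (m l)) /
        ((l : ℕ) - (k : ℕ) : ℝ))) := by
    rw [Real.log_mul hk.ne' (pow_pos hs _).ne', Real.log_mul hl.ne' (pow_pos hs _).ne',
      Real.log_pow, Real.log_pow]
    field_simp
    ring
  rw [e1, abs_neg, abs_mul, abs_of_pos hd0] at h
  have h0 := abs_nonneg (Real.log s - (Real.log (m k) - Real.log (m l)) /
        ((l : ℕ) - (k : ℕ) : ℝ))
  nlinarith

theorem e3_aux : ∀ (M : ℕ) (c m : Fin (M + 1) → ℝ) (κ s : ℝ), 0 < κ → κ ≤ 1 →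
  (∀ i, 0 ≤ m i) → (∀ i, κ * m i ≤ |c i|) → (∀ i, |c i| ≤ m i) → (∃ i, 0 < m i) → 0 < s →
  ∑ i, c i * s ^ (i : ℕ) = 0 →
  ∃ k l : Fin (M + 1), k < l ∧ 0 < m k ∧ 0 < m l ∧
    |Real.log s - (Real.log (m k) - Real.log (m l)) / ((l : ℕ) - (k : ℕ) : ℝ)| ≤
      Real.log ((M + 1) / κ) := by
  intro M c m κ s hκ hκ1 hm h1 h2 hex hs hsum
  obtain ⟨k0, hk0⟩ := Finite.exists_max (fun i : Fin (M + 1) => m i * s ^ (i : ℕ))
  have hsp : ∀ i : ℕ, 0 < s ^ i := fun i => pow_pos hs i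
  have hmk0 : 0 < m k0 := by
    obtain ⟨i, hi⟩ := hex
    have h3 := hk0 i
    have h4 : 0 < m k0 * s ^ (k0 : ℕ) := lt_of_lt_of_le (mul_pos hi (hsp _)) h3
    exact e3_pos h4 (hsp _).le
  have hA : 0 < κ * (m k0 * s ^ (k0 : ℕ)) := mul_pos hκ (mul_pos hmk0 (hsp _))
  have hM1 : (0 : ℝ) < (M : ℝ) + 1 := by positivity
  obtain ⟨l0, hne, hl0⟩ : ∃ l0, l0 ≠ k0 ∧
      κ * (m k0 * s ^ (k0 : ℕ)) / ((M : ℝ) + 1) ≤ m l0 * s ^ (l0 : ℕ) := by
    by_contra hcon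
    push Not at hcon
    have hle : κ * (m k0 * s ^ (k0 : ℕ)) ≤ ∑ i ∈ Finset.univ.erase k0, m i * s ^ (i : ℕ) := by
      have e1 : c k0 * s ^ (k0 : ℕ) = -∑ i ∈ Finset.univ.erase k0, c i * s ^ (i : ℕ) := by
        have := Finset.add_sum_erase Finset.univ (fun i : Fin (M + 1) => c i * s ^ (i : ℕ))
          (Finset.mem_univ k0)
        linarith
      calc κ * (m k0 * s ^ (k0 : ℕ)) = (κ * m k0) * s ^ (k0 : ℕ) := by ring
        _ ≤ |c k0| * s ^ (k0 : ℕ) := mul_le_mul_of_nonneg_right (h1 k0) (hsp _).le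
        _ = |c k0 * s ^ (k0 : ℕ)| := by rw [abs_mul, abs_of_pos (hsp _)]
        _ = |∑ i ∈ Finset.univ.erase k0, c i * s ^ (i : ℕ)| := by rw [e1, abs_neg]
        _ ≤ ∑ i ∈ Finset.univ.erase k0, |c i * s ^ (i : ℕ)| := Finset.abs_sum_le_sum_abs _ _
        _ ≤ ∑ i ∈ Finset.univ.erase k0, m i * s ^ (i : ℕ) := by
          refine Finset.sum_le_sum fun i _ => ?_
          rw [abs_mul, abs_of_pos (hsp _)]
          exact mul_le_mul_of_nonneg_right (h2 i) (hsp _).le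
    have hle2 : ∑ i ∈ Finset.univ.erase k0, m i * s ^ (i : ℕ) ≤
        ∑ i ∈ Finset.univ.erase k0, κ * (m k0 * s ^ (k0 : ℕ)) / ((M : ℝ) + 1) := by
      refine Finset.sum_le_sum fun i hi => ?_
      exact (hcon i (Finset.ne_of_mem_erase hi)).le
    rw [Finset.sum_const, Finset.card_erase_of_mem (Finset.mem_univ _), Finset.card_univ,
      Fintype.card_fin, Nat.add_sub_cancel, nsmul_eq_mul] at hle2
    have h5 : (M : ℝ) * (κ * (m k0 * s ^ (k0 : ℕ)) / ((M : ℝ) + 1)) <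
        κ * (m k0 * s ^ (k0 : ℕ)) := by
      rw [← mul_div_assoc, div_lt_iff₀ hM1]
      nlinarith
    linarith
  have hl0pos : 0 < m l0 * s ^ (l0 : ℕ) := lt_of_lt_of_le (div_pos hA hM1) hl0
  have hml0 : 0 < m l0 := e3_pos hl0pos (hsp _).le
  have hk0pos : 0 < m k0 * s ^ (k0 : ℕ) := mul_pos hmk0 (hsp _)
  have hD0 : 0 ≤ Real.log (m k0 * s ^ (k0 : ℕ)) - Real.log (m l0 * s ^ (l0 : ℕ)) :=
    sub_nonneg.2 (Real.log_le_log hl0pos (hk0 l0))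
  have hD1 : Real.log (m k0 * s ^ (k0 : ℕ)) - Real.log (m l0 * s ^ (l0 : ℕ)) ≤
      Real.log ((M + 1) / κ) := by
    rw [sub_le_iff_le_add, ← Real.log_mul (div_pos hM1 hκ).ne' hl0pos.ne']
    refine Real.log_le_log hk0pos ?_
    rw [div_le_iff₀ hM1] at hl0
    rw [div_mul_eq_mul_div, le_div_iff₀ hκ]
    linarith
  rcases lt_or_gt_of_ne hne with h | h
  · refine ⟨l0, k0, h, hml0, hmk0, ?_⟩
    refine e3_core M m s _ hs l0 k0 h hml0 hmk0 ?_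
    rw [abs_sub_comm, abs_of_nonneg hD0]
    exact hD1
  · refine ⟨k0, l0, h, hmk0, hml0, ?_⟩
    refine e3_core M m s _ hs k0 l0 h hmk0 hml0 ?_
    rw [abs_of_nonneg hD0]
    exact hD1

theorem e3 : S_E3 := e3_aux

end Pool.Agent.H709U
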