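import Pool.Agent.H709U.Defs

set_option autoImplicit false

open Real MeasureTheory Set
open scoped ENNReal

namespace Pool.Agent.H709U

namespace E4aux

theorem totalDegree_s (p : ℝ × ℝ) :
    ((MvPolynomial.X 0 - MvPolynomial.C p.1) ^ 2 +
      (MvPolynomial.X 1 - MvPolynomial.C p.2) ^ 2 : MvPolynomial (Fin 2) ℝ).totalDegree ≤ 2 := by
  have h : ∀ (i : Fin 2) (c : ℝ),
      ((MvPolynomial.X i - MvPolynomial.C c : MvPolynomial (Fin 2) ℝ) ^ 2).totalDegree ≤ 2 := by
    intro i c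
    refine (MvPolynomial.totalDegree_pow _ _).trans ?_
    have h1 : (MvPolynomial.X i - MvPolynomial.C c : MvPolynomial (Fin 2) ℝ).totalDegree ≤ 1 := by
      refine (MvPolynomial.totalDegree_sub _ _).trans ?_
      simp
    omega
  refine (MvPolynomial.totalDegree_add _ _).trans ?_
  exact max_le (h 0 p.1) (h 1 p.2)

end E4aux

theorem e4 : S_E1 → S_E2 → S_E3 → S_E4 := by
  classical
  intro h1 h2 h3 n K f g p hK hKd hfd hgd δ hδ hδ1
  obtain ⟨c, hc, hrel⟩ := h1 (4 * n + 1) (n + 1) K f g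
    ((MvPolynomial.X 0 - MvPolynomial.C p.1) ^ 2 + (MvPolynomial.X 1 - MvPolynomial.C p.2) ^ 2)
    (by omega) (by omega) hK hKd hfd hgd (E4aux.totalDegree_s p)
  change Fin (nM n + 1) → Fin (nN n + 1) → ℝ at c
  have hsel : ∀ i : Fin (nM n + 1), ∃ (R : Finset ℂ) (m : ℝ), R.card ≤ nN n ∧ 0 ≤ m ∧
      (c i ≠ 0 → 0 < m) ∧ (∀ α, |form (c i) α| ≤ m) ∧
      ∀ α, (∀ a ∈ R, δ ≤ ‖ee α - a‖) → (δ / 3) ^ nN n * m ≤ |form (c i) α| := by
    intro i
    by_cases hi : c i = 0
    · refine ⟨∅, 0, by simp, le_rfl, fun h => absurd hi h, fun α => ?_, fun α _ => ?_⟩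
      · simp [form, hi]
      · simp
    · obtain ⟨R, hR, m, hm, hm1, hm2⟩ := h2 (nN n) (c i) hi
      exact ⟨R, m, hR, hm.le, fun _ => hm, hm1, fun α hα => hm2 δ hδ hδ1 α hα⟩
  choose R m hR hm0 hmpos hm1 hm2 using hsel
  refine ⟨Finset.univ.biUnion R, (Finset.univ ×ˢ Finset.univ).image
    (fun kl : Fin (nM n + 1) × Fin (nM n + 1) =>
      (Real.log (m kl.1) - Real.log (m kl.2)) / ((kl.2 : ℕ) - (kl.1 : ℕ) : ℝ) / 2), ?_, ?_, ?_⟩
  · refine Finset.card_biUnion_le.trans ?_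
    refine (Finset.sum_le_card_nsmul _ _ _ (fun i _ => hR i)).trans ?_
    simp
  · refine Finset.card_image_le.trans ?_
    simp [sq]
  · intro α hα z hz hKz hlin hne
    obtain ⟨F, hF⟩ : ∃ F, F = MvPolynomial.eval ![z.1, z.2] f := ⟨_, rfl⟩
    obtain ⟨G, hG⟩ : ∃ G, G = MvPolynomial.eval ![z.1, z.2] g := ⟨_, rfl⟩
    have hr := hrel ![z.1, z.2] hKz
    rw [← hF, ← hG] at hlin hne
    have hs : MvPolynomial.eval ![z.1, z.2] ((MvPolynomial.X 0 - MvPolynomial.C p.1) ^ 2 +
        (MvPolynomial.X 1 - MvPolynomial.C p.2) ^ 2) = H709R2.sq (z - p) := by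
      simp [H709R2.sq]
    rw [← hF, ← hG, hs] at hr
    obtain ⟨s, hs'⟩ : ∃ s, s = H709R2.sq (z - p) := ⟨_, rfl⟩
    rw [← hs'] at hr
    have hspos : 0 < s := by
      rw [hs']
      unfold H709R2.sq
      have : z.1 - p.1 ≠ 0 ∨ z.2 - p.2 ≠ 0 := by
        by_contra hcon
        push Not at hcon
        exact hz (Prod.ext (by linarith [hcon.1]) (by linarith [hcon.2]))
      simp only [Prod.fst_sub, Prod.snd_sub]
      rcases this with h | h
      · have := sq_pos_of_ne_zero h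
        nlinarith [sq_nonneg (z.2 - p.2)]
      · have := sq_pos_of_ne_zero h
        nlinarith [sq_nonneg (z.1 - p.1)]
    obtain ⟨lam, hlam⟩ : ∃ lam, lam = F * sin α - G * cos α := ⟨_, rfl⟩
    have hsc := Real.sin_sq_add_cos_sq α
    have eF : F = lam * sin α := by
      rw [hlam]
      linear_combination (-F) * hsc + cos α * hlin
    have eG : G = lam * (-cos α) := by
      rw [hlam]
      linear_combination (-G) * hsc + sin α * hlin
    have hlam0 : lam ≠ 0 := by
      intro h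
      rcases hne with h0 | h0
      · exact h0 (by rw [eF, h, zero_mul])
      · exact h0 (by rw [eG, h, zero_mul])
    have hrow : ∀ i : Fin (nM n + 1), (∑ j, c i j * F ^ (j : ℕ) * G ^ (4 * (4 * n + 1) - 1 - (j : ℕ))) =
        lam ^ nN n * form (c i) α := by
      intro i
      unfold form
      rw [Finset.mul_sum]
      refine Finset.sum_congr rfl fun j _ => ?_
      have hj : (j : ℕ) ≤ nN n := Nat.lt_succ_iff.1 j.2
      have e1 : lam ^ nN n = lam ^ (j : ℕ) * lam ^ (nN n - (j : ℕ)) := by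
        rw [← pow_add]; congr 1; omega
      have e2 : 4 * (4 * n + 1) - 1 - (j : ℕ) = nN n - (j : ℕ) := rfl
      rw [e2, e1, eF, eG, mul_pow, mul_pow]
      ring
    have hsum : ∑ i : Fin (nM n + 1), form (c i) α * s ^ (i : ℕ) = 0 := by
      have h4 : lam ^ nN n * ∑ i : Fin (nM n + 1), form (c i) α * s ^ (i : ℕ) = 0 := by
        rw [Finset.mul_sum, ← hr]
        refine Finset.sum_congr rfl fun i _ => ?_
        rw [← mul_assoc, ← hrow i]
        rfl
      rcases mul_eq_zero.1 h4 with h5 | h5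
      · exact absurd h5 (pow_ne_zero _ hlam0)
      · exact h5
    have hex : ∃ i, 0 < m i := by
      have : ∃ i, c i ≠ 0 := by
        by_contra hcon
        push Not at hcon
        exact hc (funext hcon)
      obtain ⟨i, hi⟩ := this
      exact ⟨i, hmpos i hi⟩
    have hκ : (0 : ℝ) < (δ / 3) ^ nN n := by positivity
    obtain ⟨k, l, hkl, -, -, hb⟩ := h3 (nM n) (fun i => form (c i) α) m ((δ / 3) ^ nN n) s hκ
      (pow_le_one₀ (by positivity) (by linarith)) hm0
      (fun i => hm2 i α (fun a ha => hα a (Finset.mem_biUnion.2 ⟨i, Finset.mem_univ _, ha⟩)))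
      (fun i => hm1 i α) hex hspos hsum
    refine ⟨_, Finset.mem_image.2 ⟨(k, l), by simp, rfl⟩, ?_⟩
    have e3 : ((nM n : ℝ) + 1) / (δ / 3) ^ nN n = (nM n + 1) * (3 / δ) ^ nN n := by
      rw [div_eq_mul_inv, ← inv_pow, inv_div]
    have e4' : lg p z - (Real.log (m k) - Real.log (m l)) / ((l : ℕ) - (k : ℕ) : ℝ) / 2 =
        (Real.log s - (Real.log (m k) - Real.log (m l)) / ((l : ℕ) - (k : ℕ) : ℝ)) / 2 := by
      unfold lg
      rw [← hs']
      ring
    show |lg p z - (Real.log (m k) - Real.log (m l)) / ((l : ℕ) - (k : ℕ) : ℝ) / 2| ≤ L0 n δ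
    rw [e4', abs_div, abs_two]
    unfold L0
    rw [← e3]
    linarith

end Pool.Agent.H709U
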