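import Pool.Agent.H709U.Defs

/-! E4: exceptional angles and scales. -/

open Real Set MeasureTheory Topology Filter
open scoped ENNReal

namespace Pool.Agent.H709U

noncomputable section

open Pool.Agent.H709R2 (rot wedge field ClosedOrbit)

theorem e4me : S_E1 → S_E2 → S_E3 → S_E4 := by
  intro e1 e2 e3 n K f g p hK hKd hf hg δ hδ hδ1
  classical
  set s : MvPolynomial (Fin 2) ℝ := (MvPolynomial.X 0 - MvPolynomial.C p.1) ^ 2 +
    (MvPolynomial.X 1 - MvPolynomial.C p.2) ^ 2 with hs
  have hXd : ∀ (i : Fin 2) (c : ℝ),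
      (MvPolynomial.X i - MvPolynomial.C c : MvPolynomial (Fin 2) ℝ).totalDegree ≤ 1 := by
    intro i c
    refine (MvPolynomial.totalDegree_sub _ _).trans ?_
    simp
  have hsd : s.totalDegree ≤ 2 := by
    refine (MvPolynomial.totalDegree_add _ _).trans (max_le ?_ ?_)
    · refine (MvPolynomial.totalDegree_pow _ _).trans ?_
      have := hXd 0 p.1
      omega
    · refine (MvPolynomial.totalDegree_pow _ _).trans ?_
      have := hXd 1 p.2
      omega
  have hse : ∀ z : ℝ × ℝ, MvPolynomial.eval ![z.1, z.2] s = H709R2.sq (z - p) := by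
    intro z
    rw [hs]
    simp [H709R2.sq]
  obtain ⟨c, hc0, hc⟩ := e1 (4 * n + 1) (n + 1) K f g s (by omega) (by omega) hK hKd hf hg hsd
  have hstep : ∀ i : Fin (2 * (4 * n + 1) * (n + 1) + 1), ∃ (R : Finset ℂ) (m : ℝ),
      R.card ≤ nN n ∧ 0 ≤ m ∧ (c i ≠ 0 → 0 < m) ∧ (∀ α, |form (c i) α| ≤ m) ∧
      ∀ α, (∀ a ∈ R, δ ≤ ‖ee α - a‖) → (δ / 3) ^ nN n * m ≤ |form (c i) α| := by
    intro i
    by_cases hi : c i = 0
    · refine ⟨∅, 0, by simp, le_rfl, fun h => absurd hi h, ?_, ?_⟩
      · intro α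
        rw [hi]
        simp [form]
      · intro α _
        rw [mul_zero]
        exact abs_nonneg _
    · obtain ⟨R, hR, m, hm, h1, h2⟩ := e2 (4 * (4 * n + 1) - 1) (c i) hi
      exact ⟨R, m, hR, hm.le, fun _ => hm, h1, fun α hα => h2 δ hδ hδ1 α hα⟩
  choose R m hR hm0 hmpos hm1 hm2 using hstep
  set κ : ℝ := (δ / 3) ^ nN n with hκ
  have hκpos : 0 < κ := by positivity
  have hκ1 : κ ≤ 1 := pow_le_one₀ (by positivity) (by linarith)
  refine ⟨Finset.univ.biUnion R, (Finset.univ ×ˢ Finset.univ).image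
    (fun kl : Fin (2 * (4 * n + 1) * (n + 1) + 1) × Fin (2 * (4 * n + 1) * (n + 1) + 1) =>
      ((Real.log (m kl.1) - Real.log (m kl.2)) / ((kl.2 : ℕ) - (kl.1 : ℕ) : ℝ)) / 2), ?_, ?_, ?_⟩
  · refine Finset.card_biUnion_le.trans ?_
    refine (Finset.sum_le_sum fun i _ => hR i).trans ?_
    rw [Finset.sum_const, Finset.card_univ, Fintype.card_fin, smul_eq_mul]
    rfl
  · refine Finset.card_image_le.trans ?_
    rw [Finset.card_product, Finset.card_univ, Fintype.card_fin, sq]
    rfl
  · intro α hα z hz hKz hfg hne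
    set F := MvPolynomial.eval ![z.1, z.2] f with hF
    set G := MvPolynomial.eval ![z.1, z.2] g with hG
    set lam := F * sin α - G * cos α with hlam
    have hcs := sin_sq_add_cos_sq α
    have hF' : F = lam * sin α := by
      rw [hlam]
      linear_combination (-F) * hcs + cos α * hfg
    have hG' : G = lam * (-cos α) := by
      rw [hlam]
      linear_combination (-G) * hcs + sin α * hfg
    have hlam0 : lam ≠ 0 := by
      intro h0
      rw [h0, zero_mul] at hF' hG'
      rcases hne with h | h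
      · exact h hF'
      · exact h hG'
    have hspos : 0 < H709R2.sq (z - p) := H709R2.sq_pos (sub_ne_zero.2 hz)
    have h1 := hc ![z.1, z.2] hKz
    rw [← hF, ← hG, hse, hF', hG'] at h1
    have h2 : ∑ i, form (c i) α * H709R2.sq (z - p) ^ (i : ℕ) = 0 := by
      have h3 : lam ^ (4 * (4 * n + 1) - 1) *
          ∑ i, form (c i) α * H709R2.sq (z - p) ^ (i : ℕ) = 0 := by
        rw [← h1, Finset.mul_sum]
        refine Finset.sum_congr rfl fun i _ => ?_
        rw [← mul_assoc]
        congr 1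
        unfold form
        rw [Finset.mul_sum]
        refine Finset.sum_congr rfl fun j _ => ?_
        rw [mul_pow, mul_pow]
        have h4 : lam ^ (4 * (4 * n + 1) - 1) = lam ^ (j : ℕ) * lam ^ (4 * (4 * n + 1) - 1 - (j:ℕ)) := by
          rw [← pow_add]
          congr 1
          have := j.2
          omega
        rw [h4]
        ring
      exact (mul_eq_zero.1 h3).resolve_left (pow_ne_zero _ hlam0)
    have hR' : ∀ i, ∀ a ∈ R i, δ ≤ ‖ee α - a‖ := fun i a ha =>
      hα a (Finset.mem_biUnion.2 ⟨i, Finset.mem_univ _, ha⟩)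
    obtain ⟨k, l, hkl, hk, hl, h5⟩ := e3 (2 * (4 * n + 1) * (n + 1)) (fun i => form (c i) α) m κ
      (H709R2.sq (z - p)) hκpos hκ1 hm0 (fun i => hm2 i α (hR' i)) (fun i => hm1 i α) (by
        by_contra hcon
        push Not at hcon
        apply hc0
        funext i
        by_contra hi
        exact absurd (hmpos i hi) (not_lt.2 (hcon i))) hspos h2
    refine ⟨_, Finset.mem_image.2 ⟨(k, l), by simp, rfl⟩, ?_⟩
    simp only
    unfold lg L0
    rw [← sub_div, abs_div, abs_of_pos (by norm_num : (0:ℝ) < 2)]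
    apply div_le_div_of_nonneg_right _ (by norm_num)
    refine h5.trans (le_of_eq ?_)
    congr 1
    rw [hκ, div_eq_mul_inv]
    unfold nM
    push_cast
    congr 1
    rw [← inv_pow]
    congr 1
    rw [inv_div]

end

end Pool.Agent.H709U
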