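import Pool.Agent.H709U.Defs

/-! Consequences of the main theorem on whole intervals of angles. -/

open Real Set MeasureTheory Topology Filter
open scoped ENNReal

namespace Pool.Agent.H709U

noncomputable section

open Pool.Agent.H709R2 (rot wedge field ClosedOrbit)

/-- components of the field rotated by `θ` -/
def rP (P Q : MvPolynomial (Fin 2) ℝ) (θ : ℝ) : MvPolynomial (Fin 2) ℝ :=
  MvPolynomial.C (cos θ) * P - MvPolynomial.C (sin θ) * Q

/-- components of the field rotated by `θ` -/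
def rQ (P Q : MvPolynomial (Fin 2) ℝ) (θ : ℝ) : MvPolynomial (Fin 2) ℝ :=
  MvPolynomial.C (sin θ) * P + MvPolynomial.C (cos θ) * Q

lemma field_rPQ (P Q : MvPolynomial (Fin 2) ℝ) (θ : ℝ) (z : ℝ × ℝ) :
    field (rP P Q θ) (rQ P Q θ) z = rot θ (field P Q z) := by
  unfold field rP rQ rot
  simp

lemma Cl_rPQ (P Q : MvPolynomial (Fin 2) ℝ) (θ α : ℝ) :
    Cl (rP P Q θ) (rQ P Q θ) α = Cl P Q (θ + α) := by
  have h : rf (field (rP P Q θ) (rQ P Q θ)) α = rf (field P Q) (θ + α) := by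
    funext z
    unfold rf
    rw [field_rPQ]
    unfold rot
    ext
    · simp only [cos_add, sin_add]; ring
    · simp only [cos_add, sin_add]; ring
  unfold Cl
  rw [h]

lemma degree_rP {n : ℕ} {P Q : MvPolynomial (Fin 2) ℝ} (hP : P.totalDegree ≤ n)
    (hQ : Q.totalDegree ≤ n) (θ : ℝ) : (rP P Q θ).totalDegree ≤ n := by
  unfold rP
  refine (MvPolynomial.totalDegree_sub _ _).trans (max_le ?_ ?_)
  · exact (MvPolynomial.totalDegree_mul _ _).trans (by rw [MvPolynomial.totalDegree_C]; omega)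
  · exact (MvPolynomial.totalDegree_mul _ _).trans (by rw [MvPolynomial.totalDegree_C]; omega)

lemma degree_rQ {n : ℕ} {P Q : MvPolynomial (Fin 2) ℝ} (hP : P.totalDegree ≤ n)
    (hQ : Q.totalDegree ≤ n) (θ : ℝ) : (rQ P Q θ).totalDegree ≤ n := by
  unfold rQ
  refine (MvPolynomial.totalDegree_add _ _).trans (max_le ?_ ?_)
  · exact (MvPolynomial.totalDegree_mul _ _).trans (by rw [MvPolynomial.totalDegree_C]; omega)
  · exact (MvPolynomial.totalDegree_mul _ _).trans (by rw [MvPolynomial.totalDegree_C]; omega)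

lemma ne_rPQ {P Q : MvPolynomial (Fin 2) ℝ} (h : P ≠ 0 ∨ Q ≠ 0) (θ : ℝ) :
    rP P Q θ ≠ 0 ∨ rQ P Q θ ≠ 0 := by
  by_contra hcon
  rw [not_or, not_not, not_not] at hcon
  have h1 : (MvPolynomial.C (cos θ) * MvPolynomial.C (cos θ) +
      MvPolynomial.C (sin θ) * MvPolynomial.C (sin θ) : MvPolynomial (Fin 2) ℝ) = 1 := by
    rw [← MvPolynomial.C_mul, ← MvPolynomial.C_mul, ← MvPolynomial.C_add]
    have := sin_sq_add_cos_sq θ
    rw [show cos θ * cos θ + sin θ * sin θ = 1 by linarith]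
    exact MvPolynomial.C_1
  have h2 : P = 0 := by
    have h3 : MvPolynomial.C (cos θ) * rP P Q θ + MvPolynomial.C (sin θ) * rQ P Q θ = P := by
      unfold rP rQ
      linear_combination P * h1
    rw [← h3, hcon.1, hcon.2]
    simp
  have h4 : Q = 0 := by
    have h3 : MvPolynomial.C (cos θ) * rQ P Q θ - MvPolynomial.C (sin θ) * rP P Q θ = Q := by
      unfold rP rQ
      linear_combination Q * h1
    rw [← h3, hcon.1, hcon.2]
    simp
  rcases h with h | h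
  · exact h h2
  · exact h h4

variable {n : ℕ} {P Q : MvPolynomial (Fin 2) ℝ}

/-- the bound on every interval of angles of length `π` -/
lemma meas_pi (hz : S_Z) (hP : P.totalDegree ≤ n) (hQ : Q.totalDegree ≤ n) (hne : P ≠ 0 ∨ Q ≠ 0)
    {ε : ℝ} (hε : 0 < ε) (hε1 : ε ≤ 1) (θ : ℝ) :
    volume {α | α ∈ Ioo θ (θ + π) ∧ ENNReal.ofReal (10 ^ 11 * (n + 1) ^ 13 / ε ^ 3) <
      ((Cl P Q α).encard : ℝ≥0∞)} ≤ ENNReal.ofReal ε := by
  have h1 := hz n _ _ (degree_rP hP hQ θ) (degree_rQ hP hQ θ) (ne_rPQ hne θ) ε hε hε1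
  have h2 : {α | α ∈ Ioo 0 π ∧ ENNReal.ofReal (10 ^ 11 * (n + 1) ^ 13 / ε ^ 3) <
      ((Cl (rP P Q θ) (rQ P Q θ) α).encard : ℝ≥0∞)} = (fun α => θ + α) ⁻¹'
      {α | α ∈ Ioo θ (θ + π) ∧ ENNReal.ofReal (10 ^ 11 * (n + 1) ^ 13 / ε ^ 3) <
      ((Cl P Q α).encard : ℝ≥0∞)} := by
    ext α
    simp only [mem_ofPred_eq, mem_preimage, Cl_rPQ, mem_Ioo]
    constructor
    · rintro ⟨⟨h3, h4⟩, h5⟩
      exact ⟨⟨by linarith, by linarith⟩, h5⟩
    · rintro ⟨⟨h3, h4⟩, h5⟩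
      exact ⟨⟨by linarith, by linarith⟩, h5⟩
  rw [h2, measure_preimage_add] at h1
  exact h1

/-- the bound on the whole circle -/
lemma meas_two_pi (hz : S_Z) (hP : P.totalDegree ≤ n) (hQ : Q.totalDegree ≤ n)
    (hne : P ≠ 0 ∨ Q ≠ 0) {ε : ℝ} (hε : 0 < ε) (hε1 : ε ≤ 1) :
    volume {α | α ∈ Ioo 0 (2 * π) ∧ ENNReal.ofReal (10 ^ 12 * (n + 1) ^ 13 / ε ^ 3) <
      ((Cl P Q α).encard : ℝ≥0∞)} ≤ ENNReal.ofReal ε := by
  have h0 : (10:ℝ) ^ 11 * (n + 1) ^ 13 / (ε / 2) ^ 3 ≤ 10 ^ 12 * (n + 1) ^ 13 / ε ^ 3 := by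
    have : (10:ℝ) ^ 11 * (n + 1) ^ 13 / (ε / 2) ^ 3 = 8 * 10 ^ 11 * (n + 1) ^ 13 / ε ^ 3 := by
      field_simp
      ring
    rw [this]
    gcongr
    norm_num
  have h1 := meas_pi hz hP hQ hne (show 0 < ε / 2 by positivity) (by linarith) 0
  have h2 := meas_pi hz hP hQ hne (show 0 < ε / 2 by positivity) (by linarith) π
  have hsub : {α | α ∈ Ioo 0 (2 * π) ∧ ENNReal.ofReal (10 ^ 12 * (n + 1) ^ 13 / ε ^ 3) <
      ((Cl P Q α).encard : ℝ≥0∞)} ⊆
      {α | α ∈ Ioo 0 (0 + π) ∧ ENNReal.ofReal (10 ^ 11 * (n + 1) ^ 13 / (ε / 2) ^ 3) <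
        ((Cl P Q α).encard : ℝ≥0∞)} ∪
      {α | α ∈ Ioo π (π + π) ∧ ENNReal.ofReal (10 ^ 11 * (n + 1) ^ 13 / (ε / 2) ^ 3) <
        ((Cl P Q α).encard : ℝ≥0∞)} ∪ {π} := by
    rintro α ⟨⟨h3, h4⟩, h5⟩
    have h6 := lt_of_le_of_lt (ENNReal.ofReal_le_ofReal h0) h5
    rcases lt_trichotomy α π with h7 | h7 | h7
    · exact Or.inl (Or.inl ⟨⟨h3, by linarith⟩, h6⟩)
    · exact Or.inr h7
    · exact Or.inl (Or.inr ⟨⟨h7, by linarith⟩, h6⟩)
  refine (measure_mono hsub).trans ((measure_union_le _ _).trans ?_)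
  rw [Real.volume_singleton, add_zero]
  refine (measure_union_le _ _).trans ((add_le_add h1 h2).trans ?_)
  rw [← ENNReal.ofReal_add (by positivity) (by positivity)]
  apply ENNReal.ofReal_le_ofReal
  linarith

/-- every interval of angles contains good angles -/
lemma exists_angle_near (hz : S_Z) (hP : P.totalDegree ≤ n) (hQ : Q.totalDegree ≤ n)
    (hne : P ≠ 0 ∨ Q ≠ 0) {ε : ℝ} (hε : 0 < ε) (hε1 : ε ≤ 1) (θ : ℝ) :
    ∃ α, α ∈ Ioo θ (θ + ε) ∧
      ((Cl P Q α).encard : ℝ≥0∞) ≤ ENNReal.ofReal (10 ^ 12 * (n + 1) ^ 13 / ε ^ 3) := by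
  by_contra hcon
  push Not at hcon
  have h0 : (10:ℝ) ^ 11 * (n + 1) ^ 13 / (ε / 2) ^ 3 ≤ 10 ^ 12 * (n + 1) ^ 13 / ε ^ 3 := by
    have : (10:ℝ) ^ 11 * (n + 1) ^ 13 / (ε / 2) ^ 3 = 8 * 10 ^ 11 * (n + 1) ^ 13 / ε ^ 3 := by
      field_simp
      ring
    rw [this]
    gcongr
    norm_num
  have h1 := meas_pi hz hP hQ hne (show 0 < ε / 2 by positivity) (by linarith) θ
  have h2 : volume (Ioo θ (θ + ε)) ≤ ENNReal.ofReal (ε / 2) := by
    refine le_trans (measure_mono ?_) h1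
    intro α hα
    refine ⟨⟨hα.1, ?_⟩, lt_of_le_of_lt (ENNReal.ofReal_le_ofReal h0) (hcon α hα)⟩
    have := Real.pi_gt_three
    linarith [hα.2]
  rw [Real.volume_Ioo, ENNReal.ofReal_le_ofReal_iff (by positivity)] at h2
  linarith

/-- almost every rotated field has finitely many closed orbits -/
lemma ae_finite (hz : S_Z) (hP : P.totalDegree ≤ n) (hQ : Q.totalDegree ≤ n)
    (hne : P ≠ 0 ∨ Q ≠ 0) : ∀ᵐ α : ℝ, (Cl P Q α).Finite := by
  have h1 : ∀ k : ℤ, volume {α | α ∈ Ioo ((k:ℝ) * 2) ((k:ℝ) * 2 + π) ∧ ¬ (Cl P Q α).Finite} = 0 := by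
    intro k
    apply nonpos_iff_eq_zero.1
    apply le_of_forall_pos_le_add
    intro e he
    rw [zero_add]
    rcases eq_or_ne e ⊤ with h | h
    · rw [h]; exact le_top
    set ε : ℝ := min e.toReal 1 with hε
    have he' : 0 < e.toReal := ENNReal.toReal_pos he.ne' h
    have h2 := meas_pi hz hP hQ hne (show 0 < ε from lt_min he' one_pos) (min_le_right _ _)
      ((k:ℝ) * 2)
    refine le_trans (measure_mono ?_) (h2.trans ?_)
    · rintro α ⟨h3, h4⟩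
      refine ⟨h3, ?_⟩
      have h5 : (Cl P Q α).encard = ⊤ := Set.Infinite.encard_eq h4
      rw [h5]
      simp
    · refine (ENNReal.ofReal_le_ofReal (min_le_left _ _)).trans ?_
      rw [ENNReal.ofReal_toReal h]
  have h2 : {α : ℝ | ¬ (Cl P Q α).Finite} ⊆
      ⋃ k : ℤ, {α | α ∈ Ioo ((k:ℝ) * 2) ((k:ℝ) * 2 + π) ∧ ¬ (Cl P Q α).Finite} := by
    intro α hα
    simp only [mem_iUnion]
    refine ⟨⌈α / 2⌉ - 1, ⟨?_, ?_⟩, hα⟩
    · have := Int.ceil_lt_add_one (α / 2)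
      push_cast
      linarith
    · have := Int.le_ceil (α / 2)
      push_cast
      linarith [Real.pi_gt_three]
  exact measure_mono_null h2 (measure_iUnion_null h1)

end

end Pool.Agent.H709U
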