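import Pool.Agent.H709U.Defs

/-! Task G1 (helper409): the divergence of the field divided by its angular component. -/

open Real Set MeasureTheory Topology Filter
open scoped ENNReal

namespace Pool.Agent.H709U

noncomputable section

open Pool.Agent.H709R2 (rot wedge field ClosedOrbit divW winv)

theorem g1_wedge_rot (α : ℝ) (a b : ℝ × ℝ) : wedge (rot α a) (rot α b) = wedge a b := by
  unfold wedge rot
  simp only
  linear_combination (a.1 * b.2 - a.2 * b.1) * Real.sin_sq_add_cos_sq α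

theorem g1_pyth (α : ℝ) (v a : ℝ × ℝ) :
    wedge v (rot α a) ^ 2 + dot v (rot α a) ^ 2 = H709R2.sq a * H709R2.sq v := by
  unfold wedge dot rot H709R2.sq
  simp only
  linear_combination (v.1 ^ 2 + v.2 ^ 2) * (a.1 ^ 2 + a.2 ^ 2) * Real.sin_sq_add_cos_sq α

theorem g1_V_eq (X : ℝ × ℝ → ℝ × ℝ) (p : ℝ × ℝ) (α : ℝ) (z : ℝ × ℝ) : V X p α z =
    (z.1 - p.1) * (Real.sin α * (X z).1 + Real.cos α * (X z).2) -
      (z.2 - p.2) * (Real.cos α * (X z).1 - Real.sin α * (X z).2) := by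
  unfold V wedge rot
  simp only [Prod.fst_sub, Prod.snd_sub]

theorem g1_hasFDeriv {X : ℝ × ℝ → ℝ × ℝ} {z : ℝ × ℝ} (hX : DifferentiableAt ℝ X z)
    (p : ℝ × ℝ) (α : ℝ) (u : ℝ × ℝ) :
    DifferentiableAt ℝ (V X p α) z ∧
    fderiv ℝ (V X p α) z u = wedge u (rot α (X z)) + wedge (z - p) (rot α (fderiv ℝ X z u)) := by
  have hV : V X p α = fun z => (z.1 - p.1) * (Real.sin α * (X z).1 + Real.cos α * (X z).2) -
      (z.2 - p.2) * (Real.cos α * (X z).1 - Real.sin α * (X z).2) := by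
    funext z; exact g1_V_eq X p α z
  have h1 : HasFDerivAt (fun z => (X z).1)
      ((ContinuousLinearMap.fst ℝ ℝ ℝ).comp (fderiv ℝ X z)) z := hX.hasFDerivAt.fst
  have h2 : HasFDerivAt (fun z => (X z).2)
      ((ContinuousLinearMap.snd ℝ ℝ ℝ).comp (fderiv ℝ X z)) z := hX.hasFDerivAt.snd
  have a1 : HasFDerivAt (fun z : ℝ × ℝ => z.1 - p.1) (ContinuousLinearMap.fst ℝ ℝ ℝ) z :=
    (hasFDerivAt_fst).sub_const p.1
  have a2 : HasFDerivAt (fun z : ℝ × ℝ => z.2 - p.2) (ContinuousLinearMap.snd ℝ ℝ ℝ) z :=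
    (hasFDerivAt_snd).sub_const p.2
  have h := (a1.mul ((h1.const_mul (Real.sin α)).add (h2.const_mul (Real.cos α)))).sub
    (a2.mul ((h1.const_mul (Real.cos α)).sub (h2.const_mul (Real.sin α))))
  have hd := h.differentiableAt
  have e := h.fderiv
  change DifferentiableAt ℝ (fun z : ℝ × ℝ => (z.1 - p.1) * (Real.sin α * (X z).1 +
    Real.cos α * (X z).2) - (z.2 - p.2) * (Real.cos α * (X z).1 - Real.sin α * (X z).2)) z at hd
  change fderiv ℝ (fun z : ℝ × ℝ => (z.1 - p.1) * (Real.sin α * (X z).1 +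
    Real.cos α * (X z).2) - (z.2 - p.2) * (Real.cos α * (X z).1 - Real.sin α * (X z).2)) z = _ at e
  rw [← hV] at hd e
  refine ⟨hd, ?_⟩
  rw [e]
  unfold wedge rot
  simp
  ring

theorem g1 : S_G1 := by
  intro X hX p z α x hx hlt
  have hV0 : V X p α z ≠ 0 := by
    intro h0
    rw [h0] at hlt
    have : 0 ≤ x ^ 2 * W X p α z ^ 2 := by positivity
    simp at hlt
    linarith
  have hVc : ContDiff ℝ 2 (V X p α) := by
    have hV : V X p α = fun z => (z.1 - p.1) * (Real.sin α * (X z).1 + Real.cos α * (X z).2) -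
        (z.2 - p.2) * (Real.cos α * (X z).1 - Real.sin α * (X z).2) := by
      funext z; exact g1_V_eq X p α z
    rw [hV]
    have h1 : ContDiff ℝ 2 (fun z => (X z).1) := hX.fst
    have h2 : ContDiff ℝ 2 (fun z => (X z).2) := hX.snd
    fun_prop
  -- the sign
  obtain ⟨σ, hσ, hev⟩ : ∃ σ : ℝ, |σ| = 1 ∧
      (fun z => |V X p α z|⁻¹) =ᶠ[𝓝 z] fun z => σ * (V X p α z)⁻¹ := by
    rcases lt_or_gt_of_ne hV0 with h | h
    · refine ⟨-1, by simp, ?_⟩
      filter_upwards [hVc.continuous.continuousAt.eventually (gt_mem_nhds h)] with y hy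
      rw [abs_of_neg hy, neg_one_mul, inv_neg]
    · refine ⟨1, by simp, ?_⟩
      filter_upwards [hVc.continuous.continuousAt.eventually (lt_mem_nhds h)] with y hy
      rw [abs_of_pos hy, one_mul]
  have hVi : ContDiffAt ℝ 1 (fun z => σ * (V X p α z)⁻¹) z :=
    contDiffAt_const.mul ((hVc.contDiffAt.of_le (by norm_num)).inv hV0)
  refine ⟨hVi.congr_of_eventuallyEq hev, ?_⟩
  have hXd : DifferentiableAt ℝ X z := (hX.differentiable (by norm_num)) z
  obtain ⟨hd, hfd⟩ := g1_hasFDeriv hXd p α (rot α (X z))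
  have hA : fderiv ℝ (fun z => |V X p α z|⁻¹) z (rot α (X z)) =
      σ * (-(fderiv ℝ (V X p α) z (rot α (X z))) / V X p α z ^ 2) := by
    rw [hev.fderiv_eq]
    have h3 : HasFDerivAt (fun z => σ * (V X p α z)⁻¹)
        (σ • (-(V X p α z ^ 2)⁻¹ • fderiv ℝ (V X p α) z)) z := by
      have := ((hasDerivAt_inv hV0).comp_hasFDerivAt z hd.hasFDerivAt).const_mul σ
      exact this
    rw [h3.fderiv]
    simp only [ContinuousLinearMap.smul_apply, smul_eq_mul]
    rw [div_eq_mul_inv]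
    ring
  have htr := Pool.Agent.H709R2.trace_identity X α z (z - p) (rot α (X z))
  have hw1 : wedge (rot α (fderiv ℝ X z (z - p))) (rot α (X z)) = - A0 X p z := by
    rw [g1_wedge_rot]
    unfold A0 wedge
    ring
  have hself : wedge (rot α (X z)) (rot α (X z)) = 0 := by unfold wedge; ring
  have hdiv : divW (fun z => |V X p α z|⁻¹) X α z = σ * (-A0 X p z / V X p α z ^ 2) := by
    unfold divW
    rw [hA, hfd, hself]
    have h5 : |V X p α z|⁻¹ = σ * (V X p α z)⁻¹ := hev.self_of_nhds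
    beta_reduce
    rw [h5]
    have h6 : wedge (z - p) (rot α (X z)) = V X p α z := rfl
    rw [hw1, h6] at htr
    field_simp
    linear_combination (-σ) * htr
  have hpy : V X p α z ^ 2 + W X p α z ^ 2 = H709R2.sq (X z) * H709R2.sq (z - p) :=
    g1_pyth α (z - p) (X z)
  have hV2 : 0 < V X p α z ^ 2 := by positivity
  rw [hdiv, abs_mul, hσ, one_mul, abs_div, abs_neg, abs_of_pos hV2]
  unfold kern
  rw [← hpy, ← mul_div_assoc, div_le_div_iff₀ hV2 (by positivity)]
  have hx2 : 0 < x ^ 2 := by positivity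
  have h7 : W X p α z ^ 2 ≤ V X p α z ^ 2 * (1 / x ^ 2) := by
    rw [mul_one_div, le_div_iff₀ hx2]
    nlinarith
  have h8 : V X p α z ^ 2 + W X p α z ^ 2 ≤ (1 + 1 / x ^ 2) * V X p α z ^ 2 := by nlinarith
  calc |A0 X p z| * (V X p α z ^ 2 + W X p α z ^ 2)
      ≤ |A0 X p z| * ((1 + 1 / x ^ 2) * V X p α z ^ 2) :=
        mul_le_mul_of_nonneg_left h8 (abs_nonneg _)
    _ = _ := by ring

end

end Pool.Agent.H709U
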