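import Pool.Agent.H709U.Defs

open Real Set MeasureTheory Topology Filter
open scoped ENNReal

namespace Pool.Agent.H709U

open Pool.Agent.H709R2 (rot wedge field ClosedOrbit divW winv)
open Pool.Agent.H709Q (Maj)

theorem G2_meas {X : ℝ × ℝ → ℝ × ℝ} (hF : ContDiff ℝ 2 X) (p : ℝ × ℝ) :
    Measurable (fun z => ENNReal.ofReal (kern X p z)) := by
  have hc := hF.continuous
  have hD : Continuous (fderiv ℝ X) := hF.continuous_fderiv (by norm_num)
  have h1 : Continuous fun z => A0 X p z := by
    unfold A0 wedge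
    have : Continuous fun z => fderiv ℝ X z (z - p) := hD.clm_apply (by fun_prop)
    fun_prop
  have h2 : Continuous fun z => H709R2.sq (X z) * H709R2.sq (z - p) := by
    unfold H709R2.sq; fun_prop
  exact (h1.abs.measurable.div h2.measurable).ennreal_ofReal

theorem G2_meas' {X : ℝ × ℝ → ℝ × ℝ} (hF : ContDiff ℝ 2 X) {e : ℝ → ℝ × ℝ} (hec : Continuous e)
    (p : ℝ × ℝ) : Measurable (fun q : ℝ × ℝ => ENNReal.ofReal
    (|wedge (X (p + q.1 • e q.2)) (fderiv ℝ X (p + q.1 • e q.2) (e q.2))| /
      H709R2.sq (X (p + q.1 • e q.2)))) := by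
  have hc := hF.continuous
  have hD : Continuous (fderiv ℝ X) := hF.continuous_fderiv (by norm_num)
  have hpc : Continuous fun q : ℝ × ℝ => p + q.1 • e q.2 := by fun_prop
  have h0 : Continuous fun q : ℝ × ℝ => fderiv ℝ X (p + q.1 • e q.2) (e q.2) :=
    (hD.comp hpc).clm_apply (hec.comp continuous_snd)
  have h1 : Continuous fun q : ℝ × ℝ => wedge (X (p + q.1 • e q.2))
      (fderiv ℝ X (p + q.1 • e q.2) (e q.2)) := by
    unfold wedge
    fun_prop
  have h2 : Continuous fun q : ℝ × ℝ => H709R2.sq (X (p + q.1 • e q.2)) := by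
    unfold H709R2.sq
    fun_prop
  exact (h1.abs.measurable.div h2.measurable).ennreal_ofReal

theorem g2 : S_G2 := by
  intro n P Q hP hQ p
  have hF : ContDiff ℝ 2 (field P Q) := H709R2.contDiff_field P Q
  refine ⟨G2_meas hF p, ?_⟩
  set e : ℝ → ℝ × ℝ := fun θ => (cos θ, sin θ) with he
  set G : ℝ × ℝ → ℝ≥0∞ := fun q => ENNReal.ofReal
    (|wedge (field P Q (p + q.1 • e q.2)) (fderiv ℝ (field P Q) (p + q.1 • e q.2) (e q.2))| /
      H709R2.sq (field P Q (p + q.1 • e q.2))) with hG
  have hec : Continuous e := by rw [he]; fun_prop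
  have hGm : Measurable G := G2_meas' hF hec p
  have hpt : ∀ q ∈ polarCoord.target, ENNReal.ofReal q.1 •
      ENNReal.ofReal (kern (field P Q) p (p + polarCoord.symm q)) = G q := by
    intro q hq
    have hq1 : 0 < q.1 := hq.1
    have hs : polarCoord.symm q = q.1 • e q.2 := by
      rw [polarCoord_symm_apply]; rfl
    rw [hs, smul_eq_mul, ← ENNReal.ofReal_mul hq1.le, hG]
    congr 1
    unfold kern A0
    have h1 : p + q.1 • e q.2 - p = q.1 • e q.2 := by abel
    have h2 : H709R2.sq (q.1 • e q.2) = q.1 ^ 2 := by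
      have := sin_sq_add_cos_sq q.2
      simp only [H709R2.sq, he, Prod.smul_fst, Prod.smul_snd, smul_eq_mul]
      linear_combination q.1 ^ 2 * this
    have h3 : ∀ a b : ℝ × ℝ, wedge a (q.1 • b) = q.1 * wedge a b := by
      intro a b; simp only [wedge, Prod.smul_fst, Prod.smul_snd, smul_eq_mul]; ring
    rw [h1, map_smul, h3, h2, abs_mul, abs_of_pos hq1]
    rcases eq_or_ne (H709R2.sq (field P Q (p + q.1 • e q.2))) 0 with h | h
    · rw [h]; simp
    · field_simp
  have hline : ∀ θ : ℝ, ∫⁻ r in Ioi (0 : ℝ), G (r, θ) ≤ ENNReal.ofReal (n * π) := by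
    intro θ
    refine (setLIntegral_le_lintegral _ _).trans ?_
    exact H709R2.lintegral_line hP hQ p (e θ)
  calc ∫⁻ z, ENNReal.ofReal (kern (field P Q) p z)
      = ∫⁻ y, ENNReal.ofReal (kern (field P Q) p (p + y)) :=
        (lintegral_add_left_eq_self (fun z => ENNReal.ofReal (kern (field P Q) p z)) p).symm
    _ = ∫⁻ q in polarCoord.target, ENNReal.ofReal q.1 •
          ENNReal.ofReal (kern (field P Q) p (p + polarCoord.symm q)) :=
        (lintegral_comp_polarCoord_symm
          (fun y => ENNReal.ofReal (kern (field P Q) p (p + y)))).symm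
    _ = ∫⁻ q in polarCoord.target, G q :=
        setLIntegral_congr_fun polarCoord.open_target.measurableSet hpt
    _ = ∫⁻ q, G q ∂((volume.restrict (Ioi (0 : ℝ))).prod (volume.restrict (Ioo (-π) π))) := by
        rw [polarCoord_target, Measure.volume_eq_prod, ← Measure.prod_restrict]
    _ = ∫⁻ θ in Ioo (-π) π, ∫⁻ r in Ioi (0 : ℝ), G (r, θ) :=
        lintegral_prod_symm _ hGm.aemeasurable
    _ ≤ ∫⁻ θ in Ioo (-π) π, ENNReal.ofReal (n * π) := lintegral_mono hline
    _ = ENNReal.ofReal (n * π) * ENNReal.ofReal (2 * π) := by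
        rw [lintegral_const, Measure.restrict_apply_univ, Real.volume_Ioo]
        congr 2; ring
    _ = ENNReal.ofReal (2 * π ^ 2 * n) := by
        rw [← ENNReal.ofReal_mul (by positivity)]
        congr 1; ring

end Pool.Agent.H709U
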