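import Pool.Agent.H709U.Defs

namespace Pool.Agent.H709U

open Real Set MeasureTheory intervalIntegral
open Pool.Agent.H709R2 (rot wedge)

namespace G3

/-- the key: a nonvanishing angular speed along a closed curve gives at least one turn -/
theorem turn {γ y : ℝ → ℂ} {T : ℝ} (hT : 0 < T) (hd : ∀ t, HasDerivAt γ (y t) t)
    (hy : Continuous y) (hper : γ T = γ 0) (hne : ∀ t, γ t ≠ 0) :
    ∃ k : ℤ, ∫ t in (0:ℝ)..T, (y t / γ t).im = 2 * π * k := by
  have hc : Continuous γ := continuous_iff_continuousAt.mpr fun t => (hd t).continuousAt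
  have hf : Continuous fun t => y t / γ t := hy.div hc hne
  set F : ℝ → ℂ := fun t => ∫ s in (0:ℝ)..t, y s / γ s with hF
  have hFd : ∀ t, HasDerivAt F (y t / γ t) t := fun t =>
    (hf.integral_hasStrictDerivAt 0 t).hasDerivAt
  have hg : ∀ t, HasDerivAt (fun t => γ t * Complex.exp (-F t)) 0 t := by
    intro t
    have h := (hd t).mul (((hFd t).neg).cexp)
    refine h.congr_deriv ?_
    have := hne t
    field_simp
    ring
  have hconst : γ T * Complex.exp (-F T) = γ 0 * Complex.exp (-F 0) :=
    is_const_of_deriv_eq_zero (fun t => (hg t).differentiableAt) (fun t => (hg t).deriv) T 0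
  have hF0 : F 0 = 0 := by simp [hF]
  rw [hF0, hper, neg_zero, Complex.exp_zero, mul_one] at hconst
  have h1 : Complex.exp (-F T) = 1 := by
    have := hne 0
    exact mul_left_cancel₀ this (by rw [hconst, mul_one])
  obtain ⟨n, hn⟩ := Complex.exp_eq_one_iff.mp h1
  refine ⟨-n, ?_⟩
  have h2 : ∫ t in (0:ℝ)..T, (y t / γ t).im = (F T).im := by
    have := Complex.imCLM.intervalIntegral_comp_comm (hf.intervalIntegrable (μ := volume) 0 T)
    simpa [hF] using this
  rw [h2]
  have h3 : F T = -((n : ℂ) * (2 * π * Complex.I)) := by rw [← hn]; ring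
  rw [h3]
  simp
  ring

end G3

theorem g3 : S_G3 := by
  intro X hX p α γ T hO hV
  have hγc : Continuous γ := continuous_iff_continuousAt.mpr fun t => (hO.ode t).continuousAt
  have hrot : Continuous fun t => rot α (X (γ t)) := by
    unfold rot
    have := hX.comp hγc
    fun_prop
  have hVc : Continuous fun t => V X p α (γ t) := by
    unfold V wedge
    fun_prop
  -- the curve in the complex plane
  set c : ℝ → ℂ := fun t => ⟨(γ t).1 - p.1, (γ t).2 - p.2⟩ with hc
  set y : ℝ → ℂ := fun t => ⟨(rot α (X (γ t))).1, (rot α (X (γ t))).2⟩ with hy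
  have hcd : ∀ t, HasDerivAt c (y t) t := by
    intro t
    have h := hO.ode t
    have h1 : HasDerivAt (fun t => (γ t).1 - p.1) (rot α (X (γ t))).1 t :=
      (h.fst).sub_const _
    have h2 : HasDerivAt (fun t => (γ t).2 - p.2) (rot α (X (γ t))).2 t :=
      (h.snd).sub_const _
    have h3 := (h1.ofReal_comp).add ((h2.ofReal_comp).mul_const Complex.I)
    have e1 : c = fun t => (((γ t).1 - p.1 : ℝ) : ℂ) + (((γ t).2 - p.2 : ℝ) : ℂ) * Complex.I := by
      funext t
      apply Complex.ext <;> simp [hc]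
    rw [e1]
    refine h3.congr_deriv ?_
    apply Complex.ext <;> simp [hy]
  have hyc : Continuous y := by
    have e1 : y = fun t => (((rot α (X (γ t))).1 : ℝ) : ℂ)
        + (((rot α (X (γ t))).2 : ℝ) : ℂ) * Complex.I := by
      funext t
      apply Complex.ext <;> simp [hy]
    rw [e1]
    fun_prop
  have hsq : ∀ t, 0 < H709R2.sq (γ t - p) := by
    intro t
    have h1 := hV t
    unfold H709R2.sq
    by_contra hcon
    apply h1
    have h2 : (γ t - p).1 = 0 := by nlinarith [sq_nonneg (γ t - p).1, sq_nonneg (γ t - p).2]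
    have h3 : (γ t - p).2 = 0 := by nlinarith [sq_nonneg (γ t - p).1, sq_nonneg (γ t - p).2]
    unfold V wedge
    rw [h2, h3]; ring
  have hcne : ∀ t, c t ≠ 0 := by
    intro t h
    have h1 := hsq t
    have h2 := congrArg Complex.re h
    have h3 := congrArg Complex.im h
    simp only [hc, Complex.zero_re, Complex.zero_im] at h2 h3
    unfold H709R2.sq at h1
    simp only [Prod.fst_sub, Prod.snd_sub] at h1
    rw [h2, h3] at h1
    norm_num at h1
  have him : ∀ t, (y t / c t).im = V X p α (γ t) / H709R2.sq (γ t - p) := by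
    intro t
    rw [Complex.div_im]
    have hn : Complex.normSq (c t) = H709R2.sq (γ t - p) := by
      unfold H709R2.sq
      simp only [hc, Complex.normSq_mk, Prod.fst_sub, Prod.snd_sub]
      ring
    rw [hn, ← sub_div]
    congr 1
    simp only [hy, hc, V, wedge, Prod.fst_sub, Prod.snd_sub]
    ring
  have hper : c T = c 0 := by
    have := hO.per 0
    rw [zero_add] at this
    simp only [hc]
    rw [this]
  obtain ⟨k, hk⟩ := G3.turn hO.pos hcd hyc hper hcne
  simp only [him] at hk
  have hVs : Continuous fun t => V X p α (γ t) / H709R2.sq (γ t - p) := by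
    refine hVc.div ?_ fun t => (hsq t).ne'
    unfold H709R2.sq
    fun_prop
  have hAs : Continuous fun t => |V X p α (γ t)| / H709R2.sq (γ t - p) := by
    refine hVc.abs.div ?_ fun t => (hsq t).ne'
    unfold H709R2.sq
    fun_prop
  have hpos : 0 < ∫ t in (0:ℝ)..T, |V X p α (γ t)| / H709R2.sq (γ t - p) := by
    refine intervalIntegral.intervalIntegral_pos_of_pos (hAs.intervalIntegrable _ _) ?_ hO.pos
    intro t
    exact div_pos (abs_pos.mpr (hV t)) (hsq t)
  have hsign : (∀ t, 0 < V X p α (γ t)) ∨ (∀ t, V X p α (γ t) < 0) := by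
    rcases lt_or_gt_of_ne (hV 0) with h0 | h0
    · right
      intro t
      by_contra hcon
      obtain ⟨s, hs⟩ := mem_range_of_exists_le_of_exists_ge hVc ⟨0, h0.le⟩ ⟨t, not_lt.mp hcon⟩
      exact hV s hs
    · left
      intro t
      by_contra hcon
      obtain ⟨s, hs⟩ := mem_range_of_exists_le_of_exists_ge hVc ⟨t, not_lt.mp hcon⟩ ⟨0, h0.le⟩
      exact hV s hs
  have hint : 2 * π ≤ ∫ t in (0:ℝ)..T, |V X p α (γ t)| / H709R2.sq (γ t - p) := by
    have hk2 : ∃ j : ℤ, ∫ t in (0:ℝ)..T, |V X p α (γ t)| / H709R2.sq (γ t - p) = 2 * π * j := by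
      rcases hsign with h | h
      · refine ⟨k, ?_⟩
        rw [← hk]
        simp only [abs_of_pos (h _)]
      · refine ⟨-k, ?_⟩
        have : ∀ t, |V X p α (γ t)| / H709R2.sq (γ t - p)
            = -(V X p α (γ t) / H709R2.sq (γ t - p)) := by
          intro t
          rw [abs_of_neg (h t), neg_div]
        simp only [this]
        rw [intervalIntegral.integral_neg, hk]
        push_cast
        ring
    obtain ⟨j, hj⟩ := hk2
    rw [hj] at hpos ⊢
    have h2 : 0 < (j : ℝ) := by
      by_contra hcon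
      have : 2 * π * (j : ℝ) ≤ 0 :=
        mul_nonpos_of_nonneg_of_nonpos (by positivity) (not_lt.mp hcon)
      linarith
    have h3 : (1 : ℝ) ≤ j := by
      have : 0 < j := by exact_mod_cast h2
      exact_mod_cast this
    nlinarith [Real.pi_pos]
  refine hint.trans ?_
  have hRc : Continuous fun t => |V X p α (γ t)|⁻¹ * H709R2.sq (X (γ t)) := by
    refine (hVc.abs.inv₀ fun t => (abs_pos.mpr (hV t)).ne').mul ?_
    unfold H709R2.sq
    have := hX.comp hγc
    fun_prop
  refine intervalIntegral.integral_mono_on hO.pos.le (hAs.intervalIntegrable _ _)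
    (hRc.intervalIntegrable _ _) ?_
  intro t _
  have hVp := abs_pos.mpr (hV t)
  rw [div_le_iff₀ (hsq t), mul_assoc, ← div_eq_inv_mul, le_div_iff₀ hVp]
  have hcs : Real.sin α ^ 2 + Real.cos α ^ 2 = 1 := Real.sin_sq_add_cos_sq α
  have hlag : H709R2.sq (X (γ t)) * H709R2.sq (γ t - p)
      = V X p α (γ t) ^ 2 + W X p α (γ t) ^ 2 := by
    unfold V W H709R2.sq wedge dot rot
    simp only
    linear_combination (-((γ t - p).1 ^ 2 + (γ t - p).2 ^ 2)
      * ((X (γ t)).1 ^ 2 + (X (γ t)).2 ^ 2)) * hcs
  rw [hlag, abs_mul_abs_self]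
  nlinarith [sq_nonneg (W X p α (γ t))]

end Pool.Agent.H709U
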