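import Pool.Agent.H709U.Defs
import Pool.Agent.H709Q.M
import Pool.Agent.H709R2.Indicatrix

/-! G4: all closed orbits that are uniformly star-shaped with respect to `p`. -/

open Real Set MeasureTheory Topology Filter
open scoped ENNReal

namespace Pool.Agent.H709U

open Pool.Agent.H709R2 (rot wedge field ClosedOrbit divW winv)
open Pool.Agent.H709Q (Maj)

lemma g4_bounded {Y : ℝ × ℝ → ℝ × ℝ} {C : Set (ℝ × ℝ)} (hC : ClosedOrbit Y C) :
    ∃ m : ℕ, C ⊆ Metric.closedBall 0 (m : ℝ) := by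
  obtain ⟨γ, T, hT, hγ, hper, _, rfl⟩ := hC
  have hcont : Continuous γ := continuous_iff_continuousAt.2 fun t => (hγ t).continuousAt
  have hpT : Function.Periodic γ T := hper
  have hcomp : IsCompact (range γ) := hpT.compact_of_continuous hT.ne' hcont
  obtain ⟨R, hR⟩ := hcomp.isBounded.exists_norm_le
  obtain ⟨m, hm⟩ := exists_nat_ge R
  refine ⟨m, fun z hz => ?_⟩
  rw [mem_closedBall_zero_iff]
  exact (hR z hz).trans hm

lemma g4_cont {X : ℝ × ℝ → ℝ × ℝ} (hX : Continuous X) (p : ℝ × ℝ) (x : ℝ) :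
    Continuous (fun q : ℝ × (ℝ × ℝ) => V X p q.1 q.2 ^ 2 - x ^ 2 * W X p q.1 q.2 ^ 2) := by
  have h1 : Continuous (fun q : ℝ × (ℝ × ℝ) => X q.2) := hX.comp continuous_snd
  have h2 : Continuous (fun q : ℝ × (ℝ × ℝ) => rot q.1 (X q.2)) := by
    unfold H709R2.rot
    exact (((Real.continuous_cos.comp continuous_fst).mul h1.fst).sub
      ((Real.continuous_sin.comp continuous_fst).mul h1.snd)).prodMk
      (((Real.continuous_sin.comp continuous_fst).mul h1.fst).add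
      ((Real.continuous_cos.comp continuous_fst).mul h1.snd))
  have h3 : Continuous (fun q : ℝ × (ℝ × ℝ) => q.2 - p) := continuous_snd.sub continuous_const
  unfold V W H709R2.wedge dot
  exact (((h3.fst.mul h2.snd).sub (h3.snd.mul h2.fst)).pow 2).sub
    (continuous_const.mul (((h3.fst.mul h2.fst).add (h3.snd.mul h2.snd)).pow 2))

theorem g4 : S_MA → S_G1 → S_G2 → S_G3 → S_G4 := by
  intro hMA hG1 hG2 hG3 n P Q hP hQ p x hx
  obtain ⟨X, hXe⟩ : ∃ X, X = field P Q := ⟨_, rfl⟩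
  have hX : ContDiff ℝ 2 X := by rw [hXe]; exact H709R2.contDiff_field P Q
  obtain ⟨hk1, hk2⟩ := hG2 n P Q hP hQ p
  rw [← hXe] at hk1 hk2
  show Maj (fun α => ({C | ClosedOrbit (rf (field P Q) α) C ∧
    ∀ z ∈ C, x ^ 2 * W (field P Q) p α z ^ 2 < V (field P Q) p α z ^ 2}.encard : ℝ≥0∞)) _
  rw [← hXe]
  have hc0 : 0 ≤ 1 + 1 / x ^ 2 := by positivity
  -- the statement for the orbits in a ball
  have hm : ∀ m : ℕ, Maj (fun α => ({C | ClosedOrbit (rf X α) C ∧ C ⊆ Metric.closedBall 0 (m : ℝ) ∧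
      ∀ z ∈ C, 0 < V X p α z ^ 2 - x ^ 2 * W X p α z ^ 2}.encard : ℝ≥0∞))
      ((1 + 1 / x ^ 2) * (π * n)) := by
    intro m
    have hmeas : Measurable (fun z => ENNReal.ofReal ((1 + 1 / x ^ 2) * kern X p z)) := by
      have : (fun z => ENNReal.ofReal ((1 + 1 / x ^ 2) * kern X p z)) =
          fun z => ENNReal.ofReal (1 + 1 / x ^ 2) * ENNReal.ofReal (kern X p z) := by
        funext z
        rw [ENNReal.ofReal_mul hc0]
      rw [this]
      exact hk1.const_mul _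
    obtain ⟨g, hg1, hg2, hg3⟩ := hMA X hX (fun α z => |V X p α z|⁻¹)
      (fun q => V X p q.1 q.2 ^ 2 - x ^ 2 * W X p q.1 q.2 ^ 2) (g4_cont hX.continuous p x)
      (Metric.closedBall 0 (m : ℝ)) (isCompact_closedBall _ _)
      (fun z => ENNReal.ofReal ((1 + 1 / x ^ 2) * kern X p z)) hmeas (2 * π) (by positivity)
      (by
        intro α _ z _ _ hF
        have hF' : x ^ 2 * W X p α z ^ 2 < V X p α z ^ 2 := by
          have : 0 < V X p α z ^ 2 - x ^ 2 * W X p α z ^ 2 := hF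
          linarith
        obtain ⟨h1, h2⟩ := hG1 X hX p z α x hx hF'
        exact ⟨h1, ENNReal.ofReal_le_ofReal h2⟩)
      (by
        intro α _ γ T hγ _ hF
        refine hG3 X hX.continuous p α γ T hγ fun t h0 => ?_
        have h1 : 0 < V X p α (γ t) ^ 2 - x ^ 2 * W X p α (γ t) ^ 2 := hF t
        rw [h0] at h1
        have : 0 ≤ x ^ 2 * W X p α (γ t) ^ 2 := by positivity
        linarith)
    refine ⟨g, hg1, hg2, (setLIntegral_le_lintegral _ _).trans (hg3.trans ?_)⟩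
    have h1 : ∫⁻ z in Metric.closedBall 0 (m : ℝ), ENNReal.ofReal ((1 + 1 / x ^ 2) * kern X p z) ≤
        ENNReal.ofReal (1 + 1 / x ^ 2) * ENNReal.ofReal (2 * π ^ 2 * n) := by
      calc ∫⁻ z in Metric.closedBall 0 (m : ℝ), ENNReal.ofReal ((1 + 1 / x ^ 2) * kern X p z)
          ≤ ∫⁻ z, ENNReal.ofReal ((1 + 1 / x ^ 2) * kern X p z) := setLIntegral_le_lintegral _ _
        _ = ∫⁻ z, ENNReal.ofReal (1 + 1 / x ^ 2) * ENNReal.ofReal (kern X p z) := by
            refine lintegral_congr fun z => ?_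
            rw [ENNReal.ofReal_mul hc0]
        _ = ENNReal.ofReal (1 + 1 / x ^ 2) * ∫⁻ z, ENNReal.ofReal (kern X p z) :=
            lintegral_const_mul _ hk1
        _ ≤ _ := by gcongr
    calc ENNReal.ofReal (1 / (2 * π)) *
        ∫⁻ z in Metric.closedBall 0 (m : ℝ), ENNReal.ofReal ((1 + 1 / x ^ 2) * kern X p z)
        ≤ ENNReal.ofReal (1 / (2 * π)) * (ENNReal.ofReal (1 + 1 / x ^ 2) *
          ENNReal.ofReal (2 * π ^ 2 * n)) := by gcongr
      _ = ENNReal.ofReal ((1 + 1 / x ^ 2) * (π * n)) := by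
          rw [← ENNReal.ofReal_mul hc0, ← ENNReal.ofReal_mul (by positivity)]
          congr 1
          have := pi_pos.ne'
          field_simp
  have h4 := H709Q.majRules.2.2.2 (fun (m : ℕ) α => ({C | ClosedOrbit (rf X α) C ∧
      C ⊆ Metric.closedBall 0 (m : ℝ) ∧
      ∀ z ∈ C, 0 < V X p α z ^ 2 - x ^ 2 * W X p α z ^ 2}.encard : ℝ≥0∞))
      ((1 + 1 / x ^ 2) * (π * n))
    (by
      intro i j α hij
      apply ENat.toENNReal_mono
      apply encard_le_encard
      rintro C ⟨h1, h2, h3⟩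
      refine ⟨h1, h2.trans (Metric.closedBall_subset_closedBall ?_), h3⟩
      exact_mod_cast hij) hm
  refine H709Q.majRules.1 _ _ _ _ ?_ le_rfl h4
  intro α _
  refine H709R2.encard_le_of_finset fun F hF => ?_
  classical
  have hb : ∀ C ∈ F, ∃ m : ℕ, C ⊆ Metric.closedBall 0 (m : ℝ) := fun C hC => g4_bounded (hF hC).1
  choose! m hmm using hb
  obtain ⟨M, hM⟩ : ∃ M, M = F.sup m := ⟨_, rfl⟩
  refine le_trans ?_ (le_iSup (fun (m : ℕ) => (({C | ClosedOrbit (rf X α) C ∧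
      C ⊆ Metric.closedBall 0 (m : ℝ) ∧
      ∀ z ∈ C, 0 < V X p α z ^ 2 - x ^ 2 * W X p α z ^ 2}.encard : ℕ∞) : ℝ≥0∞)) M)
  have h1 : (F : Set (Set (ℝ × ℝ))) ⊆ {C | ClosedOrbit (rf X α) C ∧
      C ⊆ Metric.closedBall 0 (M : ℝ) ∧
      ∀ z ∈ C, 0 < V X p α z ^ 2 - x ^ 2 * W X p α z ^ 2} := by
    intro C hC
    refine ⟨(hF hC).1, (hmm C hC).trans (Metric.closedBall_subset_closedBall ?_), fun z hz => ?_⟩
    · rw [hM]
      exact_mod_cast Finset.le_sup (f := m) hC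
    · exact sub_pos.2 ((hF hC).2 z hz)
  have h2 := encard_le_encard h1
  rw [encard_coe_eq_coe_finsetCard] at h2
  have h3 := ENat.toENNReal_mono h2
  simpa using h3

end Pool.Agent.H709U
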