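import Pool.Agent.H709U.Defs

/-! H1: the divergence of the weighted unit field. -/

open Real Set MeasureTheory Topology Filter
open scoped ENNReal

namespace Pool.Agent.H709U

noncomputable section

open Pool.Agent.H709R2 (rot wedge field ClosedOrbit divW winv divRot)

namespace H1aux

lemma chi_hasFDerivAt (p : ℝ × ℝ) {R : ℝ} (hR : 0 < R) (z v : ℝ × ℝ) :
    DifferentiableAt ℝ (chi p R) z ∧
      fderiv ℝ (chi p R) z v = -(4 * chi p R z * dot (z - p) v / (R ^ 2 + H709R2.sq (z - p))) := by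
  have hq0 : 0 ≤ H709R2.sq (z - p) := by unfold H709R2.sq; positivity
  have hpos : 0 < R ^ 2 + H709R2.sq (z - p) := by positivity
  have hc : ContDiff ℝ 1 (chi p R) := by
    unfold chi
    have h1 : ContDiff ℝ 1 fun z : ℝ × ℝ => R ^ 2 + H709R2.sq (z - p) := by
      unfold H709R2.sq
      have h2 : ContDiff ℝ 1 fun z : ℝ × ℝ => z - p := contDiff_id.sub contDiff_const
      exact contDiff_const.add
        (((contDiff_fst.comp h2).pow 2).add ((contDiff_snd.comp h2).pow 2))
    refine (contDiff_const.div h1 ?_).pow 2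
    intro x
    have : 0 ≤ H709R2.sq (x - p) := by unfold H709R2.sq; positivity
    positivity
  have hd : DifferentiableAt ℝ (chi p R) z := (hc.differentiable (by norm_num)) z
  refine ⟨hd, ?_⟩
  have hl : HasDerivAt (fun t : ℝ => z + t • v) v 0 := by
    simpa using ((hasDerivAt_id (0:ℝ)).smul_const v).const_add z
  have hz0 : z + (0:ℝ) • v = z := by simp
  have hw' : HasDerivAt (fun t : ℝ => chi p R (z + t • v)) (fderiv ℝ (chi p R) z v) 0 := by
    have h1 : HasFDerivAt (chi p R) (fderiv ℝ (chi p R) z) (z + (0:ℝ) • v) := by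
      rw [hz0]; exact hd.hasFDerivAt
    exact h1.comp_hasDerivAt 0 hl
  have ha : HasDerivAt (fun t : ℝ => (z + t • v - p).1) v.1 0 := by
    exact ((ContinuousLinearMap.fst ℝ ℝ ℝ).hasFDerivAt.comp_hasDerivAt (0:ℝ) (hl.sub_const p))
  have hb : HasDerivAt (fun t : ℝ => (z + t • v - p).2) v.2 0 := by
    exact ((ContinuousLinearMap.snd ℝ ℝ ℝ).hasFDerivAt.comp_hasDerivAt (0:ℝ) (hl.sub_const p))
  have hq : HasDerivAt (fun t : ℝ => R ^ 2 + H709R2.sq (z + t • v - p)) (2 * dot (z - p) v) 0 := by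
    have := ((ha.pow 2).add (hb.pow 2)).const_add (R ^ 2)
    unfold H709R2.sq
    refine this.congr_deriv ?_
    unfold dot
    simp
    ring
  have hw : HasDerivAt (fun t : ℝ => chi p R (z + t • v))
      (-(4 * chi p R z * dot (z - p) v / (R ^ 2 + H709R2.sq (z - p)))) 0 := by
    unfold chi
    have h0 : R ^ 2 + H709R2.sq (z + (0:ℝ) • v - p) ≠ 0 := by rw [hz0]; exact hpos.ne'
    have := (((hasDerivAt_const (0:ℝ) (R ^ 2)).div hq h0).pow 2)
    refine this.congr_deriv ?_
    simp only [hz0, Pi.div_apply]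
    have hne : R ^ 2 + H709R2.sq (z - p) ≠ 0 := hpos.ne'
    generalize R ^ 2 + H709R2.sq (z - p) = A at hne
    generalize dot (z - p) v = B
    have e1 : (2 - 1 : ℕ) = 1 := rfl
    rw [e1, pow_one]
    push_cast
    field_simp
    try ring
  exact hw'.unique hw

end H1aux

theorem h1 : S_H1 := by
  intro X hX p z R α hR hz
  have hw := H709R2.contDiffAt_winv hX hz
  have hq0 : 0 ≤ H709R2.sq (z - p) := by unfold H709R2.sq; positivity
  have hpos : 0 < R ^ 2 + H709R2.sq (z - p) := by positivity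
  have hc : ContDiff ℝ 1 (chi p R) := by
    unfold chi
    have h1 : ContDiff ℝ 1 fun z : ℝ × ℝ => R ^ 2 + H709R2.sq (z - p) := by
      unfold H709R2.sq
      have h2 : ContDiff ℝ 1 fun z : ℝ × ℝ => z - p := contDiff_id.sub contDiff_const
      exact contDiff_const.add
        (((contDiff_fst.comp h2).pow 2).add ((contDiff_snd.comp h2).pow 2))
    refine (contDiff_const.div h1 ?_).pow 2
    intro x
    have : 0 ≤ H709R2.sq (x - p) := by unfold H709R2.sq; positivity
    positivity
  refine ⟨hc.contDiffAt.mul hw, ?_⟩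
  have hs := H709R2.sq_pos hz
  have hs2 := Real.sqrt_pos.2 hs
  have hchi0 : 0 ≤ chi p R z := by unfold chi; positivity
  obtain ⟨hd, he⟩ := H1aux.chi_hasFDerivAt p hR z (rot α (X z))
  have hwd : DifferentiableAt ℝ (winv X) z := hw.differentiableAt (by norm_num)
  have hdiv : divW (fun z => chi p R z * winv X z) X α z =
      chi p R z * divW (winv X) X α z +
        winv X z * fderiv ℝ (chi p R) z (rot α (X z)) := by
    unfold divW
    rw [show (fun z => chi p R z * winv X z) = chi p R * winv X from rfl, fderiv_mul hd hwd]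
    simp only [_root_.add_apply, _root_.smul_apply, smul_eq_mul,
      Pi.mul_apply]
    ring
  have h2 := H709R2.abs_divW_winv_le hX hz α
  -- the second term
  have hdot : |dot (z - p) (rot α (X z))| ≤ √(H709R2.sq (z - p)) * √(H709R2.sq (X z)) := by
    rw [← Real.sqrt_mul hq0]
    apply Real.abs_le_sqrt
    have hV : H709R2.sq (rot α (X z)) = H709R2.sq (X z) := H709R2.sq_rot _ _
    rw [← hV]
    unfold dot H709R2.sq
    nlinarith [sq_nonneg ((z - p).1 * (rot α (X z)).2 - (z - p).2 * (rot α (X z)).1)]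
  have hsq : √(H709R2.sq (z - p)) / (R ^ 2 + H709R2.sq (z - p)) ≤ 1 / R := by
    rw [div_le_div_iff₀ hpos hR]
    nlinarith [sq_nonneg (R - √(H709R2.sq (z - p))), Real.sq_sqrt hq0, Real.sqrt_nonneg (H709R2.sq (z - p)),
      sq_nonneg (√(H709R2.sq (z - p)))]
  have h3 : |winv X z * fderiv ℝ (chi p R) z (rot α (X z))| ≤ chi p R z * (4 / R) := by
    rw [he, abs_mul, abs_neg, abs_div, abs_of_pos hpos, abs_mul, abs_mul, abs_of_nonneg hchi0]
    have hwv : |winv X z| = (√(H709R2.sq (X z)))⁻¹ := by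
      unfold winv
      exact abs_of_pos (inv_pos.2 hs2)
    rw [hwv, show |(4:ℝ)| = 4 by norm_num]
    calc (√(H709R2.sq (X z)))⁻¹ * (4 * chi p R z * |dot (z - p) (rot α (X z))| / (R ^ 2 + H709R2.sq (z - p)))
        ≤ (√(H709R2.sq (X z)))⁻¹ * (4 * chi p R z * (√(H709R2.sq (z - p)) * √(H709R2.sq (X z))) /
          (R ^ 2 + H709R2.sq (z - p))) := by gcongr
      _ = 4 * chi p R z * (√(H709R2.sq (z - p)) / (R ^ 2 + H709R2.sq (z - p))) := by
          field_simp
      _ ≤ 4 * chi p R z * (1 / R) := by gcongr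
      _ = chi p R z * (4 / R) := by ring
  rw [hdiv]
  calc |chi p R z * divW (winv X) X α z + winv X z * fderiv ℝ (chi p R) z (rot α (X z))|
      ≤ |chi p R z * divW (winv X) X α z| +
        |winv X z * fderiv ℝ (chi p R) z (rot α (X z))| := abs_add_le _ _
    _ ≤ chi p R z * (|wedge (X z) (fderiv ℝ X z (1, 0))| / H709R2.sq (X z) +
        |wedge (X z) (fderiv ℝ X z (0, 1))| / H709R2.sq (X z)) + chi p R z * (4 / R) := by
        rw [abs_mul, abs_of_nonneg hchi0]
        gcongr
    _ = _ := by ring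

end

end Pool.Agent.H709U
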