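import Pool.Agent.H709U.Defs

open Real Set MeasureTheory Topology Filter
open scoped ENNReal

namespace Pool.Agent.H709U

open Pool.Agent.H709R2 (rot wedge field ClosedOrbit divW winv)
open Pool.Agent.H709Q (Maj)

/-- one-dimensional weight -/
noncomputable def H2_c (a R x : ℝ) : ℝ := (1 + ((x - a) / R) ^ 2)⁻¹

theorem H2_c_cont (a R : ℝ) : Continuous (H2_c a R) := by
  unfold H2_c
  refine Continuous.inv₀ (by fun_prop) ?_
  intro x
  positivity

theorem H2_c_int (a R : ℝ) (hR : 0 < R) :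
    ∫⁻ x, ENNReal.ofReal (H2_c a R x) = ENNReal.ofReal (π * R) := by
  have hi : Integrable (fun x : ℝ => (1 + ((x - a) / R) ^ 2)⁻¹) :=
    (integrable_inv_one_add_sq.comp_div hR.ne').comp_sub_right a
  have h1 : ∫ x : ℝ, (1 + ((x - a) / R) ^ 2)⁻¹ = π * R := by
    have e1 := integral_sub_right_eq_self (μ := volume) (fun x : ℝ => (1 + (x / R) ^ 2)⁻¹) a
    rw [e1]
    have e2 := Measure.integral_comp_div (fun x : ℝ => (1 + x ^ 2)⁻¹) R
    rw [e2, integral_univ_inv_one_add_sq, abs_of_pos hR, smul_eq_mul, mul_comm]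
  unfold H2_c
  rw [← h1, ofReal_integral_eq_lintegral_ofReal hi]
  exact ae_of_all _ fun x => by positivity

theorem H2_chi_le (p z : ℝ × ℝ) (R : ℝ) (hR : 0 < R) :
    chi p R z ≤ H2_c p.1 R z.1 * H2_c p.2 R z.2 := by
  unfold chi H2_c H709R2.sq
  have h1 : R ^ 2 / (R ^ 2 + ((z - p).1 ^ 2 + (z - p).2 ^ 2)) =
      (1 + ((z.1 - p.1) / R) ^ 2 + ((z.2 - p.2) / R) ^ 2)⁻¹ := by
    rw [Prod.fst_sub, Prod.snd_sub]
    have : 0 < R ^ 2 + ((z.1 - p.1) ^ 2 + (z.2 - p.2) ^ 2) := by positivity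
    field_simp
    ring
  rw [h1, inv_pow, ← mul_inv]
  apply inv_anti₀ (by positivity)
  have ha : 0 ≤ ((z.1 - p.1) / R) ^ 2 := by positivity
  have hb : 0 ≤ ((z.2 - p.2) / R) ^ 2 := by positivity
  nlinarith [mul_nonneg ha hb, mul_nonneg ha ha, mul_nonneg hb hb]

theorem H2_c_le_one (a R x : ℝ) : H2_c a R x ≤ 1 := by
  unfold H2_c
  apply inv_le_one_of_one_le₀
  have : 0 ≤ ((x - a) / R) ^ 2 := by positivity
  linarith

theorem H2_c_nonneg (a R x : ℝ) : 0 ≤ H2_c a R x := by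
  unfold H2_c
  positivity

theorem h2 : S_H2 := by
  intro n P Q hP hQ p R hR
  have hF : ContDiff ℝ 2 (field P Q) := H709R2.contDiff_field P Q
  have hchi0 : ∀ z, 0 ≤ chi p R z := fun z => by unfold chi; positivity
  have hchi : Continuous (chi p R) := by
    unfold chi H709R2.sq
    refine Continuous.pow (Continuous.div (by fun_prop) (by fun_prop) ?_) 2
    intro z
    positivity
  set K1 : ℝ × ℝ → ℝ := fun z => |wedge (field P Q z)
      (fderiv ℝ (field P Q) z (1, 0))| / H709R2.sq (field P Q z) with hK1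
  set K2 : ℝ × ℝ → ℝ := fun z => |wedge (field P Q z)
      (fderiv ℝ (field P Q) z (0, 1))| / H709R2.sq (field P Q z) with hK2
  have hsq : ∀ v : ℝ × ℝ, 0 ≤ H709R2.sq v := fun v => by unfold H709R2.sq; positivity
  have hK10 : ∀ z, 0 ≤ K1 z := fun z => div_nonneg (abs_nonneg _) (hsq _)
  have hK20 : ∀ z, 0 ≤ K2 z := fun z => div_nonneg (abs_nonneg _) (hsq _)
  have m1 : Measurable fun z => ENNReal.ofReal (K1 z) := H709R2.measurable_kernel hF (1, 0)
  have m2 : Measurable fun z => ENNReal.ofReal (K2 z) := H709R2.measurable_kernel hF (0, 1)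
  have mc : Measurable fun z => ENNReal.ofReal (chi p R z) := hchi.measurable.ennreal_ofReal
  have hsplit : ∀ z, ENNReal.ofReal (chi p R z * (K1 z + K2 z + 4 / R)) =
      ENNReal.ofReal (chi p R z) * (ENNReal.ofReal (K1 z) + ENNReal.ofReal (K2 z) +
        ENNReal.ofReal (4 / R)) := by
    intro z
    rw [ENNReal.ofReal_mul (hchi0 z), ENNReal.ofReal_add (add_nonneg (hK10 z) (hK20 z))
      (by positivity), ENNReal.ofReal_add (hK10 z) (hK20 z)]
  change Measurable (fun z => ENNReal.ofReal (chi p R z * (K1 z + K2 z + 4 / R))) ∧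
    ∫⁻ z, ENNReal.ofReal (chi p R z * (K1 z + K2 z + 4 / R)) ≤ _
  simp only [hsplit]
  refine ⟨mc.mul ((m1.add m2).add measurable_const), ?_⟩
  set a1 : ℝ → ℝ≥0∞ := fun x => ENNReal.ofReal (H2_c p.1 R x) with ha1
  set a2 : ℝ → ℝ≥0∞ := fun y => ENNReal.ofReal (H2_c p.2 R y) with ha2
  have ma1 : Measurable a1 := (H2_c_cont _ _).measurable.ennreal_ofReal
  have ma2 : Measurable a2 := (H2_c_cont _ _).measurable.ennreal_ofReal
  have b1 : ∀ z : ℝ × ℝ, ENNReal.ofReal (chi p R z) ≤ a1 z.1 := by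
    intro z
    refine ENNReal.ofReal_le_ofReal ((H2_chi_le p z R hR).trans ?_)
    exact mul_le_of_le_one_right (H2_c_nonneg _ _ _) (H2_c_le_one _ _ _)
  have b2 : ∀ z : ℝ × ℝ, ENNReal.ofReal (chi p R z) ≤ a2 z.2 := by
    intro z
    refine ENNReal.ofReal_le_ofReal ((H2_chi_le p z R hR).trans ?_)
    exact mul_le_of_le_one_left (H2_c_nonneg _ _ _) (H2_c_le_one _ _ _)
  have b3 : ∀ z : ℝ × ℝ, ENNReal.ofReal (chi p R z) ≤ a1 z.1 * a2 z.2 := by
    intro z
    rw [ha1, ha2]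
    simp only
    rw [← ENNReal.ofReal_mul (H2_c_nonneg _ _ _)]
    exact ENNReal.ofReal_le_ofReal (H2_chi_le p z R hR)
  -- first term
  have t1 : ∫⁻ z : ℝ × ℝ, a2 z.2 * ENNReal.ofReal (K1 z) ≤
      ENNReal.ofReal (n * π) * ENNReal.ofReal (π * R) := by
    have mm1 : Measurable (fun z : ℝ × ℝ => a2 z.2 * ENNReal.ofReal (K1 z)) :=
      (ma2.comp measurable_snd).mul m1
    rw [Measure.volume_eq_prod, lintegral_prod_symm _ mm1.aemeasurable]
    calc ∫⁻ y : ℝ, ∫⁻ x : ℝ, a2 y * ENNReal.ofReal (K1 (x, y))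
        ≤ ∫⁻ y : ℝ, a2 y * ENNReal.ofReal (n * π) := by
          refine lintegral_mono fun y => ?_
          rw [lintegral_const_mul' _ _ ENNReal.ofReal_ne_top]
          refine mul_le_mul_right ?_ _
          have h2 := H709R2.lintegral_line hP hQ (0, y) (1, 0)
          have h3 : ∀ t : ℝ, ((0:ℝ), y) + t • ((1:ℝ), (0:ℝ)) = (t, y) := by
            intro t; ext <;> simp
          simp only [h3] at h2
          exact h2
      _ = _ := by
          rw [lintegral_mul_const' _ _ ENNReal.ofReal_ne_top, H2_c_int _ _ hR, mul_comm]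
  have t2 : ∫⁻ z : ℝ × ℝ, a1 z.1 * ENNReal.ofReal (K2 z) ≤
      ENNReal.ofReal (n * π) * ENNReal.ofReal (π * R) := by
    have mm2 : Measurable (fun z : ℝ × ℝ => a1 z.1 * ENNReal.ofReal (K2 z)) :=
      (ma1.comp measurable_fst).mul m2
    rw [Measure.volume_eq_prod, lintegral_prod _ mm2.aemeasurable]
    calc ∫⁻ x : ℝ, ∫⁻ y : ℝ, a1 x * ENNReal.ofReal (K2 (x, y))
        ≤ ∫⁻ x : ℝ, a1 x * ENNReal.ofReal (n * π) := by
          refine lintegral_mono fun x => ?_
          rw [lintegral_const_mul' _ _ ENNReal.ofReal_ne_top]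
          refine mul_le_mul_right ?_ _
          have h2 := H709R2.lintegral_line hP hQ (x, 0) (0, 1)
          have h3 : ∀ t : ℝ, (x, (0:ℝ)) + t • ((0:ℝ), (1:ℝ)) = (x, t) := by
            intro t; ext <;> simp
          simp only [h3] at h2
          exact h2
      _ = _ := by
          rw [lintegral_mul_const' _ _ ENNReal.ofReal_ne_top, H2_c_int _ _ hR, mul_comm]
  have t3 : ∫⁻ z : ℝ × ℝ, a1 z.1 * a2 z.2 * ENNReal.ofReal (4 / R) =
      ENNReal.ofReal (π * R) * ENNReal.ofReal (π * R) * ENNReal.ofReal (4 / R) := by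
    rw [lintegral_mul_const' _ _ ENNReal.ofReal_ne_top]
    congr 1
    rw [Measure.volume_eq_prod, lintegral_prod_mul ma1.aemeasurable ma2.aemeasurable,
      H2_c_int _ _ hR, H2_c_int _ _ hR]
  calc ∫⁻ z, ENNReal.ofReal (chi p R z) * (ENNReal.ofReal (K1 z) + ENNReal.ofReal (K2 z) +
        ENNReal.ofReal (4 / R))
      ≤ ∫⁻ z : ℝ × ℝ, (a2 z.2 * ENNReal.ofReal (K1 z) + a1 z.1 * ENNReal.ofReal (K2 z) +
        a1 z.1 * a2 z.2 * ENNReal.ofReal (4 / R)) := by
        refine lintegral_mono fun z => ?_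
        simp only
        rw [mul_add, mul_add]
        exact add_le_add (add_le_add (mul_le_mul_left (b2 z) _) (mul_le_mul_left (b1 z) _))
          (mul_le_mul_left (b3 z) _)
    _ = (∫⁻ z : ℝ × ℝ, a2 z.2 * ENNReal.ofReal (K1 z)) +
        (∫⁻ z : ℝ × ℝ, a1 z.1 * ENNReal.ofReal (K2 z)) +
        ∫⁻ z : ℝ × ℝ, a1 z.1 * a2 z.2 * ENNReal.ofReal (4 / R) := by
        rw [lintegral_add_left, lintegral_add_left]
        · exact (ma2.comp measurable_snd).mul m1
        · exact ((ma2.comp measurable_snd).mul m1).add ((ma1.comp measurable_fst).mul m2)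
    _ ≤ ENNReal.ofReal (n * π) * ENNReal.ofReal (π * R) +
        ENNReal.ofReal (n * π) * ENNReal.ofReal (π * R) +
        ENNReal.ofReal (π * R) * ENNReal.ofReal (π * R) * ENNReal.ofReal (4 / R) :=
        add_le_add (add_le_add t1 t2) t3.le
    _ = ENNReal.ofReal ((2 * n + 4) * π ^ 2 * R) := by
        rw [← ENNReal.ofReal_mul (by positivity), ← ENNReal.ofReal_mul (by positivity),
          ← ENNReal.ofReal_mul (by positivity), ← ENNReal.ofReal_add (by positivity)
          (by positivity), ← ENNReal.ofReal_add (by positivity) (by positivity)]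
        congr 1
        field_simp
        ring

end Pool.Agent.H709U
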