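import Pool.Agent.H709U.Defs

/-! H3: lower bound for the weighted length of a closed curve (helper228). -/

open Real Set MeasureTheory Topology Filter
open scoped ENNReal

namespace Pool.Agent.H709U

noncomputable section

open Pool.Agent.H709R2 (rot wedge field ClosedOrbit divW winv dist_le_len)

namespace H3

lemma chi_ge {p z : ℝ × ℝ} {R : ℝ} (hR : 0 < R) (h : H709R2.sq (z - p) ≤ 4 * R ^ 2) :
    1 / 25 ≤ chi p R z := by
  unfold chi
  have h0 : 0 ≤ H709R2.sq (z - p) := by unfold H709R2.sq; positivity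
  have h1 : 1 / 5 ≤ R ^ 2 / (R ^ 2 + H709R2.sq (z - p)) := by
    rw [div_le_div_iff₀ (by norm_num) (by positivity)]
    linarith
  calc (1 : ℝ) / 25 = (1 / 5) ^ 2 := by norm_num
    _ ≤ _ := pow_le_pow_left₀ (by norm_num) h1 2

lemma chi_nonneg (p z : ℝ × ℝ) (R : ℝ) : 0 ≤ chi p R z := sq_nonneg _

lemma cont_sq' : Continuous H709R2.sq := by
  unfold H709R2.sq
  fun_prop

lemma cont_chi (p : ℝ × ℝ) {R : ℝ} (hR : 0 < R) : Continuous (chi p R) := by
  unfold chi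
  refine Continuous.pow (Continuous.div continuous_const
    (continuous_const.add (cont_sq'.comp (continuous_id.sub continuous_const))) ?_) 2
  intro z
  have h0 : 0 ≤ H709R2.sq (z - p) := by unfold H709R2.sq; positivity
  exact (show 0 < R ^ 2 + H709R2.sq (z - p) by positivity).ne'

lemma part {γ γ' : ℝ → ℝ × ℝ} (hd : ∀ t, HasDerivAt γ (γ' t) t) (hc : Continuous γ')
    {p : ℝ × ℝ} {R : ℝ} (hR : 0 < R) {a s b : ℝ} (has : a ≤ s) (hsb : s ≤ b)
    (h : ∀ t ∈ Ioo a s, H709R2.sq (γ t - p) ≤ 4 * R ^ 2) :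
    √(H709R2.sq (γ s - γ a)) / 25 ≤ ∫ t in a..b, chi p R (γ t) * √(H709R2.sq (γ' t)) := by
  have hγ : Continuous γ := continuous_iff_continuousAt.2 fun t => (hd t).continuousAt
  have hf : Continuous fun t => chi p R (γ t) * √(H709R2.sq (γ' t)) :=
    ((cont_chi p hR).comp hγ).mul ((cont_sq'.comp hc).sqrt)
  have hg : Continuous fun t => 1 / 25 * √(H709R2.sq (γ' t)) :=
    continuous_const.mul ((cont_sq'.comp hc).sqrt)
  have h1 := dist_le_len hd hc has
  have h2 : ∫ t in a..s, 1 / 25 * √(H709R2.sq (γ' t)) ≤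
      ∫ t in a..s, chi p R (γ t) * √(H709R2.sq (γ' t)) :=
    intervalIntegral.integral_mono_on_of_le_Ioo has (hg.intervalIntegrable _ _)
      (hf.intervalIntegrable _ _) fun t ht =>
        mul_le_mul_of_nonneg_right (chi_ge hR (h t ht)) (Real.sqrt_nonneg _)
  have h3 : 0 ≤ ∫ t in s..b, chi p R (γ t) * √(H709R2.sq (γ' t)) :=
    intervalIntegral.integral_nonneg hsb fun t _ =>
      mul_nonneg (chi_nonneg _ _ _) (Real.sqrt_nonneg _)
  rw [intervalIntegral.integral_const_mul] at h2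
  rw [← intervalIntegral.integral_add_adjacent_intervals (hf.intervalIntegrable a s)
    (hf.intervalIntegrable s b)]
  linarith

lemma sq_sub_ge {a b : ℝ × ℝ} {R : ℝ} (hR : 0 < R) (ha : 4 * R ^ 2 ≤ H709R2.sq a) (hb : H709R2.sq b ≤ R ^ 2) :
    R ^ 2 ≤ H709R2.sq (a - b) := by
  have h1 : √(H709R2.sq a) * √(H709R2.sq a) = H709R2.sq a := Real.mul_self_sqrt (by unfold H709R2.sq; positivity)
  have h2 : √(H709R2.sq b) * √(H709R2.sq b) = H709R2.sq b := Real.mul_self_sqrt (by unfold H709R2.sq; positivity)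
  have hA : 2 * R ≤ √(H709R2.sq a) := by
    apply Real.le_sqrt_of_sq_le
    linarith
  have hB : √(H709R2.sq b) ≤ R := Real.sqrt_le_iff.2 ⟨hR.le, hb⟩
  have hB0 := Real.sqrt_nonneg (H709R2.sq b)
  have hcs : a.1 * b.1 + a.2 * b.2 ≤ √(H709R2.sq a) * √(H709R2.sq b) := by
    rw [← Real.sqrt_mul (by unfold H709R2.sq; positivity)]
    apply Real.le_sqrt_of_sq_le
    unfold H709R2.sq
    nlinarith [sq_nonneg (a.1 * b.2 - a.2 * b.1)]
  have e : H709R2.sq (a - b) = H709R2.sq a - 2 * (a.1 * b.1 + a.2 * b.2) + H709R2.sq b := by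
    unfold H709R2.sq
    simp only [Prod.fst_sub, Prod.snd_sub]
    ring
  rw [e]
  nlinarith

end H3

open H3 in
theorem h3 : S_H3 := by
  intro γ γ' T hT hd hc hper p R hR hbox ⟨t₁, ht1, ht1'⟩
  have hγ : Continuous γ := continuous_iff_continuousAt.2 fun t => (hd t).continuousAt
  have hper' : ∀ t, γ' (t + T) = γ' t := by
    intro t
    have h1 : HasDerivAt (fun s => γ (s + T)) (γ' (t + T)) t := by
      simpa using (hd (t + T)).comp_add_const t T
    have h2 : (fun s => γ (s + T)) = γ := funext hper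
    rw [h2] at h1
    exact h1.unique (hd t)
  have hP : Function.Periodic (fun t => chi p R (γ t) * √(H709R2.sq (γ' t))) T := by
    intro t
    simp only [hper, hper']
  have hshift : ∫ t in (0:ℝ)..T, chi p R (γ t) * √(H709R2.sq (γ' t)) =
      ∫ t in t₁..(t₁ + T), chi p R (γ t) * √(H709R2.sq (γ' t)) := by
    have := hP.intervalIntegral_add_eq 0 t₁
    rwa [zero_add] at this
  have hgoal : ∀ s, t₁ ≤ s → s ≤ t₁ + T → (∀ t ∈ Ioo t₁ s, H709R2.sq (γ t - p) ≤ 4 * R ^ 2) →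
      (R / 5) ^ 2 ≤ H709R2.sq (γ s - γ t₁) →
      R / 200 ≤ ∫ t in (0:ℝ)..T, chi p R (γ t) * √(H709R2.sq (γ' t)) := by
    intro s h1 h2 h3 h4
    rw [hshift]
    have h5 := part hd hc hR h1 h2 h3
    have h6 : R / 5 ≤ √(H709R2.sq (γ s - γ t₁)) := Real.le_sqrt_of_sq_le h4
    linarith
  by_cases hcase : ∀ t ∈ Icc t₁ (t₁ + T), H709R2.sq (γ t - p) ≤ 4 * R ^ 2
  · -- case (i)
    have hy : ∃ y ∈ range γ, (R / 5) ^ 2 ≤ H709R2.sq (y - γ t₁) := by
      obtain ⟨⟨x, hx, y, hy, hx1, hy1⟩, ⟨x', hx', y', hy', hx2, hy2⟩⟩ := hbox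
      have hor : R ^ 2 / 18 ≤ ((γ t₁).1 - p.1) ^ 2 ∨ R ^ 2 / 18 ≤ ((γ t₁).2 - p.2) ^ 2 := by
        by_contra hcon
        push Not at hcon
        have : H709R2.sq (γ t₁ - p) = ((γ t₁).1 - p.1) ^ 2 + ((γ t₁).2 - p.2) ^ 2 := rfl
        rw [this] at ht1
        linarith [hcon.1, hcon.2]
      have key : ∀ u v w : ℝ, R ^ 2 / 18 ≤ (u - v) ^ 2 → (u ≤ v → v ≤ w → (R / 5) ^ 2 ≤ (w - u) ^ 2)
          ∧ (v ≤ u → w ≤ v → (R / 5) ^ 2 ≤ (w - u) ^ 2) := by
        intro u v w h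
        constructor
        · intro h1 h2
          nlinarith [mul_nonneg (sub_nonneg.2 h1) (sub_nonneg.2 h2), sq_nonneg (w - v), sq_nonneg R]
        · intro h1 h2
          nlinarith [mul_nonneg (sub_nonneg.2 h1) (sub_nonneg.2 h2), sq_nonneg (w - v), sq_nonneg R]
      rcases hor with h | h
      · rcases le_total (γ t₁).1 p.1 with h1 | h1
        · refine ⟨y, hy, ((key _ _ y.1 h).1 h1 hy1).trans ?_⟩
          have : H709R2.sq (y - γ t₁) = (y.1 - (γ t₁).1) ^ 2 + (y.2 - (γ t₁).2) ^ 2 := rfl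
          rw [this]
          linarith [sq_nonneg (y.2 - (γ t₁).2)]
        · refine ⟨x, hx, ((key _ _ x.1 h).2 h1 hx1).trans ?_⟩
          have : H709R2.sq (x - γ t₁) = (x.1 - (γ t₁).1) ^ 2 + (x.2 - (γ t₁).2) ^ 2 := rfl
          rw [this]
          linarith [sq_nonneg (x.2 - (γ t₁).2)]
      · rcases le_total (γ t₁).2 p.2 with h1 | h1
        · refine ⟨y', hy', ((key _ _ y'.2 h).1 h1 hy2).trans ?_⟩
          have : H709R2.sq (y' - γ t₁) = (y'.1 - (γ t₁).1) ^ 2 + (y'.2 - (γ t₁).2) ^ 2 := rfl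
          rw [this]
          linarith [sq_nonneg (y'.1 - (γ t₁).1)]
        · refine ⟨x', hx', ((key _ _ x'.2 h).2 h1 hx2).trans ?_⟩
          have : H709R2.sq (x' - γ t₁) = (x'.1 - (γ t₁).1) ^ 2 + (x'.2 - (γ t₁).2) ^ 2 := rfl
          rw [this]
          linarith [sq_nonneg (x'.1 - (γ t₁).1)]
    obtain ⟨y, ⟨s, rfl⟩, hs⟩ := hy
    obtain ⟨s', hs', hss⟩ := Function.Periodic.exists_mem_Ico (f := γ) hper hT s t₁
    rw [hss] at hs
    exact hgoal s' hs'.1 hs'.2.le (fun t ht => hcase t ⟨ht.1.le, (ht.2.trans hs'.2).le⟩) hs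
  · -- case (ii)
    push Not at hcase
    obtain ⟨t₂, ht2, ht2'⟩ := hcase
    set S : Set ℝ := Icc t₁ t₂ ∩ {t | 4 * R ^ 2 ≤ H709R2.sq (γ t - p)} with hS
    have hScomp : IsCompact S := isCompact_Icc.inter_right
      (isClosed_le continuous_const (cont_sq'.comp (hγ.sub continuous_const)))
    have hSne : S.Nonempty := ⟨t₂, ⟨ht2.1, le_rfl⟩, ht2'.le⟩
    obtain ⟨t₃, ht3, hmin⟩ := hScomp.exists_isLeast hSne
    refine hgoal t₃ ht3.1.1 (ht3.1.2.trans ht2.2) (fun t ht => ?_) ?_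
    · by_contra hcon
      push Not at hcon
      have : t₃ ≤ t := hmin ⟨⟨ht.1.le, ht.2.le.trans ht3.1.2⟩, hcon.le⟩
      linarith [ht.2]
    · have h1 := sq_sub_ge hR (a := γ t₃ - p) (b := γ t₁ - p) ht3.2 ht1'
      have h2 : γ t₃ - p - (γ t₁ - p) = γ t₃ - γ t₁ := by abel
      rw [h2] at h1
      nlinarith [sq_nonneg R]

end

end Pool.Agent.H709U
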