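import Pool.Agent.H709U.Defs
import Pool.Agent.H709Q.M
import Pool.Agent.H709R2.Indicatrix

/-! H4: closed orbits touching a given scale. -/

open Real Set MeasureTheory Topology Filter
open scoped ENNReal

namespace Pool.Agent.H709U

noncomputable section

open Pool.Agent.H709R2 (rot wedge field ClosedOrbit divW winv sq_rot continuous_rot contDiff_field)
open Pool.Agent.H709Q (Maj majRules)

/-- the exhausting boxes -/
def h4Box (m : ℕ) : Set (ℝ × ℝ) := Icc (-(m : ℝ)) m ×ˢ Icc (-(m : ℝ)) m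

lemma h4Box_compact (m : ℕ) : IsCompact (h4Box m) := isCompact_Icc.prod isCompact_Icc

lemma h4Box_mono {i j : ℕ} (h : i ≤ j) : h4Box i ⊆ h4Box j := by
  have h' : (i : ℝ) ≤ j := by exact_mod_cast h
  exact prod_mono (Icc_subset_Icc (by linarith) h') (Icc_subset_Icc (by linarith) h')

lemma h4_bounded {Y : ℝ × ℝ → ℝ × ℝ} {C : Set (ℝ × ℝ)} (hC : ClosedOrbit Y C) :
    ∃ m : ℕ, C ⊆ h4Box m := by
  obtain ⟨γ, T, hT, hode, hper, -, rfl⟩ := hC
  have hcont : Continuous γ := continuous_iff_continuousAt.2 fun t => (hode t).continuousAt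
  have hpT : Function.Periodic γ T := hper
  have hcomp : IsCompact (range γ) := hpT.compact_of_continuous hT.ne' hcont
  obtain ⟨R, hR⟩ := hcomp.isBounded.exists_norm_le
  obtain ⟨m, hm⟩ := exists_nat_ge R
  refine ⟨m, fun z hz => ?_⟩
  have h1 := hR z hz
  rw [Prod.norm_def, max_le_iff, Real.norm_eq_abs, Real.norm_eq_abs] at h1
  exact ⟨abs_le.1 (h1.1.trans hm), abs_le.1 (h1.2.trans hm)⟩

theorem h4_exhaust (Y : ℝ → ℝ × ℝ → ℝ × ℝ) (Q : ℝ → Set (ℝ × ℝ) → Prop) (K : ℝ)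
    (h : ∀ m : ℕ, Maj (fun α => ({C | ClosedOrbit (Y α) C ∧ Q α C ∧ C ⊆ h4Box m}.encard : ℝ≥0∞)) K) :
    Maj (fun α => ({C | ClosedOrbit (Y α) C ∧ Q α C}.encard : ℝ≥0∞)) K := by
  have h4 := majRules.2.2.2
    (fun (m : ℕ) s => ({C | ClosedOrbit (Y s) C ∧ Q s C ∧ C ⊆ h4Box m}.encard : ℝ≥0∞)) K
    (by
      intro i j s hij
      apply ENat.toENNReal_mono
      apply encard_le_encard
      rintro C ⟨h1, h2, h3⟩
      exact ⟨h1, h2, h3.trans (h4Box_mono hij)⟩) h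
  refine majRules.1 _ _ K K ?_ le_rfl h4
  intro s _
  refine H709R2.encard_le_of_finset fun F hF => ?_
  classical
  have hb : ∀ C ∈ F, ∃ m : ℕ, C ⊆ h4Box m := fun C hC => h4_bounded (hF hC).1
  choose! m hm using hb
  set M := F.sup m with hM
  refine le_trans ?_ (le_iSup (fun (m : ℕ) =>
    (({C | ClosedOrbit (Y s) C ∧ Q s C ∧ C ⊆ h4Box m}.encard : ℕ∞) : ℝ≥0∞)) M)
  have h1 : (F : Set (Set (ℝ × ℝ))) ⊆ {C | ClosedOrbit (Y s) C ∧ Q s C ∧ C ⊆ h4Box M} := by
    intro C hC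
    exact ⟨(hF hC).1, (hF hC).2, (hm C hC).trans (h4Box_mono (Finset.le_sup hC))⟩
  have h2 := encard_le_encard h1
  rw [encard_coe_eq_coe_finsetCard] at h2
  have h3 := ENat.toENNReal_mono h2
  simpa using h3

lemma h4_scale {p z : ℝ × ℝ} {v : ℝ} (hz : z ≠ p) (h1 : v ≤ lg p z) (h2 : lg p z ≤ v + 1) :
    exp (v + 1) ^ 2 / 9 ≤ H709R2.sq (z - p) ∧ H709R2.sq (z - p) ≤ exp (v + 1) ^ 2 := by
  have hpos : 0 < H709R2.sq (z - p) := by
    unfold H709R2.sq
    by_contra hcon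
    push Not at hcon
    have e1 : (z - p).1 = 0 := by nlinarith [sq_nonneg (z - p).1, sq_nonneg (z - p).2]
    have e2 : (z - p).2 = 0 := by nlinarith [sq_nonneg (z - p).1, sq_nonneg (z - p).2]
    exact hz (sub_eq_zero.1 (Prod.ext e1 e2))
  unfold lg at h1 h2
  have e1 : exp (2 * v) ≤ H709R2.sq (z - p) := by
    rw [← Real.le_log_iff_exp_le hpos]
    linarith
  have e2 : H709R2.sq (z - p) ≤ exp (2 * (v + 1)) := by
    rw [← Real.log_le_iff_le_exp hpos]
    linarith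
  have e3 : exp (v + 1) ^ 2 = exp (2 * (v + 1)) := by
    rw [← Real.exp_nat_mul]
    norm_num
  have e4 : exp (2 * (v + 1)) = exp (2 * v) * exp 1 ^ 2 := by
    rw [← Real.exp_nat_mul, ← Real.exp_add]
    congr 1
    push_cast
    ring
  have e5 : exp 1 ^ 2 ≤ 9 := by
    have := Real.exp_one_lt_d9
    have h0 := Real.exp_pos 1
    nlinarith
  have h0 := Real.exp_pos (2 * v)
  refine ⟨?_, by rw [e3]; exact e2⟩
  rw [e3, e4]
  have : exp (2 * v) * exp 1 ^ 2 ≤ exp (2 * v) * 9 := by gcongr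
  linarith

theorem h4 : S_M0 → S_MB → S_H1 → S_H2 → S_H3 → S_H4 := by
  intro hM0 hMB hH1 hH2 hH3 n P Q hP hQ p v
  set X := field P Q with hX
  have hXc : ContDiff ℝ 2 X := contDiff_field P Q
  set R := exp (v + 1) with hR
  have hRpos : 0 < R := Real.exp_pos _
  have key := h4_exhaust (fun α => rf X α)
    (fun α C => InBox p C ∧ p ∉ C ∧ ∃ z ∈ C, v ≤ lg p z ∧ lg p z ≤ v + 1)
    (8000 * (n + 1)) ?_
  · exact key
  intro m
  obtain ⟨hm1, hm2⟩ := hH2 n P Q hP hQ p R hRpos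
  have hw : ∀ z, X z ≠ 0 → ContDiffAt ℝ 1 (fun z => chi p R z * winv X z) z := fun z hz =>
    (hH1 X hXc p z R 0 hRpos hz).1
  obtain ⟨g, hg1, hg2, hg3⟩ := hMB X hXc (fun z => chi p R z * winv X z) hw (h4Box m)
    (h4Box_compact m) _ hm1 (R / 200) (by positivity) (by
      intro α _ z _ hz
      exact ENNReal.ofReal_le_ofReal (hH1 X hXc p z R α hRpos hz).2)
  refine ⟨g, hg1, ?_, ?_⟩
  · intro α hα
    refine le_trans ?_ (hg2 α hα)
    apply ENat.toENNReal_mono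
    apply encard_le_encard
    rintro C ⟨hC1, ⟨hC2, hC3, z, hz, hz1, hz2⟩, hC4⟩
    obtain ⟨γ, T, hγ, rfl⟩ := hM0 X hXc α C hC1
    refine ⟨γ, T, hγ, rfl, hC4, ?_⟩
    have hγc : Continuous γ := continuous_iff_continuousAt.2 fun t => (hγ.ode t).continuousAt
    have hYc : Continuous fun t => rf X α (γ t) :=
      (continuous_rot α).comp (hXc.continuous.comp hγc)
    obtain ⟨t₀, rfl⟩ := hz
    have hne : γ t₀ ≠ p := fun h => hC3 ⟨t₀, h⟩
    have h3 := hH3 γ (fun t => rf X α (γ t)) T hγ.pos hγ.ode hYc hγ.per p R hRpos hC2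
      ⟨t₀, h4_scale hne hz1 hz2⟩
    refine h3.trans (le_of_eq ?_)
    congr 1
    funext t
    have hr : H709R2.sq (rf X α (γ t)) = H709R2.sq (X (γ t)) := sq_rot _ _
    rw [hr]
    unfold winv
    rw [mul_assoc]
    congr 1
    rw [← div_eq_inv_mul, Real.div_sqrt]
  · refine (setLIntegral_le_lintegral _ _).trans (hg3.trans ?_)
    refine (mul_le_mul_right ((setLIntegral_le_lintegral _ _).trans hm2) _).trans ?_
    rw [← ENNReal.ofReal_mul (by positivity)]
    apply ENNReal.ofReal_le_ofReal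
    have e1 : 1 / (R / 200) * ((2 * n + 4) * π ^ 2 * R) = 200 * (2 * n + 4) * π ^ 2 := by
      field_simp
    rw [e1]
    have hpi : π ^ 2 ≤ 9.9225 := by
      have h1 := Real.pi_lt_d2
      have h0 := Real.pi_pos
      nlinarith
    have hn : (0 : ℝ) ≤ n := Nat.cast_nonneg n
    nlinarith [mul_le_mul_of_nonneg_left hpi (by positivity : (0:ℝ) ≤ 200 * (2 * n + 4))]

end

end Pool.Agent.H709U
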