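import Pool.Agent.H709U.Defs

/-! K1: propagation of steep level curves (helper152) -/

open Real Set MeasureTheory Topology Filter
open scoped ENNReal

namespace Pool.Agent.H709U

noncomputable section

namespace K1

/-- the value after a small step along the direction `(c, 1)` has the sign of the derivative -/
theorem dir_pos (F Fu Ft : ℝ × ℝ → ℝ)
    (hF : ∀ q, HasFDerivAt F (Fu q • ContinuousLinearMap.fst ℝ ℝ ℝ +
      Ft q • ContinuousLinearMap.snd ℝ ℝ ℝ) q) (u t c : ℝ) (h0 : F (u, t) = 0)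
    (hc : 0 < Fu (u, t) * c + Ft (u, t)) : ∀ᶠ h in 𝓝[>] (0:ℝ), 0 < F (u + c * h, t + h) := by
  have h1 : HasDerivAt (fun h : ℝ => ((u + c * h, t + h) : ℝ × ℝ)) (c, 1) 0 := by
    have a1 : HasDerivAt (fun h : ℝ => u + c * h) c 0 := by
      simpa using ((hasDerivAt_id (0:ℝ)).const_mul c).const_add u
    have a2 : HasDerivAt (fun h : ℝ => t + h) 1 0 := by
      simpa using (hasDerivAt_id (0:ℝ)).const_add t
    exact a1.prodMk a2
  have h2 : HasDerivAt (fun h : ℝ => F (u + c * h, t + h)) (Fu (u, t) * c + Ft (u, t)) 0 := by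
    have h3 := hF (u + c * 0, t + 0)
    have h4 := h3.comp_hasDerivAt (0:ℝ) h1
    have e : (Fu (u + c * 0, t + 0) • ContinuousLinearMap.fst ℝ ℝ ℝ +
        Ft (u + c * 0, t + 0) • ContinuousLinearMap.snd ℝ ℝ ℝ) (c, 1) =
        Fu (u, t) * c + Ft (u, t) := by simp
    rw [e] at h4
    exact h4
  have h5 := h2.tendsto_slope
  have h6 : Tendsto (slope (fun h : ℝ => F (u + c * h, t + h)) 0) (𝓝[>] 0)
      (𝓝 (Fu (u, t) * c + Ft (u, t))) := h5.mono_left (nhdsWithin_mono _ (fun x hx => ne_of_gt hx))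
  have h7 := h6.eventually (lt_mem_nhds hc)
  filter_upwards [h7, self_mem_nhdsWithin] with h h8 h9
  rw [slope_def_field] at h8
  simp only [mul_zero, add_zero, sub_zero, h0] at h8
  have h10 : (0:ℝ) < h := h9
  exact (div_pos_iff_of_pos_right h10).1 h8

theorem step1 (F Fu Ft : ℝ × ℝ → ℝ)
    (hF : ∀ q, HasFDerivAt F (Fu q • ContinuousLinearMap.fst ℝ ℝ ℝ +
      Ft q • ContinuousLinearMap.snd ℝ ℝ ℝ) q) (u t b : ℝ) (hb : 0 < b) (h0 : F (u, t) = 0)
    (hc : b * |Ft (u, t)| < Fu (u, t)) :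
    ∀ᶠ h in 𝓝[>] (0:ℝ), ∃ u', |u' - u| ≤ h / b ∧ F (u', t + h) = 0 := by
  have hbi : 0 < b⁻¹ := inv_pos.2 hb
  have e : Fu (u, t) * b⁻¹ - |Ft (u, t)| = (Fu (u, t) - b * |Ft (u, t)|) * b⁻¹ := by
    field_simp
  have e' : 0 < Fu (u, t) * b⁻¹ - |Ft (u, t)| := by
    rw [e]
    exact mul_pos (sub_pos.2 hc) hbi
  have h1 := dir_pos F Fu Ft hF u t b⁻¹ h0 (by
    have := neg_abs_le (Ft (u, t))
    linarith)
  have hF' : ∀ q, HasFDerivAt (fun q => -F q) ((fun q => -Fu q) q • ContinuousLinearMap.fst ℝ ℝ ℝ +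
      (fun q => -Ft q) q • ContinuousLinearMap.snd ℝ ℝ ℝ) q := by
    intro q
    refine (hF q).fun_neg.congr_fderiv ?_
    ext <;> simp
  have h2 := dir_pos (fun q => -F q) (fun q => -Fu q) (fun q => -Ft q) hF' u t (-b⁻¹)
    (by simp [h0]) (by
    have := le_abs_self (Ft (u, t))
    simp only [mul_neg, neg_mul, neg_neg]
    linarith)
  filter_upwards [h1, h2, self_mem_nhdsWithin] with h h3 h4 h5
  have h6 : (0:ℝ) < h := h5
  have hFc : Continuous F := continuous_iff_continuousAt.2 (fun q => (hF q).continuousAt)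
  have hcont : ContinuousOn (fun v => F (v, t + h)) (Icc (u + -b⁻¹ * h) (u + b⁻¹ * h)) :=
    (hFc.comp (by fun_prop : Continuous (fun v : ℝ => (v, t + h)))).continuousOn
  have hle : u + -b⁻¹ * h ≤ u + b⁻¹ * h := by nlinarith [mul_pos hbi h6]
  have h7 := intermediate_value_Icc hle hcont
  obtain ⟨u', hu', hu0⟩ := h7 (show (0:ℝ) ∈ Icc _ _ from ⟨by linarith, h3.le⟩)
  refine ⟨u', ?_, hu0⟩
  rw [abs_le, div_eq_mul_inv]
  constructor <;> nlinarith [hu'.1, hu'.2]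

theorem step (F Fu Ft : ℝ × ℝ → ℝ)
    (hF : ∀ q, HasFDerivAt F (Fu q • ContinuousLinearMap.fst ℝ ℝ ℝ +
      Ft q • ContinuousLinearMap.snd ℝ ℝ ℝ) q) (u t b : ℝ) (hb : 0 < b) (h0 : F (u, t) = 0)
    (hc : b ^ 2 * Ft (u, t) ^ 2 < Fu (u, t) ^ 2) :
    ∀ᶠ h in 𝓝[>] (0:ℝ), ∃ u', |u' - u| ≤ h / b ∧ F (u', t + h) = 0 := by
  have h1 : b * |Ft (u, t)| < |Fu (u, t)| := by
    have h2 : (b * Ft (u, t)) ^ 2 < Fu (u, t) ^ 2 := by rw [mul_pow]; exact hc
    have h3 := sq_lt_sq.1 h2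
    rwa [abs_mul, abs_of_pos hb] at h3
  rcases le_or_gt 0 (Fu (u, t)) with h | h
  · rw [abs_of_nonneg h] at h1
    exact step1 F Fu Ft hF u t b hb h0 h1
  · rw [abs_of_neg h] at h1
    have hF' : ∀ q, HasFDerivAt (fun q => -F q) ((fun q => -Fu q) q •
        ContinuousLinearMap.fst ℝ ℝ ℝ + (fun q => -Ft q) q • ContinuousLinearMap.snd ℝ ℝ ℝ) q := by
      intro q
      refine (hF q).fun_neg.congr_fderiv ?_
      ext <;> simp
    have h2 := step1 (fun q => -F q) (fun q => -Fu q) (fun q => -Ft q) hF' u t b hb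
      (by simp [h0]) (by simpa using h1)
    filter_upwards [h2] with s hs
    obtain ⟨u', a1, a2⟩ := hs
    exact ⟨u', a1, by simpa using a2⟩

end K1

open K1 in
theorem k1 : S_K1 := by
  intro F Fu Ft b u₁ t₁ hb hF hFu hFt h0 h1 hne
  have hFc : Continuous F := continuous_iff_continuousAt.2 (fun q => (hF q).continuousAt)
  set S : Set ℝ := {t | ∃ u, |u - u₁| ≤ (t - t₁) / b ∧ F (u, t) = 0 ∧
    b ^ 2 * Ft (u, t) ^ 2 < Fu (u, t) ^ 2} with hS
  have hπ : (0:ℝ) ≤ π := pi_pos.le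
  have hbd : ∀ t ∈ Icc t₁ (t₁ + π), (t - t₁) / b ≤ π / b := by
    intro t ht
    gcongr
    linarith [ht.2]
  have hmain : Icc t₁ (t₁ + π) ⊆ S := by
    refine IsClosed.Icc_subset_of_forall_exists_gt ?_ ?_ ?_
    · set K : Set (ℝ × ℝ) := {q | |q.1 - u₁| ≤ (q.2 - t₁) / b ∧ F q = 0 ∧
        b ^ 2 * Ft q ^ 2 ≤ Fu q ^ 2 ∧ t₁ ≤ q.2 ∧ q.2 ≤ t₁ + π} with hK
      have hKc : IsClosed K := by
        have c1 : IsClosed {q : ℝ × ℝ | |q.1 - u₁| ≤ (q.2 - t₁) / b} :=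
          isClosed_le (by fun_prop) (by fun_prop)
        have c2 : IsClosed {q : ℝ × ℝ | F q = 0} := isClosed_eq hFc continuous_const
        have c3 : IsClosed {q : ℝ × ℝ | b ^ 2 * Ft q ^ 2 ≤ Fu q ^ 2} :=
          isClosed_le (continuous_const.mul (hFt.pow 2)) (hFu.pow 2)
        have c4 : IsClosed {q : ℝ × ℝ | t₁ ≤ q.2} := isClosed_le continuous_const continuous_snd
        have c5 : IsClosed {q : ℝ × ℝ | q.2 ≤ t₁ + π} := isClosed_le continuous_snd continuous_const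
        exact c1.inter (c2.inter (c3.inter (c4.inter c5)))
      have hKb : K ⊆ Icc (u₁ - π / b) (u₁ + π / b) ×ˢ Icc t₁ (t₁ + π) := by
        intro q hq
        obtain ⟨a1, _, _, a4, a5⟩ := hq
        have a6 := a1.trans (hbd q.2 ⟨a4, a5⟩)
        rw [abs_le] at a6
        exact ⟨⟨by linarith, by linarith⟩, ⟨a4, a5⟩⟩
      have hKK : IsCompact K := (isCompact_Icc.prod isCompact_Icc).of_isClosed_subset hKc hKb
      have hE : S ∩ Icc t₁ (t₁ + π) = Prod.snd '' K := by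
        ext t
        constructor
        · rintro ⟨⟨u, a1, a2, a3⟩, a4⟩
          exact ⟨(u, t), ⟨a1, a2, a3.le, a4.1, a4.2⟩, rfl⟩
        · rintro ⟨⟨u, t'⟩, ⟨a1, a2, a3, a4, a5⟩, rfl⟩
          refine ⟨⟨u, a1, a2, lt_of_le_of_ne a3 ?_⟩, a4, a5⟩
          intro h
          exact hne u t' (a1.trans (hbd t' ⟨a4, a5⟩)) ⟨a4, a5⟩ a2 h.symm
      rw [hE]
      exact (hKK.image continuous_snd).isClosed
    · exact ⟨u₁, by simp, h0, h1⟩
    · rintro t ⟨⟨u, a1, a2, a3⟩, a4⟩ y hy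
      have hy' : t < y := hy
      have b1 := step F Fu Ft hF u t b hb a2 a3
      have b2 : ∀ᶠ q in 𝓝 (u, t), b ^ 2 * Ft q ^ 2 < Fu q ^ 2 := by
        have c1 : ContinuousAt (fun q => b ^ 2 * Ft q ^ 2) (u, t) :=
          (continuous_const.mul (hFt.pow 2)).continuousAt
        have c2 : ContinuousAt (fun q => Fu q ^ 2) (u, t) := (hFu.pow 2).continuousAt
        exact c1.eventually_lt c2 a3
      obtain ⟨δ, hδ, hδ'⟩ := Metric.eventually_nhds_iff.1 b2
      have b3 : ∀ᶠ h in 𝓝[>] (0:ℝ), h < δ := by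
        filter_upwards [Ioo_mem_nhdsGT hδ] with h hh using hh.2
      have b4 : ∀ᶠ h in 𝓝[>] (0:ℝ), h < δ * b := by
        filter_upwards [Ioo_mem_nhdsGT (mul_pos hδ hb)] with h hh using hh.2
      have b5 : ∀ᶠ h in 𝓝[>] (0:ℝ), h < y - t := by
        filter_upwards [Ioo_mem_nhdsGT (sub_pos.2 hy')] with h hh using hh.2
      have b6 : ∀ᶠ h in 𝓝[>] (0:ℝ), 0 < h := self_mem_nhdsWithin
      obtain ⟨h, ⟨u', d1, d2⟩, d3, d4, d5, d6⟩ := (b1.and (b3.and (b4.and (b5.and b6)))).exists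
      refine ⟨t + h, ⟨u', ?_, d2, ?_⟩, ⟨by linarith, by linarith⟩⟩
      · have e1 : |u' - u₁| ≤ |u' - u| + |u - u₁| := by
          have := abs_add_le (u' - u) (u - u₁)
          simpa using this
        have e2 : (t + h - t₁) / b = h / b + (t - t₁) / b := by ring
        rw [e2]
        linarith
      · apply hδ'
        rw [Prod.dist_eq, max_lt_iff, Real.dist_eq, Real.dist_eq]
        refine ⟨lt_of_le_of_lt d1 ?_, ?_⟩
        · rw [div_lt_iff₀ hb]
          exact d4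
        · simp only [add_sub_cancel_left]
          rw [abs_of_pos d6]
          exact d3
  intro t ht
  obtain ⟨u, a1, a2, _⟩ := hmain ht
  exact ⟨u, a1.trans (hbd t ht), a2⟩

end

end Pool.Agent.H709U
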