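import Pool.Agent.H709U.Defs

open Real Set MeasureTheory Topology Filter
open scoped ENNReal

namespace Pool.Agent.H709U

open Pool.Agent.H709R2 (rot wedge field ClosedOrbit divW winv)

namespace K2

theorem trap (y y' s : ℝ → ℝ) (hy : ∀ t, HasDerivAt y (y' t) t) (hs : Continuous s)
    (h0 : ∀ t, y t ≤ 0 → s t ≠ 0) (h1 : ∀ t, y t = 0 → s t < 0 → y' t < 0) (t0 : ℝ)
    (hy0 : y t0 ≤ 0) (hs0 : s t0 < 0) : ∀ t, t0 ≤ t → y t ≤ 0 := by
  intro t ht
  have hyc : Continuous y := continuous_iff_continuousAt.mpr (fun t => (hy t).continuousAt)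
  have hcl : IsClosed {t | y t ≤ 0 ∧ s t ≤ 0} :=
    (isClosed_le hyc continuous_const).inter (isClosed_le hs continuous_const)
  have hsub : Icc t0 t ⊆ {t | y t ≤ 0 ∧ s t ≤ 0} := by
    apply IsClosed.Icc_subset_of_forall_mem_nhdsWithin (hcl.inter isClosed_Icc) ⟨hy0, hs0.le⟩
    rintro x ⟨⟨hx1, hx2⟩, -⟩
    have hx3 : s x < 0 := lt_of_le_of_ne hx2 (h0 x hx1)
    have e1 : ∀ᶠ u in 𝓝[>] x, s u < 0 :=
      nhdsWithin_le_nhds (hs.continuousAt.eventually_lt continuousAt_const hx3)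
    have e2 : ∀ᶠ u in 𝓝[>] x, y u ≤ 0 := by
      rcases lt_or_eq_of_le hx1 with h | h
      · exact nhdsWithin_le_nhds
          ((hyc.continuousAt.eventually_lt continuousAt_const h).mono (fun u hu => hu.le))
      · have h2 := h1 x h hx3
        have h3 := (hasDerivAt_iff_tendsto_slope.mp (hy x)).eventually (gt_mem_nhds h2)
        have h4 : ∀ᶠ u in 𝓝[>] x, slope y x u < 0 :=
          h3.filter_mono (nhdsWithin_mono x (fun u hu => ne_of_gt hu))
        filter_upwards [h4, self_mem_nhdsWithin] with u hu hu2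
        have hu3 : 0 < u - x := sub_pos.mpr hu2
        rw [slope_def_field, h, sub_zero, div_lt_iff₀ hu3, zero_mul] at hu
        exact hu.le
    filter_upwards [e1, e2] with u hu1 hu2
    exact ⟨hu2, hu1.le⟩
  exact (hsub (right_mem_Icc.mpr ht)).1

theorem identity (c s v1 v2 x1 x2 a b e f : ℝ) (hcs : c ^ 2 + s ^ 2 = 1) :
    -- Y = rot X, D(1,0) = (a,e), D(0,1) = (b,f)
    let Y1 := c * x1 - s * x2
    let Y2 := s * x1 + c * x2
    let D1 := a * Y1 + b * Y2
    let D2 := e * Y1 + f * Y2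
    let W := v1 * Y1 + v2 * Y2
    let V := v1 * Y2 - v2 * Y1
    let V' := v1 * (s * D1 + c * D2) - v2 * (c * D1 - s * D2)
    let W' := (Y1 ^ 2 + Y2 ^ 2) + (v1 * (c * D1 - s * D2) + v2 * (s * D1 + c * D2))
    let A0 := x1 * (e * v1 + f * v2) - x2 * (a * v1 + b * v2)
    let B0 := (x1 * (e * (-v2) + f * v1) - x2 * (a * (-v2) + b * v1)) - (x1 ^ 2 + x2 ^ 2)
    W * V' - V * W' = W * A0 + V * B0 := by
  intro Y1 Y2 D1 D2 W V V' W' A0 B0
  have h1 : W * V' - V * W' = (v1 ^ 2 + v2 ^ 2) * (Y1 * (s * D1 + c * D2) - Y2 * (c * D1 - s * D2)) -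
      V * (Y1 ^ 2 + Y2 ^ 2) := by
    simp only [W, V, V', W']; ring
  have h2 : Y1 * (s * D1 + c * D2) - Y2 * (c * D1 - s * D2) = x1 * D2 - x2 * D1 := by
    simp only [Y1, Y2]
    linear_combination (x1 * D2 - x2 * D1) * hcs
  have h3 : Y1 ^ 2 + Y2 ^ 2 = x1 ^ 2 + x2 ^ 2 := by
    simp only [Y1, Y2]
    linear_combination (x1 ^ 2 + x2 ^ 2) * hcs
  have h4 : (v1 ^ 2 + v2 ^ 2) * (x1 * D2 - x2 * D1) = W * (x1 * (e * v1 + f * v2) -
      x2 * (a * v1 + b * v2)) + V * (x1 * (e * (-v2) + f * v1) - x2 * (a * (-v2) + b * v1)) := by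
    simp only [W, V, D1, D2]; ring
  rw [h1, h2, h3, h4]
  simp only [A0, B0]; ring

end K2

open K2 in
theorem k2 : S_K2 := by
  intro X hX p α b x hb hbx γ T hO hp hband
  have hx : 0 < x := lt_of_lt_of_le hb hbx
  have hXd : ∀ z, HasFDerivAt X (fderiv ℝ X z) z := fun z =>
    (hX.differentiable (by norm_num) z).hasFDerivAt
  -- the derivative of X along the orbit
  have hode : ∀ t, HasDerivAt γ (rf X α (γ t)) t := hO.ode
  set D : ℝ → ℝ × ℝ := fun t => fderiv ℝ X (γ t) (rf X α (γ t)) with hD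
  have hXγ : ∀ t, HasDerivAt (fun t => X (γ t)) (D t) t := fun t =>
    (hXd (γ t)).comp_hasDerivAt t (hode t)
  set V' : ℝ → ℝ := fun t => (γ t - p).1 * (sin α * (D t).1 + cos α * (D t).2) -
    (γ t - p).2 * (cos α * (D t).1 - sin α * (D t).2) with hV'
  set W' : ℝ → ℝ := fun t => ((cos α * (X (γ t)).1 - sin α * (X (γ t)).2) ^ 2 +
      (sin α * (X (γ t)).1 + cos α * (X (γ t)).2) ^ 2) +
    ((γ t - p).1 * (cos α * (D t).1 - sin α * (D t).2) +
    (γ t - p).2 * (sin α * (D t).1 + cos α * (D t).2)) with hW'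
  have hfst : ∀ (g : ℝ → ℝ × ℝ) (g' : ℝ × ℝ) (t : ℝ), HasDerivAt g g' t →
      HasDerivAt (fun t => (g t).1) g'.1 t := fun g g' t h =>
    (hasFDerivAt_fst (𝕜 := ℝ) (p := g t)).comp_hasDerivAt t h
  have hsnd : ∀ (g : ℝ → ℝ × ℝ) (g' : ℝ × ℝ) (t : ℝ), HasDerivAt g g' t →
      HasDerivAt (fun t => (g t).2) g'.2 t := fun g g' t h =>
    (hasFDerivAt_snd (𝕜 := ℝ) (p := g t)).comp_hasDerivAt t h
  have hγp : ∀ t, HasDerivAt (fun t => γ t - p) (rf X α (γ t)) t := fun t => (hode t).sub_const p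
  have hVd : ∀ t, HasDerivAt (fun t => V X p α (γ t)) (V' t) t := by
    intro t
    have e1 := hfst _ _ t (hγp t)
    have e2 := hsnd _ _ t (hγp t)
    have e3 := hfst _ _ t (hXγ t)
    have e4 := hsnd _ _ t (hXγ t)
    have h := (e1.mul ((e3.const_mul (sin α)).add (e4.const_mul (cos α)))).sub
      (e2.mul ((e3.const_mul (cos α)).sub (e4.const_mul (sin α))))
    refine (h.congr_of_eventuallyEq (Eventually.of_forall (fun u => ?_))).congr_deriv ?_
    · simp only [V, wedge, rot, Pi.mul_apply, Pi.sub_apply, Pi.add_apply]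
    · simp only [hV', rf, rot, Pi.sub_apply, Pi.add_apply]
      ring
  have hWd : ∀ t, HasDerivAt (fun t => W X p α (γ t)) (W' t) t := by
    intro t
    have e1 := hfst _ _ t (hγp t)
    have e2 := hsnd _ _ t (hγp t)
    have e3 := hfst _ _ t (hXγ t)
    have e4 := hsnd _ _ t (hXγ t)
    have h := (e1.mul ((e3.const_mul (cos α)).sub (e4.const_mul (sin α)))).add
      (e2.mul ((e3.const_mul (sin α)).add (e4.const_mul (cos α))))
    refine (h.congr_of_eventuallyEq (Eventually.of_forall (fun u => ?_))).congr_deriv ?_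
    · simp only [W, dot, rot, Pi.mul_apply, Pi.sub_apply, Pi.add_apply]
    · simp only [hW', rf, rot, Pi.sub_apply, Pi.add_apply]
      ring
  have hcs : cos α ^ 2 + sin α ^ 2 = 1 := by rw [add_comm]; exact sin_sq_add_cos_sq α
  have hid : ∀ t, W X p α (γ t) * V' t - V X p α (γ t) * W' t =
      W X p α (γ t) * A0 X p (γ t) + V X p α (γ t) * B0 X p (γ t) := by
    intro t
    set L := fderiv ℝ X (γ t) with hL
    have hLd : ∀ u : ℝ × ℝ, L u = (u.1 * (L (1, 0)).1 + u.2 * (L (0, 1)).1,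
        u.1 * (L (1, 0)).2 + u.2 * (L (0, 1)).2) := by
      intro u
      have h1 : u = u.1 • ((1 : ℝ), (0 : ℝ)) + u.2 • ((0 : ℝ), (1 : ℝ)) := by ext <;> simp
      conv_lhs => rw [h1]
      rw [map_add, map_smul, map_smul]
      ext <;> simp
    have h := identity (cos α) (sin α) (γ t - p).1 (γ t - p).2 (X (γ t)).1 (X (γ t)).2
      (L (1, 0)).1 (L (0, 1)).1 (L (1, 0)).2 (L (0, 1)).2 hcs
    have hDt : D t = L (rf X α (γ t)) := rfl
    simp only [V, W, wedge, dot, hV', hW', A0, B0, H709R2.sq, ← hL, hDt]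
    rw [hLd (rf X α (γ t)), hLd (γ t - p), hLd (J (γ t - p))]
    simp only [rf, rot, J]
    simp only at h
    linear_combination h
  have hqpos : ∀ t, 0 < V X p α (γ t) ^ 2 + W X p α (γ t) ^ 2 := by
    intro t
    have h1 : V X p α (γ t) ^ 2 + W X p α (γ t) ^ 2 =
        ((γ t - p).1 ^ 2 + (γ t - p).2 ^ 2) * ((rf X α (γ t)).1 ^ 2 + (rf X α (γ t)).2 ^ 2) := by
      simp only [V, W, wedge, dot, rf]; ring
    rw [h1]
    have hne : ∀ a : ℝ × ℝ, a ≠ 0 → 0 < a.1 ^ 2 + a.2 ^ 2 := by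
      intro a ha
      by_contra hcon
      push Not at hcon
      apply ha
      have h2 : a.1 = 0 := by nlinarith [sq_nonneg a.1, sq_nonneg a.2]
      have h3 : a.2 = 0 := by nlinarith [sq_nonneg a.1, sq_nonneg a.2]
      exact Prod.ext h2 h3
    exact mul_pos (hne _ (sub_ne_zero.mpr (hp t))) (hne _ (hO.ne t))
  -- the function y and the sign function s
  set y : ℝ → ℝ := fun t => V X p α (γ t) ^ 2 - x ^ 2 * W X p α (γ t) ^ 2 with hy
  set y' : ℝ → ℝ := fun t => 2 * (V X p α (γ t) * V' t - x ^ 2 * (W X p α (γ t) * W' t)) with hy'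
  have hyd : ∀ t, HasDerivAt y (y' t) t := by
    intro t
    have h := ((hVd t).mul (hVd t)).sub (((hWd t).mul (hWd t)).const_mul (x ^ 2))
    refine (h.congr_of_eventuallyEq (Eventually.of_forall (fun u => ?_))).congr_deriv ?_
    · simp only [hy, Pi.mul_apply, Pi.sub_apply]; ring
    · simp only [hy']; ring
  have hγc : Continuous γ := continuous_iff_continuousAt.mpr (fun t => (hode t).continuousAt)
  set s : ℝ → ℝ := fun t => W X p α (γ t) * B0 X p (γ t) with hs
  have hXc : Continuous X := hX.continuous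
  have hfc : Continuous (fun z => fderiv ℝ X z) := hX.continuous_fderiv (by norm_num)
  have hsc : Continuous s := by
    have c1 : Continuous (fun t => W X p α (γ t)) :=
      continuous_iff_continuousAt.mpr (fun t => (hWd t).continuousAt)
    have c2 : Continuous (fun t => fderiv ℝ X (γ t) (J (γ t - p))) := by
      apply (hfc.comp hγc).clm_apply
      unfold J
      exact ((hγc.sub continuous_const).snd.neg).prodMk (hγc.sub continuous_const).fst
    have c3 : Continuous (fun t => X (γ t)) := hXc.comp hγc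
    apply c1.mul
    unfold B0 wedge H709R2.sq
    exact ((c3.fst.mul c2.snd).sub (c3.snd.mul c2.fst)).sub ((c3.fst.pow 2).add (c3.snd.pow 2))
  have hW0 : ∀ t, y t ≤ 0 → W X p α (γ t) ≠ 0 := by
    intro t ht h0
    have h1 := hqpos t
    simp only [hy, h0] at ht h1
    nlinarith
  have hB0 : ∀ t, y t ≤ 0 → B0 X p (γ t) ≠ 0 := by
    intro t ht h0
    have h1 := hband t (by simp only [hy] at ht; linarith)
    rw [h0] at h1
    nlinarith [sq_nonneg (A0 X p (γ t))]
  have hs0 : ∀ t, y t ≤ 0 → s t ≠ 0 := fun t ht => mul_ne_zero (hW0 t ht) (hB0 t ht)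
  have hkey : ∀ t, y t = 0 → W X p α (γ t) ^ 2 * y' t = 2 * (W X p α (γ t) ^ 2 *
      (V X p α (γ t) * A0 X p (γ t)) + V X p α (γ t) ^ 2 * s t) ∧
      |W X p α (γ t) ^ 2 * (V X p α (γ t) * A0 X p (γ t))| < V X p α (γ t) ^ 2 * |s t| := by
    intro t ht
    have hVW : V X p α (γ t) ^ 2 = x ^ 2 * W X p α (γ t) ^ 2 := by
      simp only [hy] at ht; linarith
    constructor
    · have := hid t
      simp only [hy', hs]
      linear_combination (2 * V X p α (γ t) * W X p α (γ t)) * this +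
        (2 * W X p α (γ t) * W' t) * hVW
    · have hW1 := hW0 t ht.le
      have hB1 := hB0 t ht.le
      have hWp : 0 < |W X p α (γ t)| := abs_pos.mpr hW1
      have hBp : 0 < |B0 X p (γ t)| := abs_pos.mpr hB1
      have hVa : |V X p α (γ t)| = x * |W X p α (γ t)| := by
        have h1 : |V X p α (γ t)| ^ 2 = (x * |W X p α (γ t)|) ^ 2 := by
          rw [sq_abs, mul_pow, sq_abs]; exact hVW
        exact (pow_left_inj₀ (abs_nonneg _) (by positivity) two_ne_zero).mp h1
      have hVp : 0 < |V X p α (γ t)| := by rw [hVa]; positivity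
      have hA : |A0 X p (γ t)| < b * |B0 X p (γ t)| := by
        have h1 := hband t hVW.le
        have h2 : |A0 X p (γ t)| ^ 2 < (b * |B0 X p (γ t)|) ^ 2 := by
          rw [sq_abs, mul_pow, sq_abs]; exact h1
        exact lt_of_pow_lt_pow_left₀ 2 (by positivity) h2
      rw [abs_mul, abs_mul, abs_pow, hs, abs_mul, ← sq_abs (V X p α (γ t))]
      calc |W X p α (γ t)| ^ 2 * (|V X p α (γ t)| * |A0 X p (γ t)|)
          < |W X p α (γ t)| ^ 2 * (|V X p α (γ t)| * (b * |B0 X p (γ t)|)) := by gcongr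
        _ ≤ |W X p α (γ t)| ^ 2 * (|V X p α (γ t)| * (x * |B0 X p (γ t)|)) := by gcongr
        _ = |V X p α (γ t)| * (x * |W X p α (γ t)|) * (|W X p α (γ t)| * |B0 X p (γ t)|) := by
            ring
        _ = |V X p α (γ t)| ^ 2 * (|W X p α (γ t)| * |B0 X p (γ t)|) := by rw [← hVa]; ring
  have hneg : ∀ t, y t = 0 → s t < 0 → y' t < 0 := by
    intro t ht hst
    obtain ⟨h1, h2⟩ := hkey t ht
    rw [abs_of_neg hst] at h2
    have h3 := (abs_lt.mp h2).2
    have hWp : 0 < W X p α (γ t) ^ 2 := by have := hW0 t ht.le; positivity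
    by_contra hcon
    push Not at hcon
    have h4 : 0 ≤ W X p α (γ t) ^ 2 * y' t := mul_nonneg hWp.le hcon
    linarith
  have hpos : ∀ t, y t = 0 → 0 < s t → 0 < y' t := by
    intro t ht hst
    obtain ⟨h1, h2⟩ := hkey t ht
    rw [abs_of_pos hst] at h2
    have h3 := (abs_lt.mp h2).1
    have hWp : 0 < W X p α (γ t) ^ 2 := by have := hW0 t ht.le; positivity
    by_contra hcon
    push Not at hcon
    have h4 : W X p α (γ t) ^ 2 * y' t ≤ 0 := mul_nonpos_of_nonneg_of_nonpos hWp.le hcon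
    linarith
  -- Rolle
  have hsqd : ∀ t, HasDerivAt (fun t => (γ t - p).1 ^ 2 + (γ t - p).2 ^ 2)
      (2 * W X p α (γ t)) t := by
    intro t
    have e1 := hfst _ _ t (hγp t)
    have e2 := hsnd _ _ t (hγp t)
    have h := (e1.mul e1).add (e2.mul e2)
    refine (h.congr_of_eventuallyEq (Eventually.of_forall (fun u => ?_))).congr_deriv ?_
    · simp only [Pi.mul_apply, Pi.add_apply]; ring
    · simp only [W, dot, rf]; ring
  have hrolle : ∀ u, ∃ t ∈ Ioo u (u + T), W X p α (γ t) = 0 := by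
    intro u
    obtain ⟨c, hc, hc2⟩ := exists_hasDerivAt_eq_zero
      (f := fun t => (γ t - p).1 ^ 2 + (γ t - p).2 ^ 2) (f' := fun t => 2 * W X p α (γ t))
      (show u < u + T by linarith [hO.pos])
      (fun t _ => (hsqd t).continuousAt.continuousWithinAt)
      (by simp only [hO.per u])
      (fun t _ => hsqd t)
    exact ⟨c, hc, by linarith⟩
  -- conclusion
  intro t0
  by_contra hcon
  push Not at hcon
  have hy0 : y t0 ≤ 0 := by simp only [hy]; linarith
  rcases lt_or_gt_of_ne (hs0 t0 hy0) with hst | hst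
  · have h1 := trap y y' s hyd hsc hs0 hneg t0 hy0 hst
    obtain ⟨t, ht, ht2⟩ := hrolle t0
    exact hW0 t (h1 t ht.1.le) ht2
  · have h1 := trap (fun t => y (-t)) (fun t => -(y' (-t))) (fun t => -(s (-t)))
      (fun t => by
        have h := (hyd (-t)).comp t (hasDerivAt_neg t)
        exact h.congr_deriv (by ring))
      (hsc.comp continuous_neg).neg
      (fun t ht => neg_ne_zero.mpr (hs0 (-t) ht))
      (fun t ht hst => neg_lt_zero.mpr (hpos (-t) ht (by linarith)))
      (-t0) (by simpa using hy0) (by simpa using hst)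
    obtain ⟨t, ht, ht2⟩ := hrolle (t0 - T)
    have h2 := h1 (-t) (by have := ht.2; linarith)
    simp only [neg_neg] at h2
    exact hW0 t h2 ht2

end Pool.Agent.H709U
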