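import Pool.Agent.H709U.Defs

namespace Pool.Agent.H709U

open Pool.Agent.H709R2 (rot wedge)

namespace K3

theorem hasFDerivAt_V {X : ℝ × ℝ → ℝ × ℝ} {X' : ℝ × ℝ →L[ℝ] ℝ × ℝ} {z : ℝ × ℝ}
    (hX : HasFDerivAt X X' z) (p : ℝ × ℝ) (α : ℝ) (w : ℝ × ℝ) :
    fderiv ℝ (V X p α) z w = wedge w (rot α (X z)) + wedge (z - p) (rot α (X' w)) := by
  have h1 : HasFDerivAt (fun z : ℝ × ℝ => z.1 - p.1) (ContinuousLinearMap.fst ℝ ℝ ℝ) z :=
    (hasFDerivAt_fst (𝕜 := ℝ) (p := z)).sub_const _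
  have h2 : HasFDerivAt (fun z : ℝ × ℝ => z.2 - p.2) (ContinuousLinearMap.snd ℝ ℝ ℝ) z :=
    (hasFDerivAt_snd (𝕜 := ℝ) (p := z)).sub_const _
  have hX1 : HasFDerivAt (fun z => (X z).1) ((ContinuousLinearMap.fst ℝ ℝ ℝ).comp X') z :=
    hX.fst
  have hX2 : HasFDerivAt (fun z => (X z).2) ((ContinuousLinearMap.snd ℝ ℝ ℝ).comp X') z :=
    hX.snd
  have hV : HasFDerivAt (V X p α) _ z :=
    (h1.mul ((hX1.const_mul (Real.sin α)).add (hX2.const_mul (Real.cos α)))).sub
      (h2.mul ((hX1.const_mul (Real.cos α)).sub (hX2.const_mul (Real.sin α))))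
  rw [hV.fderiv]
  simp only [wedge, rot, sub_apply, add_apply, Pi.add_apply,
    smul_apply, ContinuousLinearMap.comp_apply, ContinuousLinearMap.coe_fst',
    ContinuousLinearMap.coe_snd', smul_eq_mul, Prod.fst_sub, Prod.snd_sub]
  ring

end K3

theorem k3 : S_K3 := by
  intro X hX p z α hzp hXz hV
  have hXd : HasFDerivAt X (fderiv ℝ X z) z :=
    ((hX.differentiable (by norm_num)) z).hasFDerivAt
  set v : ℝ × ℝ := z - p with hv
  have hv0 : v ≠ 0 := sub_ne_zero.mpr hzp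
  set x : ℝ × ℝ := X z with hx
  have hsv : 0 < H709R2.sq v := by
    unfold H709R2.sq
    by_contra hc
    apply hv0
    have h1 : v.1 = 0 := by nlinarith [sq_nonneg v.1, sq_nonneg v.2]
    have h2 : v.2 = 0 := by nlinarith [sq_nonneg v.1, sq_nonneg v.2]
    exact Prod.ext h1 h2
  have hsx : 0 < H709R2.sq x := by
    unfold H709R2.sq
    by_contra hc
    apply hXz
    have h1 : x.1 = 0 := by nlinarith [sq_nonneg x.1, sq_nonneg x.2]
    have h2 : x.2 = 0 := by nlinarith [sq_nonneg x.1, sq_nonneg x.2]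
    exact Prod.ext h1 h2
  have hcs : Real.sin α ^ 2 + Real.cos α ^ 2 = 1 := Real.sin_sq_add_cos_sq α
  have hV' : wedge v (rot α x) = 0 := hV
  obtain ⟨μ, hμ1, hμ2⟩ : ∃ μ : ℝ, (rot α x).1 = μ * v.1 ∧ (rot α x).2 = μ * v.2 := by
    refine ⟨(v.1 * (rot α x).1 + v.2 * (rot α x).2) / H709R2.sq v, ?_, ?_⟩
    · rw [div_mul_eq_mul_div, eq_div_iff hsv.ne']
      unfold wedge at hV'
      unfold H709R2.sq
      linear_combination (-v.2) * hV'
    · rw [div_mul_eq_mul_div, eq_div_iff hsv.ne']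
      unfold wedge at hV'
      unfold H709R2.sq
      linear_combination (v.1) * hV'
  have hsq : H709R2.sq x = μ ^ 2 * H709R2.sq v := by
    have : H709R2.sq (rot α x) = H709R2.sq x := by
      unfold H709R2.sq rot
      simp only
      linear_combination (x.1 ^ 2 + x.2 ^ 2) * hcs
    rw [← this]
    unfold H709R2.sq
    rw [hμ1, hμ2]
    ring
  have hμ0 : μ ≠ 0 := by
    rintro rfl
    rw [hsq] at hsx
    simp at hsx
  have hww : ∀ y : ℝ × ℝ, μ * wedge v (rot α y) = wedge x y := by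
    intro y
    have h1 : wedge (rot α x) (rot α y) = wedge x y := by
      unfold wedge rot
      simp only
      linear_combination (x.1 * y.2 - x.2 * y.1) * hcs
    rw [← h1]
    unfold wedge
    rw [hμ1, hμ2]
    ring
  refine ⟨(μ⁻¹) ^ 2, by positivity, ?_, ?_⟩
  · rw [K3.hasFDerivAt_V hXd p α, hV', zero_add]
    have h := hww (fderiv ℝ X z v)
    have h2 : wedge v (rot α (fderiv ℝ X z v)) = μ⁻¹ * wedge x (fderiv ℝ X z v) := by
      rw [← h, ← mul_assoc, inv_mul_cancel₀ hμ0, one_mul]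
    rw [h2]
    unfold A0
    rw [← hx, ← hv]
    ring
  · rw [K3.hasFDerivAt_V hXd p α]
    have h := hww (fderiv ℝ X z (J v))
    have h2 : wedge v (rot α (fderiv ℝ X z (J v))) = μ⁻¹ * wedge x (fderiv ℝ X z (J v)) := by
      rw [← h, ← mul_assoc, inv_mul_cancel₀ hμ0, one_mul]
    have h3 : wedge (J v) (rot α (X z)) = -(μ * H709R2.sq v) := by
      rw [← hx]
      unfold wedge J H709R2.sq
      simp only
      rw [hμ1, hμ2]
      ring
    rw [h3, ← hv, h2]
    unfold B0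
    rw [← hx, ← hv, hsq]
    field_simp
    ring

end Pool.Agent.H709U
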