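import Pool.Agent.H709U.Defs

/-! Task K4: polynomial representations. -/

open Real Set MeasureTheory Topology Filter
open scoped ENNReal

namespace Pool.Agent.H709U

noncomputable section

open Pool.Agent.H709R2 (rot wedge field ClosedOrbit divW winv)
open Pool.Agent.H709Q (Maj)
open MvPolynomial (pderiv totalDegree)

theorem K4_hasFDerivAt (P : MvPolynomial (Fin 2) ℝ) (z : ℝ × ℝ) :
    HasFDerivAt (fun z : ℝ × ℝ => MvPolynomial.eval ![z.1, z.2] P)
      (MvPolynomial.eval ![z.1, z.2] (pderiv 0 P) • ContinuousLinearMap.fst ℝ ℝ ℝ +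
        MvPolynomial.eval ![z.1, z.2] (pderiv 1 P) • ContinuousLinearMap.snd ℝ ℝ ℝ) z := by
  induction P using MvPolynomial.induction_on with
  | C a =>
    simp only [MvPolynomial.eval_C, MvPolynomial.pderiv_C, map_zero, zero_smul, add_zero]
    exact hasFDerivAt_const _ _
  | add p q hp hq =>
    simp only [map_add]
    refine (hp.add hq).congr_fderiv ?_
    ext <;> simp
  | mul_X p i hp =>
    simp only [map_mul, MvPolynomial.eval_X]
    fin_cases i
    · refine (hp.mul hasFDerivAt_fst).congr_fderiv ?_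
      ext <;> simp [MvPolynomial.pderiv_X]
    · refine (hp.mul hasFDerivAt_snd).congr_fderiv ?_
      ext <;> simp [MvPolynomial.pderiv_X]

theorem K4_fderiv_field (P Q : MvPolynomial (Fin 2) ℝ) (z v : ℝ × ℝ) :
    fderiv ℝ (field P Q) z v =
      (MvPolynomial.eval ![z.1, z.2] (pderiv 0 P) * v.1 +
        MvPolynomial.eval ![z.1, z.2] (pderiv 1 P) * v.2,
       MvPolynomial.eval ![z.1, z.2] (pderiv 0 Q) * v.1 +
        MvPolynomial.eval ![z.1, z.2] (pderiv 1 Q) * v.2) := by
  have h : HasFDerivAt (field P Q) _ z := (K4_hasFDerivAt P z).prodMk (K4_hasFDerivAt Q z)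
  rw [h.fderiv]
  simp

theorem K4_degree {n : ℕ} (F L : MvPolynomial (Fin 2) ℝ) (hF : F.totalDegree ≤ n)
    (hL : L.totalDegree ≤ 1) (i : Fin 2) : (L * pderiv i F).totalDegree ≤ n := by
  have h1 : L * pderiv i F = ∑ v ∈ F.support,
      L * MvPolynomial.monomial (v - Finsupp.single i 1) (MvPolynomial.coeff v F * (v i : ℝ)) := by
    conv_lhs => rw [F.as_sum]
    rw [map_sum, Finset.mul_sum]
    simp only [MvPolynomial.pderiv_monomial]
  rw [h1]
  refine MvPolynomial.totalDegree_finsetSum_le fun v hv => ?_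
  by_cases hvi : v i = 0
  · rw [hvi]
    simp
  · refine (MvPolynomial.totalDegree_mul _ _).trans ?_
    have h2 : (MvPolynomial.monomial (v - Finsupp.single i 1)
        (MvPolynomial.coeff v F * (v i : ℝ))).totalDegree ≤
        (v - Finsupp.single i 1).sum fun _ e => e := MvPolynomial.totalDegree_monomial_le _ _
    have h3 : (v.sum fun _ e => e) ≤ n := (MvPolynomial.le_totalDegree hv).trans hF
    have h4 : (v - Finsupp.single i 1) + Finsupp.single i 1 = v := by
      ext j
      simp only [Finsupp.coe_add, Finsupp.coe_tsub, Pi.add_apply, Pi.sub_apply]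
      by_cases hj : i = j
      · subst hj
        simp only [Finsupp.single_eq_same]
        omega
      · rw [Finsupp.single_apply, if_neg hj]
        omega
    have h5 : (v.sum fun _ e => e) = ((v - Finsupp.single i 1).sum fun _ e => e) + 1 := by
      conv_lhs => rw [← h4]
      rw [Finsupp.sum_add_index' (fun _ => rfl) (fun _ _ _ => rfl), Finsupp.sum_single_index rfl]
    omega

theorem K4_lin (i : Fin 2) (c : ℝ) :
    (MvPolynomial.X i - MvPolynomial.C c : MvPolynomial (Fin 2) ℝ).totalDegree ≤ 1 := by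
  refine (MvPolynomial.totalDegree_sub _ _).trans ?_
  rw [MvPolynomial.totalDegree_X, MvPolynomial.totalDegree_C]
  norm_num

theorem K4_mul {a b : MvPolynomial (Fin 2) ℝ} {m n k : ℕ} (ha : a.totalDegree ≤ m)
    (hb : b.totalDegree ≤ n) (hk : m + n ≤ k) : (a * b).totalDegree ≤ k :=
  (MvPolynomial.totalDegree_mul _ _).trans ((add_le_add ha hb).trans hk)

theorem K4_add {a b : MvPolynomial (Fin 2) ℝ} {n : ℕ} (ha : a.totalDegree ≤ n)
    (hb : b.totalDegree ≤ n) : (a + b).totalDegree ≤ n :=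
  (MvPolynomial.totalDegree_add _ _).trans (max_le ha hb)

theorem K4_sub {a b : MvPolynomial (Fin 2) ℝ} {n : ℕ} (ha : a.totalDegree ≤ n)
    (hb : b.totalDegree ≤ n) : (a - b).totalDegree ≤ n :=
  (MvPolynomial.totalDegree_sub _ _).trans (max_le ha hb)

theorem k4 : S_K4 := by
  intro n P Q hP hQ p
  set x : MvPolynomial (Fin 2) ℝ := MvPolynomial.X 0 - MvPolynomial.C p.1 with hx
  set y : MvPolynomial (Fin 2) ℝ := MvPolynomial.X 1 - MvPolynomial.C p.2 with hy
  have dx : x.totalDegree ≤ 1 := K4_lin 0 p.1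
  have dy : y.totalDegree ≤ 1 := K4_lin 1 p.2
  have hE : ∀ F : MvPolynomial (Fin 2) ℝ, F.totalDegree ≤ n →
      (x * pderiv 0 F + y * pderiv 1 F).totalDegree ≤ n := fun F hF =>
    K4_add (K4_degree F x hF dx 0) (K4_degree F y hF dy 1)
  have hT : ∀ F : MvPolynomial (Fin 2) ℝ, F.totalDegree ≤ n →
      (x * pderiv 1 F - y * pderiv 0 F).totalDegree ≤ n := fun F hF =>
    K4_sub (K4_degree F x hF dx 1) (K4_degree F y hF dy 0)
  refine ⟨P * (x * pderiv 0 Q + y * pderiv 1 Q) - Q * (x * pderiv 0 P + y * pderiv 1 P),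
    P * (x * pderiv 1 Q - y * pderiv 0 Q) - Q * (x * pderiv 1 P - y * pderiv 0 P) -
      (P * P + Q * Q), x * Q - y * P, x * P + y * Q, x * x + y * y, ?_, ?_, ?_, ?_, ?_, ?_⟩
  · exact K4_sub (K4_mul hP (hE Q hQ) (by omega)) (K4_mul hQ (hE P hP) (by omega))
  · exact K4_sub (K4_sub (K4_mul hP (hT Q hQ) (by omega)) (K4_mul hQ (hT P hP) (by omega)))
      (K4_add (K4_mul hP hP (by omega)) (K4_mul hQ hQ (by omega)))
  · exact K4_sub (K4_mul dx hQ (by omega)) (K4_mul dy hP (by omega))
  · exact K4_add (K4_mul dx hP (by omega)) (K4_mul dy hQ (by omega))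
  · exact K4_add (K4_mul dx dx (by omega)) (K4_mul dy dy (by omega))
  · intro z
    have ex : MvPolynomial.eval ![z.1, z.2] x = z.1 - p.1 := by simp [hx]
    have ey : MvPolynomial.eval ![z.1, z.2] y = z.2 - p.2 := by simp [hy]
    refine ⟨?_, ?_, ?_, ?_, ?_⟩
    · simp only [map_sub, map_add, map_mul, ex, ey, A0, K4_fderiv_field, wedge, field, Prod.fst_sub,
        Prod.snd_sub]
      ring
    · simp only [map_sub, map_add, map_mul, ex, ey, B0, K4_fderiv_field, wedge, field, J,
        Prod.fst_sub, Prod.snd_sub, H709R2.sq]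
      ring
    · simp only [map_sub, map_mul, ex, ey, wedge, field, Prod.fst_sub, Prod.snd_sub]
    · simp only [map_add, map_mul, ex, ey, dot, field, Prod.fst_sub, Prod.snd_sub]
    · simp only [map_add, map_mul, ex, ey, H709R2.sq, Prod.fst_sub, Prod.snd_sub]
      ring

end

end Pool.Agent.H709U
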