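import Pool.Agent.H709U.Defs

/-! K5: the degenerate case. -/

open Real Set MeasureTheory Topology Filter
open scoped ENNReal

namespace Pool.Agent.H709U

noncomputable section

open Pool.Agent.H709R2 (rot wedge field ClosedOrbit divW winv)
open Pool.Agent.H709Q (Maj)

namespace K5

/-- restriction of a polynomial to a line -/
lemma exists_line (P : MvPolynomial (Fin 2) ℝ) (z e : ℝ × ℝ) :
    ∃ R : Polynomial ℝ, ∀ t : ℝ, R.eval t =
      MvPolynomial.eval ![(z + t • e).1, (z + t • e).2] P := by
  induction P using MvPolynomial.induction_on with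
  | C a => exact ⟨Polynomial.C a, fun t => by simp⟩
  | add p q hp hq =>
    obtain ⟨A, hA⟩ := hp
    obtain ⟨B, hB⟩ := hq
    exact ⟨A + B, fun t => by rw [Polynomial.eval_add, hA, hB, map_add]⟩
  | mul_X q i hq =>
    obtain ⟨A, hA⟩ := hq
    fin_cases i
    · refine ⟨A * (Polynomial.C z.1 + Polynomial.C e.1 * Polynomial.X), fun t => ?_⟩
      rw [Polynomial.eval_mul, hA, map_mul, MvPolynomial.eval_X]
      simp
      left; ring
    · refine ⟨A * (Polynomial.C z.2 + Polynomial.C e.2 * Polynomial.X), fun t => ?_⟩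
      rw [Polynomial.eval_mul, hA, map_mul, MvPolynomial.eval_X]
      simp
      left; ring

/-- a polynomial proportional to another one, with a zero where the other one has none -/
lemma poly_zero {F H : Polynomial ℝ} (h : H * F.derivative = F * H.derivative)
    (h0 : F.eval 0 = 0) (h1 : H.eval 0 ≠ 0) : F = 0 := by
  by_contra hF
  obtain ⟨m, G, hG, hFG⟩ : ∃ (m : ℕ) (G : Polynomial ℝ), G.eval 0 ≠ 0 ∧
      F = Polynomial.X ^ m * G := by
    obtain ⟨G, hFG, hG⟩ := Polynomial.exists_eq_pow_rootMultiplicity_mul_and_not_dvd F hF 0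
    refine ⟨_, G, ?_, by simpa using hFG⟩
    intro hc
    exact hG (Polynomial.dvd_iff_isRoot.mpr hc)
  rcases m with _ | m
  · rw [pow_zero, one_mul] at hFG
    rw [hFG] at h0
    exact hG h0
  · have hX : (Polynomial.X : Polynomial ℝ) ^ m ≠ 0 := pow_ne_zero _ Polynomial.X_ne_zero
    have e1 : Polynomial.X ^ m * (H * (Polynomial.C ((m + 1 : ℕ) : ℝ) * G +
        Polynomial.X * G.derivative)) =
        Polynomial.X ^ m * (Polynomial.X * G * H.derivative) := by
      have : F.derivative = Polynomial.X ^ m * (Polynomial.C ((m + 1 : ℕ) : ℝ) * G +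
        Polynomial.X * G.derivative) := by
        rw [hFG, Polynomial.derivative_mul, Polynomial.derivative_X_pow]
        simp only [Nat.add_sub_cancel]
        ring
      rw [this, hFG] at h
      calc _ = H * (Polynomial.X ^ m * (Polynomial.C ((m + 1 : ℕ) : ℝ) * G +
            Polynomial.X * G.derivative)) := by ring
        _ = _ := h
        _ = _ := by ring
    have e2 := mul_left_cancel₀ hX e1
    have e3 := congrArg (Polynomial.eval 0) e2
    simp only [Polynomial.eval_mul, Polynomial.eval_add, Polynomial.eval_C, Polynomial.eval_X,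
      zero_mul, add_zero] at e3
    have hm : ((m + 1 : ℕ) : ℝ) ≠ 0 := by positivity
    exact (mul_ne_zero h1 (mul_ne_zero hm hG)) e3

end K5

open K5 in
theorem k5 : S_K5 := by
  intro P Q p α z hA hB hz hX hV q
  set e : ℝ × ℝ := q - z with he
  obtain ⟨P', hP'⟩ := exists_line P z e
  obtain ⟨Q', hQ'⟩ := exists_line Q z e
  set c := Real.cos α with hc
  set s := Real.sin α with hs
  have hcs : c ^ 2 + s ^ 2 = 1 := by rw [hc, hs]; exact Real.cos_sq_add_sin_sq α
  let F : Polynomial ℝ :=
    (Polynomial.C (z.1 - p.1) + Polynomial.C e.1 * Polynomial.X) *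
      (Polynomial.C s * P' + Polynomial.C c * Q') -
    (Polynomial.C (z.2 - p.2) + Polynomial.C e.2 * Polynomial.X) *
      (Polynomial.C c * P' - Polynomial.C s * Q')
  let H : Polynomial ℝ :=
    (Polynomial.C (z.1 - p.1) + Polynomial.C e.1 * Polynomial.X) *
      (Polynomial.C c * P' - Polynomial.C s * Q') +
    (Polynomial.C (z.2 - p.2) + Polynomial.C e.2 * Polynomial.X) *
      (Polynomial.C s * P' + Polynomial.C c * Q')
  have hF : ∀ t, F.eval t = V (field P Q) p α (z + t • e) := by
    intro t
    simp only [F, V, wedge, rot, field, Polynomial.eval_sub, Polynomial.eval_mul,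
      Polynomial.eval_add, Polynomial.eval_C, Polynomial.eval_X, hP', hQ', ← hc, ← hs]
    simp only [Prod.fst_sub, Prod.snd_sub, Prod.fst_add, Prod.snd_add, Prod.smul_fst,
      Prod.smul_snd, smul_eq_mul]
    ring
  have hH : ∀ t, H.eval t = W (field P Q) p α (z + t • e) := by
    intro t
    simp only [H, W, dot, rot, field, Polynomial.eval_sub, Polynomial.eval_mul,
      Polynomial.eval_add, Polynomial.eval_C, Polynomial.eval_X, hP', hQ', ← hc, ← hs]
    simp only [Prod.fst_sub, Prod.snd_sub, Prod.fst_add, Prod.snd_add, Prod.smul_fst,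
      Prod.smul_snd, smul_eq_mul]
    ring
  -- the differential identity
  have key : H * F.derivative = F * H.derivative := by
    apply Polynomial.funext
    intro t
    rw [Polynomial.eval_mul, Polynomial.eval_mul]
    set y : ℝ × ℝ := z + t • e with hy
    set D := fderiv ℝ (field P Q) y with hD
    set d : ℝ × ℝ := D e with hd
    have hl : HasDerivAt (fun t : ℝ => z + t • e) e t := by
      simpa using ((hasDerivAt_id t).smul_const e).const_add z
    have hdX : HasDerivAt (fun t : ℝ => field P Q (z + t • e)) d t :=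
      ((H709R2.contDiff_field P Q (m := 1)).differentiable (by norm_num)
        _).hasFDerivAt.comp_hasDerivAt t hl
    have hl1 : HasDerivAt (fun t : ℝ => (z + t • e).1) e.1 t :=
      (ContinuousLinearMap.fst ℝ ℝ ℝ).hasFDerivAt.comp_hasDerivAt t hl
    have hl2 : HasDerivAt (fun t : ℝ => (z + t • e).2) e.2 t :=
      (ContinuousLinearMap.snd ℝ ℝ ℝ).hasFDerivAt.comp_hasDerivAt t hl
    have hd1 : HasDerivAt (fun t : ℝ => (field P Q (z + t • e)).1) d.1 t :=
      (ContinuousLinearMap.fst ℝ ℝ ℝ).hasFDerivAt.comp_hasDerivAt t hdX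
    have hd2 : HasDerivAt (fun t : ℝ => (field P Q (z + t • e)).2) d.2 t :=
      (ContinuousLinearMap.snd ℝ ℝ ℝ).hasFDerivAt.comp_hasDerivAt t hdX
    have hFd : F.derivative.eval t = (e.1 * (s * (field P Q y).1 + c * (field P Q y).2) +
        (y.1 - p.1) * (s * d.1 + c * d.2)) - (e.2 * (c * (field P Q y).1 - s * (field P Q y).2) +
        (y.2 - p.2) * (c * d.1 - s * d.2)) := by
      refine (F.hasDerivAt t).unique ?_
      have h1 := ((hl1.sub_const p.1).mul ((hd1.const_mul s).add (hd2.const_mul c))).sub
        ((hl2.sub_const p.2).mul ((hd1.const_mul c).sub (hd2.const_mul s)))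
      refine h1.congr_of_eventuallyEq (Filter.Eventually.of_forall fun t => ?_)
      simp only [hF, V, wedge, rot, ← hc, ← hs, Pi.add_apply, Pi.sub_apply, Pi.mul_apply,
        Prod.fst_sub, Prod.snd_sub]
    have hHd : H.derivative.eval t = (e.1 * (c * (field P Q y).1 - s * (field P Q y).2) +
        (y.1 - p.1) * (c * d.1 - s * d.2)) + (e.2 * (s * (field P Q y).1 + c * (field P Q y).2) +
        (y.2 - p.2) * (s * d.1 + c * d.2)) := by
      refine (H.hasDerivAt t).unique ?_
      have h1 := ((hl1.sub_const p.1).mul ((hd1.const_mul c).sub (hd2.const_mul s))).add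
        ((hl2.sub_const p.2).mul ((hd1.const_mul s).add (hd2.const_mul c)))
      refine h1.congr_of_eventuallyEq (Filter.Eventually.of_forall fun t => ?_)
      simp only [hH, W, dot, rot, ← hc, ← hs, Pi.add_apply, Pi.sub_apply, Pi.mul_apply,
        Prod.fst_sub, Prod.snd_sub]
    have h3 : H709R2.sq (y - p) • e = dot e (y - p) • (y - p) + dot e (J (y - p)) • J (y - p) := by
      ext
      · simp only [H709R2.sq, dot, J, Prod.smul_fst, Prod.fst_add, smul_eq_mul]; ring
      · simp only [H709R2.sq, dot, J, Prod.smul_snd, Prod.snd_add, smul_eq_mul]; ring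
    have h4 : H709R2.sq (y - p) • d = dot e (y - p) • D (y - p) + dot e (J (y - p)) •
        D (J (y - p)) := by
      rw [hd, ← map_smul, h3, map_add, map_smul, map_smul]
    have hA' := hA y
    have hB' := hB y
    unfold A0 at hA'
    unfold B0 at hB'
    rw [← hD] at hA' hB'
    have h41 := congrArg Prod.fst h4
    have h42 := congrArg Prod.snd h4
    simp only [Prod.smul_fst, Prod.fst_add, Prod.smul_snd, Prod.snd_add, smul_eq_mul] at h41 h42
    have h5 : H709R2.sq (y - p) * wedge (field P Q y) d =
        dot e (J (y - p)) * H709R2.sq (field P Q y) := by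
      unfold wedge at hA' hB' ⊢
      linear_combination (field P Q y).1 * h42 - (field P Q y).2 * h41 +
        dot e (y - p) * hA' + dot e (J (y - p)) * hB'
    rw [hFd, hHd, hF, hH]
    unfold V W
    rw [← hy]
    unfold H709R2.sq wedge dot J at h5
    unfold wedge dot rot
    rw [← hc, ← hs]
    simp only [Prod.fst_sub, Prod.snd_sub] at h5 ⊢
    linear_combination (c ^ 2 + s ^ 2) * h5
  have hF0 : F.eval 0 = 0 := by rw [hF]; simpa using hV
  have hH0 : H.eval 0 ≠ 0 := by
    rw [hH]
    have e0 : z + (0 : ℝ) • e = z := by simp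
    rw [e0]
    intro hW
    have h1 : H709R2.sq (z - p) * H709R2.sq (field P Q z) =
        V (field P Q) p α z ^ 2 + W (field P Q) p α z ^ 2 := by
      unfold V W wedge dot rot H709R2.sq
      rw [← hc, ← hs]
      simp only [Prod.fst_sub, Prod.snd_sub]
      linear_combination (-((z.1 - p.1) ^ 2 + (z.2 - p.2) ^ 2) *
        ((field P Q z).1 ^ 2 + (field P Q z).2 ^ 2)) * hcs
    rw [hV, hW] at h1
    have h2 : 0 < H709R2.sq (z - p) := H709R2.sq_pos (sub_ne_zero.mpr hz)
    have h3 : 0 < H709R2.sq (field P Q z) := H709R2.sq_pos hX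
    have := mul_pos h2 h3
    rw [h1] at this
    norm_num at this
  have hFz := poly_zero key hF0 hH0
  have h1 := hF 1
  rw [hFz, Polynomial.eval_zero] at h1
  have e1 : z + (1 : ℝ) • e = q := by rw [he]; simp
  rw [e1] at h1
  exact h1.symm

end

end Pool.Agent.H709U
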