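import Pool.Agent.H709U.Defs

/-! K7: the key lemma. -/

open Real Set MeasureTheory Topology Filter
open scoped ENNReal

namespace Pool.Agent.H709U

noncomputable section

open Pool.Agent.H709R2 (rot wedge field ClosedOrbit)

lemma V_add (X : ℝ × ℝ → ℝ × ℝ) (p : ℝ × ℝ) (α β : ℝ) (z : ℝ × ℝ) :
    V X p (α + β) z = cos β * V X p α z + sin β * W X p α z := by
  unfold V W wedge dot rot
  simp only [cos_add, sin_add]
  ring

lemma V_zero (X : ℝ × ℝ → ℝ × ℝ) (p : ℝ × ℝ) (α : ℝ) (z : ℝ × ℝ) :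
    V X p α z = cos α * wedge (z - p) (X z) + sin α * dot (z - p) (X z) := by
  unfold V wedge dot rot
  simp only
  ring

lemma VW_sq (X : ℝ × ℝ → ℝ × ℝ) (p : ℝ × ℝ) (α : ℝ) (z : ℝ × ℝ) :
    V X p α z ^ 2 + W X p α z ^ 2 = H709R2.sq (z - p) * H709R2.sq (X z) := by
  have h := sin_sq_add_cos_sq α
  unfold V W wedge dot rot H709R2.sq
  simp only
  linear_combination (((z - p).1 ^ 2 + (z - p).2 ^ 2) * ((X z).1 ^ 2 + (X z).2 ^ 2)) * h

lemma norm_ee_sub (a b : ℝ) : ‖ee a - ee b‖ ≤ 2 * |a - b| := by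
  have h1 : ee a - ee b = ee b * (Complex.exp (Complex.I * ((2 * (a - b) : ℝ) : ℂ)) - 1) := by
    unfold ee
    rw [mul_sub, ← Complex.exp_add, mul_one]
    congr 2
    push_cast
    ring
  have h2 : ‖ee b‖ = 1 := by
    unfold ee
    have : (2 * b * Complex.I : ℂ) = ((2 * b : ℝ) : ℂ) * Complex.I := by push_cast; ring
    rw [this, Complex.norm_exp_ofReal_mul_I]
  rw [h1, norm_mul, h2, one_mul]
  refine (Real.norm_exp_I_mul_ofReal_sub_one_le).trans ?_
  rw [Real.norm_eq_abs, abs_mul, abs_of_pos (by norm_num : (0:ℝ) < 2)]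

lemma sq_pt (p : ℝ × ℝ) (u t : ℝ) : H709R2.sq (pt p u t - p) = exp u ^ 2 := by
  have h := sin_sq_add_cos_sq t
  unfold H709R2.sq pt
  simp only [Prod.fst_sub, Prod.snd_sub]
  linear_combination (exp u ^ 2) * h

lemma lg_pt (p : ℝ × ℝ) (u t : ℝ) : lg p (pt p u t) = u := by
  unfold lg
  rw [sq_pt, Real.log_pow, Real.log_exp]
  push_cast
  ring

lemma pt_ne (p : ℝ × ℝ) (u t : ℝ) : pt p u t ≠ p := by
  intro h
  have := sq_pt p u t
  rw [h, sub_self] at this
  have h2 : (0:ℝ) < exp u ^ 2 := by positivity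
  rw [← this] at h2
  simp [H709R2.sq] at h2

lemma exists_pt {p z : ℝ × ℝ} (h : z ≠ p) : ∃ t, z = pt p (lg p z) t := by
  set c : ℂ := ⟨z.1 - p.1, z.2 - p.2⟩ with hc
  have hc0 : c ≠ 0 := by
    intro h0
    apply h
    have h1 := congrArg Complex.re h0
    have h2 := congrArg Complex.im h0
    simp only [hc, Complex.zero_re, Complex.zero_im] at h1 h2
    ext
    · linarith
    · linarith
  have hn : ‖c‖ = exp (lg p z) := by
    have h1 : ‖c‖ ^ 2 = H709R2.sq (z - p) := by
      rw [Complex.sq_norm, Complex.normSq_apply]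
      unfold H709R2.sq
      simp only [hc, Prod.fst_sub, Prod.snd_sub]
      ring
    have h2 : 0 < ‖c‖ := norm_pos_iff.2 hc0
    unfold lg
    rw [← h1, Real.log_pow]
    push_cast
    rw [mul_div_assoc, mul_comm, div_mul_cancel₀ _ (by norm_num : (2:ℝ) ≠ 0), Real.exp_log h2]
  refine ⟨Complex.arg c, ?_⟩
  have h3 := Complex.norm_mul_cos_arg c
  have h4 := Complex.norm_mul_sin_arg c
  rw [hn] at h3 h4
  unfold pt
  ext
  · simp only [h3]
    simp [hc]
  · simp only [h4]
    simp [hc]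

lemma hasFDerivAt_V {X : ℝ × ℝ → ℝ × ℝ} (hX : ContDiff ℝ 2 X) (p : ℝ × ℝ) (α : ℝ) :
    ContDiff ℝ 2 (V X p α) := by
  unfold V wedge rot
  fun_prop

lemma hasFDerivAt_pt (p : ℝ × ℝ) (q : ℝ × ℝ) :
    HasFDerivAt (fun q : ℝ × ℝ => pt p q.1 q.2)
      ((ContinuousLinearMap.fst ℝ ℝ ℝ).smulRight (pt p q.1 q.2 - p) +
        (ContinuousLinearMap.snd ℝ ℝ ℝ).smulRight (J (pt p q.1 q.2 - p))) q := by
  have h1 : HasFDerivAt (fun q : ℝ × ℝ => q.1) (ContinuousLinearMap.fst ℝ ℝ ℝ) q := hasFDerivAt_fst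
  have h2 : HasFDerivAt (fun q : ℝ × ℝ => q.2) (ContinuousLinearMap.snd ℝ ℝ ℝ) q := hasFDerivAt_snd
  have h3 := (h1.exp.mul h2.cos).const_add p.1
  have h4 := (h1.exp.mul h2.sin).const_add p.2
  have h5 := h3.prodMk h4
  unfold pt J
  refine HasFDerivAt.congr_fderiv h5 ?_
  ext
  · simp [mul_comm]
  · simp [mul_comm]
  · simp
  · simp

lemma continuous_pt (p : ℝ × ℝ) : Continuous fun q : ℝ × ℝ => pt p q.1 q.2 := by
  unfold pt
  fun_prop

lemma continuous_J : Continuous J := by
  unfold J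
  fun_prop

lemma L0_nonneg {n : ℕ} {δ : ℝ} (hδ : 0 < δ) (hδ1 : δ ≤ 1) : 0 ≤ L0 n δ := by
  unfold L0
  have h1 : (1:ℝ) ≤ 3 / δ := by
    rw [le_div_iff₀ hδ]
    linarith
  have h2 : (1:ℝ) ≤ (3 / δ) ^ nN n := one_le_pow₀ h1
  have h3 : (1:ℝ) ≤ (nM n : ℝ) + 1 := by
    have : (0:ℝ) ≤ nM n := by positivity
    linarith
  have h4 : (1:ℝ) ≤ ((nM n : ℝ) + 1) * (3 / δ) ^ nN n := by nlinarith
  have := Real.log_nonneg h4
  positivity

lemma abs_arctan_le (x : ℝ) : |Real.arctan x| ≤ |x| := by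
  rcases le_total 0 x with h | h
  · have h1 : 0 ≤ Real.arctan x := Real.arctan_nonneg.2 h
    rw [abs_of_nonneg h1, abs_of_nonneg h]
    have := Real.le_tan h1 (Real.arctan_lt_pi_div_two x)
    rwa [Real.tan_arctan] at this
  · have h1 : 0 ≤ Real.arctan (-x) := Real.arctan_nonneg.2 (by linarith)
    have h2 : |Real.arctan x| = Real.arctan (-x) := by
      rw [Real.arctan_neg, abs_of_nonpos]
      rw [Real.arctan_neg] at h1
      linarith
    rw [h2, abs_of_nonpos h]
    have := Real.le_tan h1 (Real.arctan_lt_pi_div_two (-x))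
    rwa [Real.tan_arctan] at this

lemma exists_angle {v w x : ℝ} (hw : w ≠ 0) (hx : 0 ≤ x) (h : v ^ 2 ≤ x ^ 2 * w ^ 2) :
    ∃ β : ℝ, |β| ≤ x ∧ cos β * v + sin β * w = 0 := by
  refine ⟨-Real.arctan (v / w), ?_, ?_⟩
  · rw [abs_neg]
    refine (abs_arctan_le _).trans ?_
    apply abs_le_of_sq_le_sq _ hx
    rw [div_pow, div_le_iff₀ (by positivity)]
    exact h
  · rw [cos_neg, sin_neg, Real.sin_arctan, Real.cos_arctan]
    field_simp
    ring

/-- the common part of the two cases -/
lemma common (e4 : S_E4) {n : ℕ} {P Q K f g : MvPolynomial (Fin 2) ℝ} {p : ℝ × ℝ}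
    {Z : Finset (ℝ × ℝ)} (hZ : ∀ z, field P Q z = 0 → z ∈ Z)
    (hK : K ≠ 0) (hKd : K.totalDegree ≤ 4 * n + 1) (hf : f.totalDegree ≤ n + 1)
    (hg : g.totalDegree ≤ n + 1)
    (hfe : ∀ z : ℝ × ℝ, MvPolynomial.eval ![z.1, z.2] f = wedge (z - p) (field P Q z))
    (hge : ∀ z : ℝ × ℝ, MvPolynomial.eval ![z.1, z.2] g = dot (z - p) (field P Q z))
    {δ : ℝ} (hδ : 0 < δ) (hδ1 : δ ≤ 1) :
    ∃ (R : Finset ℂ) (S : Finset ℝ), R.card ≤ (nM n + 1) * nN n ∧
      S.card ≤ (nM n + 1) ^ 2 + Z.card ∧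
      ∀ α : ℝ, (∀ a ∈ R, 2 * δ ≤ ‖ee α - a‖) → ∀ α' : ℝ, |α' - α| ≤ δ / 2 →
        ∀ z : ℝ × ℝ, z ≠ p → (∀ c ∈ S, L0 n δ < |lg p z - c|) →
          field P Q z ≠ 0 ∧
            (V (field P Q) p α' z = 0 → MvPolynomial.eval ![z.1, z.2] K ≠ 0) := by
  classical
  obtain ⟨R, S₀, hR, hS, h⟩ := e4 n K f g p hK hKd hf hg δ hδ hδ1
  refine ⟨R, S₀ ∪ Z.image (lg p), hR, ?_, ?_⟩
  · refine (Finset.card_union_le _ _).trans ?_
    exact add_le_add hS Finset.card_image_le
  · intro α hα α' hα' z hz hfar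
    have hne : field P Q z ≠ 0 := by
      intro h0
      have h1 := hfar (lg p z) (Finset.mem_union_right _ (Finset.mem_image_of_mem _ (hZ z h0)))
      rw [sub_self, abs_zero] at h1
      exact absurd h1 (not_lt.2 (L0_nonneg hδ hδ1))
    refine ⟨hne, fun hV hKz => ?_⟩
    obtain ⟨c, hc, hc2⟩ := h α' (by
      intro a ha
      have h1 := hα a ha
      have h2 := norm_ee_sub α α'
      have h3 : ‖ee α - a‖ ≤ ‖ee α - ee α'‖ + ‖ee α' - a‖ := by
        have := norm_sub_le_norm_sub_add_norm_sub (ee α) (ee α') a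
        exact this
      rw [abs_sub_comm] at hα'
      linarith) z hz hKz (by
        rw [hfe, hge, ← V_zero]
        exact hV) (by
        rw [hfe, hge]
        by_contra hcon
        rw [not_or, not_not, not_not] at hcon
        have h1 := VW_sq (field P Q) p 0 z
        have h2 : V (field P Q) p 0 z = wedge (z - p) (field P Q z) := by rw [V_zero]; simp
        have h3 : W (field P Q) p 0 z = dot (z - p) (field P Q z) := by
          unfold W rot; simp
        rw [h2, h3, hcon.1, hcon.2] at h1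
        have h4 := H709R2.sq_pos hne
        have h5 := H709R2.sq_pos (sub_ne_zero.2 hz)
        have := mul_pos h5 h4
        rw [← h1] at this
        norm_num at this)
    exact absurd hc2 (not_le.2 (hfar c (Finset.mem_union_left _ hc)))

theorem k7 (m0 : S_M0) (k1 : S_K1) (k2 : S_K2) (k3 : S_K3) (k4 : S_K4) (k5 : S_K5)
    (e4 : S_E4) : S_K7 := by
  intro n P Q hP hQ Z hZ p δ hδ hδ1
  have hX2 : ContDiff ℝ 2 (field P Q) := H709R2.contDiff_field P Q
  obtain ⟨a, b, f, g, s, ha, hb, hf, hg, hs, hev⟩ := k4 n P Q hP hQ p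
  have hfe := fun z => (hev z).2.2.1
  have hge := fun z => (hev z).2.2.2.1
  set x := δ / 2 with hx
  have hxpos : 0 < x := by positivity
  have hX1 : (MvPolynomial.X 1 - MvPolynomial.C p.2 : MvPolynomial (Fin 2) ℝ) ≠ 0 := by
    intro h0
    have := congrArg (MvPolynomial.eval ![0, p.2 + 1]) h0
    simp at this
  have hX1d : (MvPolynomial.X 1 - MvPolynomial.C p.2 : MvPolynomial (Fin 2) ℝ).totalDegree ≤ 1 := by
    refine (MvPolynomial.totalDegree_sub _ _).trans ?_
    simp
  by_cases hcase : ∃ β, (β = x ∨ β = x / 2) ∧ a ^ 2 - MvPolynomial.C (β ^ 2) * b ^ 2 ≠ 0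
  · obtain ⟨β, hβ, hK2⟩ := hcase
    have hβ0 : 0 < β := by rcases hβ with h | h <;> rw [h] <;> positivity
    have hβx : β ≤ x := by rcases hβ with h | h <;> rw [h] <;> linarith
    have hβδ : δ / 4 ≤ β := by rcases hβ with h | h <;> rw [h, hx] <;> linarith
    set K := (MvPolynomial.X 1 - MvPolynomial.C p.2) * (a ^ 2 - MvPolynomial.C (β ^ 2) * b ^ 2)
      with hK
    have hK0 : K ≠ 0 := mul_ne_zero hX1 hK2
    have hKd : K.totalDegree ≤ 4 * n + 1 := by
      refine (MvPolynomial.totalDegree_mul _ _).trans ?_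
      have h1 : (a ^ 2 - MvPolynomial.C (β ^ 2) * b ^ 2).totalDegree ≤ 4 * n := by
        refine (MvPolynomial.totalDegree_sub _ _).trans (max_le ?_ ?_)
        · refine (MvPolynomial.totalDegree_pow _ _).trans ?_
          linarith
        · refine (MvPolynomial.totalDegree_mul _ _).trans ?_
          rw [MvPolynomial.totalDegree_C, zero_add]
          refine (MvPolynomial.totalDegree_pow _ _).trans ?_
          linarith
      omega
    have hKe : ∀ z : ℝ × ℝ, MvPolynomial.eval ![z.1, z.2] K =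
        (z.2 - p.2) * (A0 (field P Q) p z ^ 2 - β ^ 2 * B0 (field P Q) p z ^ 2) := by
      intro z
      rw [hK, map_mul, map_sub, map_sub, map_mul, map_pow, map_pow _ b, (hev z).1, (hev z).2.1]
      simp
    obtain ⟨R, S, hR, hS, hcom⟩ := common e4 hZ hK0 hKd hf hg hfe hge hδ hδ1
    refine ⟨R, S, hR, hS, ?_⟩
    intro α hα C hC hpC hfar
    obtain ⟨γ, T, horb, rfl⟩ := m0 (field P Q) hX2 α C hC
    have hne : ∀ t, γ t ≠ p := fun t h => hpC ⟨t, h⟩
    have hmain := k2 (field P Q) hX2 p α β x hβ0 hβx γ T horb hne (by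
      intro t hband
      set z := γ t with hz
      have hzp : z ≠ p := hne t
      have hfz := hfar z ⟨t, rfl⟩
      have hpi : 0 < 4 * π / δ := by positivity
      have hfz' : ∀ c ∈ S, L0 n δ < |lg p z - c| := fun c hc => by
        have := hfz c hc
        linarith
      have hXz : field P Q z ≠ 0 := (hcom α hα α (by simp; positivity) z hzp hfz').1
      have hW : W (field P Q) p α z ≠ 0 := by
        intro h0
        have h1 := VW_sq (field P Q) p α z
        rw [h0] at h1 hband
        have h2 := mul_pos (H709R2.sq_pos (sub_ne_zero.2 hzp)) (H709R2.sq_pos hXz)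
        rw [← h1] at h2
        nlinarith
      obtain ⟨θ, hθ, hθ2⟩ := exists_angle hW hxpos.le hband
      rw [← V_add] at hθ2
      set α' := α + θ with hα'
      have hαα' : |α' - α| ≤ δ / 2 := by rw [hα']; simpa using hθ
      have hKz := (hcom α hα α' hαα' z hzp hfz').2 hθ2
      rw [hKe] at hKz
      have hKz2 := (mul_ne_zero_iff.1 hKz).2
      by_contra hcon
      rw [not_lt] at hcon
      have hlt : β ^ 2 * B0 (field P Q) p z ^ 2 < A0 (field P Q) p z ^ 2 :=
        lt_of_le_of_ne hcon (fun h => hKz2 (by rw [h, sub_self]))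
      obtain ⟨t₁, ht₁⟩ := exists_pt hzp
      set F : ℝ × ℝ → ℝ := fun q => V (field P Q) p α' (pt p q.1 q.2) with hF
      set Fu : ℝ × ℝ → ℝ := fun q => fderiv ℝ (V (field P Q) p α') (pt p q.1 q.2)
        (pt p q.1 q.2 - p) with hFu
      set Ft : ℝ × ℝ → ℝ := fun q => fderiv ℝ (V (field P Q) p α') (pt p q.1 q.2)
        (J (pt p q.1 q.2 - p)) with hFt
      have hVc : ContDiff ℝ 2 (V (field P Q) p α') := hasFDerivAt_V hX2 p α'
      have hfc : Continuous (fderiv ℝ (V (field P Q) p α')) :=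
        hVc.continuous_fderiv (by norm_num)
      have hder : ∀ q, HasFDerivAt F (Fu q • ContinuousLinearMap.fst ℝ ℝ ℝ +
          Ft q • ContinuousLinearMap.snd ℝ ℝ ℝ) q := by
        intro q
        have h1 := ((hVc.differentiable (by norm_num)) (pt p q.1 q.2)).hasFDerivAt.comp q
          (hasFDerivAt_pt p q)
        refine HasFDerivAt.congr_fderiv h1 ?_
        ext <;> simp [hFu, hFt]
      have hzero := k1 F Fu Ft β (lg p z) t₁ hβ0 hder
        ((hfc.comp (continuous_pt p)).clm_apply ((continuous_pt p).sub continuous_const))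
        ((hfc.comp (continuous_pt p)).clm_apply
          (continuous_J.comp ((continuous_pt p).sub continuous_const)))
        (by simp only [hF]; rw [← ht₁]; exact hθ2)
        (by
          obtain ⟨m, hm, h1, h2⟩ := k3 (field P Q) hX2 p z α' hzp hXz hθ2
          simp only [hFu, hFt]
          rw [← ht₁, h1, h2]
          nlinarith)
        (by
          intro u t hu ht hFz
          simp only [hF] at hFz
          have hfar2 : ∀ c ∈ S, L0 n δ < |lg p (pt p u t) - c| := by
            intro c hc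
            rw [lg_pt]
            have h1 := hfz c hc
            have h2 : π / β ≤ 4 * π / δ := by
              rw [div_le_div_iff₀ hβ0 hδ]
              nlinarith [Real.pi_pos]
            have h3 : |lg p z - c| ≤ |lg p z - u| + |u - c| := abs_sub_le _ _ _
            rw [abs_sub_comm (lg p z) u] at h3
            linarith
          have h4 := hcom α hα α' hαα' (pt p u t) (pt_ne p u t) hfar2
          have h5 := h4.2 hFz
          rw [hKe] at h5
          obtain ⟨m, hm, h6, h7⟩ := k3 (field P Q) hX2 p (pt p u t) α' (pt_ne p u t) h4.1 hFz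
          simp only [hFu, hFt]
          rw [h6, h7]
          intro h8
          apply (mul_ne_zero_iff.1 h5).2
          have h9 : m * (A0 (field P Q) p (pt p u t) ^ 2 -
              β ^ 2 * B0 (field P Q) p (pt p u t) ^ 2) = 0 := by linear_combination h8
          exact (mul_eq_zero.1 h9).resolve_left hm.ne')
      -- a multiple of π in the interval
      set k : ℤ := ⌈t₁ / π⌉ with hk
      have hk1 : t₁ ≤ k * π := by
        have := Int.le_ceil (t₁ / π)
        rw [div_le_iff₀ Real.pi_pos] at this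
        exact this
      have hk2 : (k:ℝ) * π ≤ t₁ + π := by
        have := Int.ceil_lt_add_one (t₁ / π)
        rw [← hk] at this
        have h1 : (k:ℝ) * π < (t₁ / π + 1) * π := by
          exact mul_lt_mul_of_pos_right this Real.pi_pos
        rw [add_mul, div_mul_cancel₀ _ Real.pi_pos.ne', one_mul] at h1
        exact h1.le
      obtain ⟨u, hu, hFz⟩ := hzero (k * π) ⟨hk1, hk2⟩
      simp only [hF] at hFz
      have hfar2 : ∀ c ∈ S, L0 n δ < |lg p (pt p u (k * π)) - c| := by
        intro c hc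
        rw [lg_pt]
        have h1 := hfz c hc
        have h2 : π / β ≤ 4 * π / δ := by
          rw [div_le_div_iff₀ hβ0 hδ]
          nlinarith [Real.pi_pos]
        have h3 : |lg p z - c| ≤ |lg p z - u| + |u - c| := abs_sub_le _ _ _
        rw [abs_sub_comm (lg p z) u] at h3
        linarith
      have h5 := (hcom α hα α' hαα' _ (pt_ne p u (k * π)) hfar2).2 hFz
      rw [hKe] at h5
      apply (mul_ne_zero_iff.1 h5).1
      unfold pt
      simp only [Real.sin_int_mul_pi, mul_zero, add_zero, sub_self])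
    rintro z ⟨t, rfl⟩
    exact hmain t
  · -- degenerate case
    push Not at hcase
    have h1 := hcase x (Or.inl rfl)
    have h2 := hcase (x / 2) (Or.inr rfl)
    have hb0 : b = 0 := by
      have h3 : MvPolynomial.C (x ^ 2 - (x / 2) ^ 2) * b ^ 2 = 0 := by
        rw [MvPolynomial.C_sub]
        linear_combination h2 - h1
      rcases mul_eq_zero.1 h3 with h4 | h4
      · rw [MvPolynomial.C_eq_zero] at h4
        nlinarith
      · exact pow_eq_zero_iff (two_ne_zero) |>.1 h4
    have ha0 : a = 0 := by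
      rw [hb0] at h1
      have : a ^ 2 = 0 := by linear_combination h1
      exact pow_eq_zero_iff (two_ne_zero) |>.1 this
    have hA : ∀ q, A0 (field P Q) p q = 0 := fun q => by rw [← (hev q).1, ha0, map_zero]
    have hB : ∀ q, B0 (field P Q) p q = 0 := fun q => by rw [← (hev q).2.1, hb0, map_zero]
    obtain ⟨R, S, hR, hS, hcom⟩ := common e4 hZ hX1 (hX1d.trans (by omega)) hf hg hfe hge hδ hδ1
    refine ⟨R, S, hR, hS, ?_⟩
    intro α hα C hC hpC hfar z hzC
    by_contra hcon
    rw [not_lt] at hcon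
    have hzp : z ≠ p := fun h => hpC (h ▸ hzC)
    have hpi : 0 < 4 * π / δ := by positivity
    have hfz' : ∀ c ∈ S, L0 n δ < |lg p z - c| := fun c hc => by
      have := hfar z hzC c hc
      linarith
    have hXz : field P Q z ≠ 0 := (hcom α hα α (by simp; positivity) z hzp hfz').1
    have hW : W (field P Q) p α z ≠ 0 := by
      intro h0
      have h1 := VW_sq (field P Q) p α z
      rw [h0] at h1 hcon
      have h2 := mul_pos (H709R2.sq_pos (sub_ne_zero.2 hzp)) (H709R2.sq_pos hXz)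
      rw [← h1] at h2
      nlinarith
    obtain ⟨θ, hθ, hθ2⟩ := exists_angle hW hxpos.le hcon
    rw [← V_add] at hθ2
    have hall := k5 P Q p (α + θ) z hA hB hzp hXz hθ2
    set u : ℝ := ∑ c ∈ S, |c| + L0 n δ + 1 with hu
    have hfar2 : ∀ c ∈ S, L0 n δ < |lg p (pt p u 0) - c| := by
      intro c hc
      rw [lg_pt]
      have h3 : |c| ≤ ∑ c ∈ S, |c| := Finset.single_le_sum (f := fun c => |c|)
        (fun i _ => abs_nonneg i) hc
      have h4 := le_abs_self c
      have h5 := le_abs_self (u - c)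
      linarith
    have h6 := (hcom α hα (α + θ) (by simpa using hθ) _ (pt_ne p u 0) hfar2).2 (hall _)
    apply h6
    simp [pt]

end

end Pool.Agent.H709U
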