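import Pool.Agent.H709U.Defs

/-! M0: minimal periods of closed orbits. -/

open Real Set MeasureTheory Topology Filter
open scoped ENNReal

namespace Pool.Agent.H709U

open Pool.Agent.H709R2 (ClosedOrbit)

private lemma m0_rot_eq_zero {α : ℝ} {v : ℝ × ℝ} (h : H709R2.rot α v = 0) : v = 0 := by
  have h1 := congrArg Prod.fst h
  have h2 := congrArg Prod.snd h
  simp only [H709R2.rot, Prod.fst_zero, Prod.snd_zero] at h1 h2
  have hs := Real.sin_sq_add_cos_sq α
  ext
  · simp only [Prod.fst_zero]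
    linear_combination Real.cos α * h1 + Real.sin α * h2 - v.1 * hs
  · simp only [Prod.snd_zero]
    linear_combination Real.cos α * h2 - Real.sin α * h1 - v.2 * hs

theorem m0 : S_M0 := by
  intro X hX α C hC
  obtain ⟨γ, T, hT, hγ, hper, hnc, rfl⟩ := hC
  have hcont : Continuous γ := continuous_iff_continuousAt.2 fun t => (hγ t).continuousAt
  have hpT : Function.Periodic γ T := hper
  have hcomp : IsCompact (range γ) := hpT.compact_of_continuous hT.ne' hcont
  obtain ⟨R, hR⟩ := hcomp.isBounded.exists_norm_le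
  obtain ⟨Y, hY, ⟨K, hK⟩, ⟨M, hM⟩, hYF⟩ := H709R2.exists_cutoff (F := X) hX R
  obtain ⟨φ, hφ⟩ := H709R2.exists_rotFlow hY hK hM
  have hYf : ∀ t, Y (γ t) = X (γ t) := fun t =>
    (hYF (γ t) (hR _ ⟨t, rfl⟩)).eq_of_nhds
  have hγ' : ∀ t, HasDerivAt γ (H709R2.rot α (Y (γ t))) t := by
    intro t
    rw [hYf]
    exact hγ t
  obtain ⟨T₀, hmp, hrange⟩ := H709R2.minPer_of_closed hφ hT hγ' hper hnc
  have hu : ∀ t, γ t = φ t (γ 0) α := hφ.uniq α γ hγ'
  have hP : Function.Periodic γ T₀ := by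
    intro t
    rw [hu (t + T₀), hφ.add, hmp.per, ← hu t]
  refine ⟨γ, T₀, ⟨hmp.pos, hγ, hP, ?_, ?_⟩, rfl⟩
  · intro s t hst
    have h1 : φ (-t + s) (γ 0) α = γ 0 := by
      rw [hφ.add, ← hu s, hst, hu t, ← hφ.add, neg_add_cancel, hφ.zero]
    set k : ℤ := ⌊(s - t) / T₀⌋ with hk
    have hpos := hmp.pos
    have hr0 : 0 ≤ (s - t) - k * T₀ := by
      have := Int.floor_le ((s - t) / T₀)
      rw [← hk, le_div_iff₀ hpos] at this
      linarith
    have hr1 : (s - t) - k * T₀ < T₀ := by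
      have := Int.lt_floor_add_one ((s - t) / T₀)
      rw [← hk, div_lt_iff₀ hpos] at this
      linarith
    have h2 : φ ((s - t) - k * T₀) (γ 0) α = γ 0 := by
      rw [← hu, hP.sub_int_mul_eq, hu, show s - t = -t + s by ring, h1]
    refine ⟨k, ?_⟩
    rcases hr0.lt_or_eq with h3 | h3
    · exact absurd h2 (hmp.min _ ⟨h3, hr1⟩)
    · linarith
  · intro t h0
    have h1 : X (γ t) = 0 := m0_rot_eq_zero h0
    rw [← hYf, hu] at h1
    exact hφ.ne_zero hmp.ne t h1

end Pool.Agent.H709U
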