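import Pool.Agent.H709U.Defs

/-! MA: master inequality for all closed orbits in a compact set on which a continuous function is
positive. -/

open Real Set MeasureTheory Topology Filter
open scoped ENNReal

namespace Pool.Agent.H709U

open Pool.Agent.H709R2 (rot ClosedOrbit divW divRot RotFlow MinPer Good2 wlen)

/-- orbits of the flow with a minimal period are closed orbits in the sense of `Orb` -/
lemma orb_of_minPer {X X' : ℝ × ℝ → ℝ × ℝ} {φ : ℝ → ℝ × ℝ → ℝ → ℝ × ℝ} (hφ : RotFlow X' φ)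
    {α : ℝ} {p : ℝ × ℝ} {T : ℝ} (hmp : MinPer X' φ α p T)
    (hXe : ∀ t, X' (φ t p α) = X (φ t p α)) : Orb (rf X α) (fun t => φ t p α) T := by
  have hP : Function.Periodic (fun t => φ t p α) T := by
    intro t
    simp only
    rw [hφ.add, hmp.per]
  refine ⟨hmp.pos, ?_, hP, ?_, ?_⟩
  · intro t
    have h1 := hφ.deriv p α t
    rw [hXe] at h1
    exact h1
  · intro s t hst
    have h1 : φ (-t + s) p α = p := by
      rw [hφ.add, hst, ← hφ.add, neg_add_cancel, hφ.zero]
    set k : ℤ := ⌊(s - t) / T⌋ with hk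
    have hpos := hmp.pos
    have hr0 : 0 ≤ (s - t) - k * T := by
      have := Int.floor_le ((s - t) / T)
      rw [← hk, le_div_iff₀ hpos] at this
      linarith
    have hr1 : (s - t) - k * T < T := by
      have := Int.lt_floor_add_one ((s - t) / T)
      rw [← hk, div_lt_iff₀ hpos] at this
      linarith
    have h2 : φ ((s - t) - k * T) p α = p := by
      have h3 := hP.sub_int_mul_eq (x := s - t) k
      rw [h3, show s - t = -t + s by ring, h1]
    refine ⟨k, ?_⟩
    rcases hr0.lt_or_eq with h3 | h3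
    · exact absurd h2 (hmp.min _ ⟨h3, hr1⟩)
    · linarith
  · intro t
    simp only [rf]
    have h1 := hφ.ne_zero (α := α) hmp.ne t
    rw [hXe] at h1
    intro h2
    apply h1
    have h3 : H709R2.sq (X (φ t p α)) = 0 := by
      rw [← H709R2.sq_rot α, h2]
      unfold H709R2.sq
      simp
    by_contra h4
    exact (H709R2.sq_pos h4).ne' h3

theorem ma : S_MA := by
  intro X hX w F hF Ω hΩ h hh l hl hdiv hlen
  obtain ⟨R, hR⟩ := hΩ.isBounded.exists_norm_le
  obtain ⟨X', hX', ⟨K, hK⟩, ⟨M, hM⟩, hXF⟩ := H709R2.exists_cutoff hX R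
  obtain ⟨φ, hφ⟩ := H709R2.exists_rotFlow hX' hK hM
  obtain ⟨g, hg1, hg2, hg3⟩ := H709Q.master4 (w := w) (Ω := Ω) (Γ := ∅) (ℓ := l) hφ hX' hF
    hΩ.isClosed isClosed_empty hh hl (by
      intro α hα p T hmp hpΩ _ hpF
      have hXe : ∀ t, X' (φ t p α) = X (φ t p α) := fun t =>
        (hXF _ (hR _ (hpΩ t))).eq_of_nhds
      have horb := orb_of_minPer hφ hmp hXe
      have hp : p ∈ Ω := by
        have := hpΩ 0
        rwa [hφ.zero] at this
      have heq := hXF p (hR p hp)
      have hXp : X p ≠ 0 := by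
        rw [← heq.eq_of_nhds]
        exact hmp.ne
      have hFp : 0 < F (α, p) := by
        have := hpF 0
        rwa [hφ.zero] at this
      obtain ⟨h1, h2⟩ := hdiv α hα p hp hXp hFp
      refine ⟨h1, ?_, ?_⟩
      · have h3 := hlen α hα _ T horb hpΩ hpF
        unfold wlen
        refine h3.trans (le_of_eq ?_)
        congr 1
        ext1 t
        rw [hXe]
      · have h4 : divW (w α) X' α p = divW (w α) X α p := by
          unfold divW divRot
          rw [heq.fderiv_eq, heq.eq_of_nhds]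
        rw [h4]
        exact h2)
  refine ⟨g, hg1, ?_, hg3⟩
  intro α hα
  refine le_trans ?_ (hg2 α hα)
  have hsub : {C | ClosedOrbit (rf X α) C ∧ C ⊆ Ω ∧ ∀ z ∈ C, 0 < F (α, z)} ⊆
      {C | Good2 X' φ Ω ∅ α C ∧ ∀ z ∈ C, 0 < F (α, z)} := by
    rintro C ⟨⟨γ, T, hT, hγ, hper, hnc, rfl⟩, hCΩ, hpos⟩
    have hγ' : ∀ t, HasDerivAt γ (rot α (X' (γ t))) t := by
      intro t
      rw [(hXF (γ t) (hR _ (hCΩ ⟨t, rfl⟩))).eq_of_nhds]
      exact hγ t
    obtain ⟨T₀, hmp, hrange⟩ := H709R2.minPer_of_closed hφ hT hγ' hper hnc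
    exact ⟨⟨γ 0, T₀, hmp, hrange, hCΩ, γ 0, ⟨0, rfl⟩, γ 0, ⟨0, rfl⟩, by simp⟩, hpos⟩
  exact ENat.toENNReal_le.2 (Set.encard_le_encard hsub)

end Pool.Agent.H709U
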