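import Pool.Agent.H709U.Defs

/-! MB: the master inequality for a fixed weight. -/

open Real Set MeasureTheory Topology Filter
open scoped ENNReal

namespace Pool.Agent.H709U

noncomputable section

open Pool.Agent.H709R2

theorem mb : S_MB := by
  intro X hX w hw Ω hΩ h hh l hl hbd
  obtain ⟨R, hR⟩ := hΩ.isBounded.exists_norm_le
  set r := max R 0 with hr
  have hr0 : 0 ≤ r := le_max_right _ _
  have hRr : R ≤ r := le_max_left _ _
  obtain ⟨X', hX', ⟨K, hK⟩, ⟨M, hM⟩, hXX⟩ := exists_cutoff hX (r + 2)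
  obtain ⟨φ, hφ⟩ := exists_rotFlow hX' hK hM
  let c : ContDiffBump (0 : ℝ × ℝ) := ⟨r + 1, r + 2, by positivity, by linarith⟩
  set w' : ℝ × ℝ → ℝ := fun z => c z * w z with hw'def
  -- near the compact set nothing changes
  have hXΩ : ∀ z ∈ Ω, X' =ᶠ[𝓝 z] X := by
    intro z hz
    exact hXX z (by linarith [hR z hz])
  have hwΩ : ∀ z ∈ Ω, w' =ᶠ[𝓝 z] w := by
    intro z hz
    have h1 : Metric.ball (0 : ℝ × ℝ) (r + 1) ∈ 𝓝 z := by
      refine Metric.isOpen_ball.mem_nhds ?_
      rw [mem_ball_zero_iff]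
      linarith [hR z hz]
    filter_upwards [h1] with x hx
    rw [hw'def]
    simp only
    rw [c.one_of_mem_closedBall (Metric.ball_subset_closedBall hx), one_mul]
  have hdiv : ∀ z ∈ Ω, ∀ α, divW w' X' α z = divW w X α z := by
    intro z hz α
    unfold divW divRot
    rw [(hXΩ z hz).fderiv_eq, (hwΩ z hz).fderiv_eq, (hXΩ z hz).eq_of_nhds,
      (hwΩ z hz).eq_of_nhds]
  have hw' : ∀ z, X' z ≠ 0 → ContDiffAt ℝ 1 w' z := by
    intro z hz
    rcases le_or_gt ‖z‖ (r + 2) with hn | hn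
    · have h1 := hXX z hn
      rw [h1.eq_of_nhds] at hz
      have h2 : ContDiffAt ℝ 1 (fun z => c z) z := c.contDiffAt
      exact h2.mul (hw z hz)
    · have h1 : (Metric.closedBall (0 : ℝ × ℝ) (r + 2))ᶜ ∈ 𝓝 z := by
        refine Metric.isClosed_closedBall.isOpen_compl.mem_nhds ?_
        rw [mem_compl_iff, mem_closedBall_zero_iff]
        exact not_le.2 hn
      have h2 : w' =ᶠ[𝓝 z] fun _ => 0 := by
        filter_upwards [h1] with x hx
        rw [hw'def]
        simp only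
        rw [c.zero_of_le_dist, zero_mul]
        rw [mem_compl_iff, mem_closedBall_zero_iff, not_le] at hx
        rw [dist_zero_right]
        exact hx.le
      exact contDiffAt_const.congr_of_eventuallyEq h2
  obtain ⟨g, hg1, hg2, hg3⟩ := master (w₁ := w') (w := w') (M := Ici l) (ℓ := l)
    (Ω := Ω) hφ hX' hw' hw' hΩ.isClosed measurableSet_Ici hh hl (by
      intro α hα p T hmp hpΩ hlen
      refine ⟨hlen, ?_⟩
      have hp : p ∈ Ω := by
        have := hpΩ 0
        rwa [hφ.zero] at this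
      have hne := hmp.ne
      rw [(hXΩ p hp).eq_of_nhds] at hne
      rw [hdiv p hp α]
      exact hbd α hα p hp hne)
  refine ⟨g, hg1, ?_, hg3⟩
  intro α hα
  refine le_trans ?_ (hg2 α hα)
  refine ENat.toENNReal_le.2 (Set.encard_le_encard ?_)
  rintro C ⟨γ, T, ho, rfl, hCΩ, hlen⟩
  have hγΩ : ∀ t, γ t ∈ Ω := fun t => hCΩ ⟨t, rfl⟩
  have hXγ : ∀ t, X' (γ t) = X (γ t) := fun t => (hXΩ _ (hγΩ t)).eq_of_nhds
  have hwγ : ∀ t, w' (γ t) = w (γ t) := fun t => (hwΩ _ (hγΩ t)).eq_of_nhds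
  have hγ' : ∀ t, HasDerivAt γ (rot α (X' (γ t))) t := by
    intro t
    rw [hXγ t]
    exact ho.ode t
  have hu : ∀ t, γ t = φ t (γ 0) α := hφ.uniq α γ hγ'
  have hu' : (fun t => φ t (γ 0) α) = γ := funext fun t => (hu t).symm
  refine ⟨γ 0, T, ⟨ho.pos, ?_, ?_, ?_⟩, ?_, hCΩ, ?_⟩
  · rw [← hu, ← ho.per 0, zero_add]
  · intro t ht hc
    rw [← hu] at hc
    obtain ⟨k, hk⟩ := ho.inj t 0 hc
    rw [zero_add] at hk
    have h1 : (0 : ℝ) < k := by
      by_contra hcon
      have := mul_nonpos_of_nonpos_of_nonneg (not_lt.1 hcon) ho.pos.le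
      linarith [ht.1]
    have h2 : (k : ℝ) < 1 := by
      by_contra hcon
      have := mul_le_mul_of_nonneg_right (not_lt.1 hcon) ho.pos.le
      linarith [ht.2]
    have h3 : (0 : ℤ) < k := by exact_mod_cast h1
    have h4 : k < (1 : ℤ) := by exact_mod_cast h2
    omega
  · rw [hXγ]
    intro hc
    apply ho.ne 0
    unfold rf
    rw [hc]
    unfold rot
    ext <;> simp
  · rw [hu']
  · rw [mem_Ici]
    unfold wlen
    have h5 : (fun t => w' (φ t (γ 0) α) * H709R2.sq (X' (φ t (γ 0) α))) =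
        fun t => w (γ t) * H709R2.sq (X (γ t)) := by
      funext t
      rw [← hu t, hwγ, hXγ]
    rw [h5]
    exact hlen

end

end Pool.Agent.H709U
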