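import Pool.Agent.H709U.Defs
import Pool.Agent.H709Q.M

/-! Averaged cubic bounds: closed orbits with diameters in a given range, and uniformly star-shaped
closed orbits. -/

open Real Set MeasureTheory Topology Filter
open scoped ENNReal

namespace Pool.Agent.H709U

noncomputable section

open Pool.Agent.H709R2 (rot wedge field ClosedOrbit thmA)
open Pool.Agent.H709Q (Maj majRules)

lemma maj_mono {N N' : ℝ → ℝ≥0∞} {K K' : ℝ} (h : ∀ α ∈ Ioo 0 π, N α ≤ N' α) (hK : K' ≤ K)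
    (hM : Maj N' K') : Maj N K := majRules.1 N N' K K' h hK hM

lemma maj_sum {ι : Type*} (s : Finset ι) (N : ι → ℝ → ℝ≥0∞) (K : ℝ) (hK : 0 ≤ K)
    (h : ∀ i ∈ s, Maj (N i) K) : Maj (fun α => ∑ i ∈ s, N i α) (s.card * K) := by
  classical
  induction s using Finset.induction_on with
  | empty =>
    simp only [Finset.sum_empty, Finset.card_empty, Nat.cast_zero, zero_mul]
    exact ⟨fun _ => 0, measurable_const, fun α _ => le_rfl, by simp⟩
  | insert a s ha ih =>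
    have h1 := ih fun i hi => h i (Finset.mem_insert_of_mem hi)
    have h2 := majRules.2.1 _ _ K (s.card * K) hK (by positivity)
      (h a (Finset.mem_insert_self a s)) h1
    rw [Finset.card_insert_of_notMem ha]
    push_cast
    refine maj_mono (fun α _ => ?_) (le_of_eq (by ring)) h2
    rw [Finset.sum_insert ha]

lemma encard_biUnion_le' {α ι : Type*} (s : Set α) (T : Finset ι) (t : ι → Set α)
    (h : s ⊆ ⋃ i ∈ T, t i) : (s.encard : ℝ≥0∞) ≤ ∑ i ∈ T, ((t i).encard : ℝ≥0∞) := by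
  classical
  refine le_trans (ENat.toENNReal_le.2 (encard_le_encard h)) ?_
  clear h
  induction T using Finset.induction_on with
  | empty => simp
  | insert a T ha ih =>
    rw [Finset.sum_insert ha]
    have h1 : (⋃ i ∈ insert a T, t i) = t a ∪ ⋃ i ∈ T, t i := by simp
    rw [h1]
    refine le_trans (ENat.toENNReal_le.2 (encard_union_le _ _)) ?_
    rw [ENat.toENNReal_add]
    gcongr

/-- closed orbits in the whole plane with Euclidean diameter between `r` and `R` -/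
def ClD (P Q : MvPolynomial (Fin 2) ℝ) (r R α : ℝ) : Set (Set (ℝ × ℝ)) :=
  {C | C ∈ Cl P Q α ∧ (∃ x ∈ C, ∃ y ∈ C, r ≤ √((x.1 - y.1) ^ 2 + (x.2 - y.2) ^ 2)) ∧
    ∀ x ∈ C, ∀ y ∈ C, √((x.1 - y.1) ^ 2 + (x.2 - y.2) ^ 2) ≤ R}

lemma box_of_diam {C : Set (ℝ × ℝ)} {p : ℝ × ℝ} (hp : InBox p C) {d : ℝ}
    (hd : ∀ x ∈ C, ∀ y ∈ C, √((x.1 - y.1) ^ 2 + (x.2 - y.2) ^ 2) ≤ d) :
    C ⊆ Icc (p.1 - d) (p.1 + d) ×ˢ Icc (p.2 - d) (p.2 + d) := by
  intro z hz
  obtain ⟨⟨x, hx, y, hy, h1, h2⟩, ⟨x', hx', y', hy', h3, h4⟩⟩ := hp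
  have key1 : ∀ w ∈ C, |z.1 - w.1| ≤ d := fun w hw =>
    (Real.abs_le_sqrt (by nlinarith [sq_nonneg (z.2 - w.2)])).trans (hd z hz w hw)
  have key2 : ∀ w ∈ C, |z.2 - w.2| ≤ d := fun w hw =>
    (Real.abs_le_sqrt (by nlinarith [sq_nonneg (z.1 - w.1)])).trans (hd z hz w hw)
  have a1 := abs_le.1 (key1 x hx)
  have a2 := abs_le.1 (key1 y hy)
  have a3 := abs_le.1 (key2 x' hx')
  have a4 := abs_le.1 (key2 y' hy')
  refine ⟨⟨?_, ?_⟩, ⟨?_, ?_⟩⟩ <;> linarith [a1.1, a1.2, a2.1, a2.2, a3.1, a3.2, a4.1, a4.2]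

/-- one zero and one dyadic scale -/
lemma scale_maj {n : ℕ} {P Q : MvPolynomial (Fin 2) ℝ} (hP : P.totalDegree ≤ n)
    (hQ : Q.totalDegree ≤ n) (p : ℝ × ℝ) {d : ℝ} (hd : 0 < d) :
    Maj (fun α => ({C | C ∈ ClD P Q d (2 * d) α ∧ InBox p C}.encard : ℝ≥0∞)) (4 * π * n) := by
  obtain ⟨g, hg1, hg2, hg3⟩ := thmA hP hQ (p.1 - 2 * d) (p.1 + 2 * d) (p.2 - 2 * d)
    (p.2 + 2 * d) hd
  refine ⟨g, hg1, ?_, ?_⟩
  · intro α hα
    refine le_trans (ENat.toENNReal_le.2 (encard_le_encard ?_)) (hg2 α hα)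
    rintro C ⟨⟨⟨γ, T, hT, hγ, hper, hnc, hC⟩, hbig, hsm⟩, hbox⟩
    exact ⟨⟨γ, T, hT, hγ, hper, hnc, hC⟩, box_of_diam hbox hsm, hbig⟩
  · refine (setLIntegral_le_lintegral _ _).trans (hg3.trans ?_)
    rw [← ENNReal.ofReal_add (by linarith) (by linarith), ← ENNReal.ofReal_mul (by positivity),
      ← ENNReal.ofReal_mul (by positivity)]
    apply ENNReal.ofReal_le_ofReal
    apply le_of_eq
    field_simp
    ring

/-- the averaged cubic bound for relatively prime components -/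
theorem r1_coprime (b3 : S_B3) (t3 : S_T3) {n : ℕ} {P Q : MvPolynomial (Fin 2) ℝ}
    (hP : P.totalDegree ≤ n) (hQ : Q.totalDegree ≤ n) (hrel : IsRelPrime P Q) {r : ℝ}
    (hr : 0 < r) {m : ℕ} (hm : 1 ≤ m) :
    Maj (fun α => ((ClD P Q r (2 ^ m * r) α).encard : ℝ≥0∞)) (4 * π * n ^ 3 * m) := by
  classical
  obtain ⟨Z, hZc, hZ⟩ := b3 n P Q hP hQ hrel
  have h1 : ∀ i ∈ Z ×ˢ Finset.range m, Maj (fun α =>
      ({C | C ∈ ClD P Q (2 ^ i.2 * r) (2 * (2 ^ i.2 * r)) α ∧ InBox i.1 C}.encard : ℝ≥0∞))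
      (4 * π * n) := fun i _ => scale_maj hP hQ i.1 (by positivity)
  have h2 := maj_sum _ _ (4 * π * n) (by positivity) h1
  refine maj_mono ?_ ?_ h2
  · intro α hα
    apply encard_biUnion_le'
    rintro C ⟨hC, ⟨x₀, hx₀, y₀, hy₀, hbig⟩, hsm⟩
    obtain ⟨p, hp0, hp⟩ := t3 (field P Q) (H709R2.contDiff_field P Q) α C hC
    -- the diameter is attained
    obtain ⟨γ, T, hT, hγ, hper, hnc, rfl⟩ := hC
    have hcont : Continuous γ := continuous_iff_continuousAt.2 fun t => (hγ t).continuousAt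
    have hcomp : IsCompact (range γ) :=
      (show Function.Periodic γ T from hper).compact_of_continuous hT.ne' hcont
    obtain ⟨⟨x, y⟩, hxy, hmax⟩ := (hcomp.prod hcomp).exists_isMaxOn ⟨(x₀, y₀), hx₀, hy₀⟩
      (f := fun q : (ℝ × ℝ) × (ℝ × ℝ) => √((q.1.1 - q.2.1) ^ 2 + (q.1.2 - q.2.2) ^ 2))
      (by fun_prop)
    set D := √((x.1 - y.1) ^ 2 + (x.2 - y.2) ^ 2) with hD
    have hmax' : ∀ a ∈ range γ, ∀ b ∈ range γ, √((a.1 - b.1) ^ 2 + (a.2 - b.2) ^ 2) ≤ D :=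
      fun a ha b hb => hmax (show (a, b) ∈ range γ ×ˢ range γ from ⟨ha, hb⟩)
    have hrD : r ≤ D := hbig.trans (hmax' x₀ hx₀ y₀ hy₀)
    have hDR : D ≤ 2 ^ m * r := hsm x hxy.1 y hxy.2
    -- the dyadic scale
    have hex : ∃ k, k < m ∧ 2 ^ k * r ≤ D ∧ D ≤ 2 * (2 ^ k * r) := by
      have h0 : ∃ k, D ≤ 2 * (2 ^ k * r) := ⟨m - 1, by
        have h5 : (2:ℝ) * (2 ^ (m - 1) * r) = 2 ^ m * r := by
          rw [← mul_assoc, ← pow_succ', Nat.sub_add_cancel hm]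
        rw [h5]
        exact hDR⟩
      refine ⟨Nat.find h0, ?_, ?_, Nat.find_spec h0⟩
      · have h5 : Nat.find h0 ≤ m - 1 := Nat.find_min' h0 (by
          have h5 : (2:ℝ) * (2 ^ (m - 1) * r) = 2 ^ m * r := by
            rw [← mul_assoc, ← pow_succ', Nat.sub_add_cancel hm]
          rw [h5]
          exact hDR)
        omega
      · rcases Nat.eq_zero_or_pos (Nat.find h0) with h5 | h5
        · rw [h5, pow_zero, one_mul]
          exact hrD
        · have h6 := Nat.find_min h0 (show Nat.find h0 - 1 < Nat.find h0 by omega)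
          rw [not_le, ← mul_assoc, ← pow_succ', Nat.sub_add_cancel h5] at h6
          exact h6.le
    obtain ⟨k, hkm, hk1, hk2⟩ := hex
    simp only [mem_iUnion]
    refine ⟨(p, k), ?_, ?_, hp⟩
    · rw [Finset.mem_product]
      exact ⟨(hZ p).1 hp0, Finset.mem_range.2 hkm⟩
    · exact ⟨⟨γ, T, hT, hγ, hper, hnc, rfl⟩, ⟨x, hxy.1, y, hxy.2, hk1⟩,
        fun a ha b hb => (hmax' a ha b hb).trans hk2⟩
  · rw [Finset.card_product, Finset.card_range]
    push_cast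
    have h3 : (Z.card : ℝ) ≤ n ^ 2 := by exact_mod_cast hZc
    have h4 : (Z.card : ℝ) * m * (4 * π * n) ≤ n ^ 2 * m * (4 * π * n) := by gcongr
    refine h4.trans (le_of_eq (by ring))

/-- the averaged cubic bound -/
theorem r1 (b1 : S_B1) (b2 : S_B2) (b3 : S_B3) (t3 : S_T3) {n : ℕ}
    {P Q : MvPolynomial (Fin 2) ℝ} (hP : P.totalDegree ≤ n) (hQ : Q.totalDegree ≤ n)
    (hne : P ≠ 0 ∨ Q ≠ 0) {r R : ℝ} (hr : 0 < r) (hR : r ≤ R) :
    Maj (fun α => ((ClD P Q r R α).encard : ℝ≥0∞))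
      (4 * π * n ^ 3 * (1 + Real.logb 2 (R / r))) := by
  obtain ⟨h, P₁, Q₁, rfl, rfl, hrel, hP₁, hQ₁⟩ := b1 n P Q hP hQ hne
  set m : ℕ := ⌊Real.logb 2 (R / r)⌋₊ + 1 with hm
  have hlog : 0 ≤ Real.logb 2 (R / r) := Real.logb_nonneg (by norm_num) (by
    rw [le_div_iff₀ hr, one_mul]
    exact hR)
  refine maj_mono ?_ ?_ (r1_coprime b3 t3 hP₁ hQ₁ hrel hr (m := m) (by omega))
  · intro α _
    apply ENat.toENNReal_le.2
    apply encard_le_encard
    rintro C ⟨hC, hbig, hsm⟩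
    refine ⟨b2 h P₁ Q₁ α hC, hbig, fun x hx y hy => (hsm x hx y hy).trans ?_⟩
    have h1 : Real.logb 2 (R / r) ≤ m := by
      rw [hm]
      push_cast
      exact (Nat.lt_floor_add_one _).le
    have hRp : 0 < R := hr.trans_le hR
    have h2 : R / r ≤ 2 ^ m := by
      have h3 : R / r = (2:ℝ) ^ Real.logb 2 (R / r) :=
        (Real.rpow_logb (by norm_num) (by norm_num) (by positivity)).symm
      rw [h3, ← Real.rpow_natCast]
      exact Real.rpow_le_rpow_of_exponent_le (by norm_num) h1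
    rwa [div_le_iff₀ hr] at h2
  · have h1 : (m : ℝ) ≤ 1 + Real.logb 2 (R / r) := by
      rw [hm]
      push_cast
      have := Nat.floor_le hlog
      linarith
    gcongr

/-- closed orbits which are uniformly star-shaped about a zero of the field -/
theorem round_coprime (b3 : S_B3) (g4 : S_G4) {n : ℕ} {P Q : MvPolynomial (Fin 2) ℝ}
    (hP : P.totalDegree ≤ n) (hQ : Q.totalDegree ≤ n) (hrel : IsRelPrime P Q) {x : ℝ}
    (hx : 0 < x) :
    Maj (fun α => ({C | C ∈ Cl P Q α ∧ ∃ p, field P Q p = 0 ∧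
      ∀ z ∈ C, x ^ 2 * W (field P Q) p α z ^ 2 < V (field P Q) p α z ^ 2}.encard : ℝ≥0∞))
      ((1 + 1 / x ^ 2) * (π * n ^ 3)) := by
  classical
  obtain ⟨Z, hZc, hZ⟩ := b3 n P Q hP hQ hrel
  have h2 := maj_sum Z _ ((1 + 1 / x ^ 2) * (π * n)) (by positivity)
    (fun p _ => g4 n P Q hP hQ p x hx)
  refine maj_mono ?_ ?_ h2
  · intro α hα
    apply encard_biUnion_le'
    rintro C ⟨hC, p, hp, h⟩
    simp only [mem_iUnion]
    exact ⟨p, (hZ p).1 hp, hC, h⟩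
  · have h3 : (Z.card : ℝ) ≤ n ^ 2 := by exact_mod_cast hZc
    have h4 : (Z.card : ℝ) * ((1 + 1 / x ^ 2) * (π * n)) ≤ n ^ 2 * ((1 + 1 / x ^ 2) * (π * n)) := by
      gcongr
    refine h4.trans (le_of_eq (by ring))

end

end Pool.Agent.H709U
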