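import Pool.Agent.H709U.Defs

/-! Task T1: the secant map of a simple closed curve. -/

open Real Set MeasureTheory Topology Filter

namespace Pool.Agent.H709U

noncomputable section

/-- the mean of the derivative on the segment from `s` to `t` -/
def t1A (γ' : ℝ → ℂ) (s t : ℝ) : ℂ := ∫ r in (0:ℝ)..1, γ' (s + r * (t - s))

theorem t1A_cont {γ' : ℝ → ℂ} (h : Continuous γ') :
    Continuous (fun q : ℝ × ℝ => t1A γ' q.1 q.2) := by
  unfold t1A
  apply intervalIntegral.continuous_parametric_intervalIntegral_of_continuous'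
  fun_prop

theorem t1A_mul {γ γ' : ℝ → ℂ} (hd : ∀ t, HasDerivAt γ (γ' t) t) (h : Continuous γ') (s t : ℝ) :
    γ t - γ s = ((t - s : ℝ) : ℂ) * t1A γ' s t := by
  have h1 : ∀ r : ℝ, HasDerivAt (fun r : ℝ => γ (s + r * (t - s)))
      (((t - s : ℝ) : ℂ) * γ' (s + r * (t - s))) r := by
    intro r
    have h2 : HasDerivAt (fun r : ℝ => s + r * (t - s)) (t - s) r := by
      simpa using ((hasDerivAt_id r).mul_const (t - s)).const_add s
    have h3 := (hd (s + r * (t - s))).scomp r h2
    simpa [Function.comp_def] using h3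
  have h4 := intervalIntegral.integral_eq_sub_of_hasDerivAt (a := 0) (b := 1)
    (fun r _ => h1 r) (by
      apply Continuous.intervalIntegrable
      fun_prop)
  have h5 : s + 1 * (t - s) = t := by ring
  have h6 : s + 0 * (t - s) = s := by ring
  simp only [h5, h6] at h4
  rw [← h4, t1A, ← intervalIntegral.integral_const_mul]

theorem t1A_self (γ' : ℝ → ℂ) (s : ℝ) : t1A γ' s s = γ' s := by
  unfold t1A
  simp

/-- clamped end point -/
def t1t (T : ℝ) (q : ℝ × ℝ) : ℝ := max 0 (min q.2 T)

/-- clamped starting point -/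
def t1s (T : ℝ) (q : ℝ × ℝ) : ℝ := max 0 (min q.1 (t1t T q))

theorem t1t_cont (T : ℝ) : Continuous (t1t T) := by
  unfold t1t; fun_prop

theorem t1s_cont (T : ℝ) : Continuous (t1s T) := by
  unfold t1s
  have := t1t_cont T
  fun_prop

theorem t1t_mem {T : ℝ} (hT : 0 < T) (q : ℝ × ℝ) : 0 ≤ t1t T q ∧ t1t T q ≤ T := by
  unfold t1t
  exact ⟨le_max_left _ _, max_le hT.le (min_le_right _ _)⟩

theorem t1s_mem {T : ℝ} (hT : 0 < T) (q : ℝ × ℝ) : 0 ≤ t1s T q ∧ t1s T q ≤ t1t T q := by
  unfold t1s
  exact ⟨le_max_left _ _, max_le (t1t_mem hT q).1 (min_le_right _ _)⟩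

theorem t1t_eq {T s t : ℝ} (h0 : 0 ≤ t) (h1 : t ≤ T) : t1t T (s, t) = t := by
  unfold t1t
  simp [h0, h1]

theorem t1s_eq {T s t : ℝ} (hs : 0 ≤ s) (hst : s ≤ t) (h1 : t ≤ T) : t1s T (s, t) = s := by
  unfold t1s
  rw [t1t_eq (hs.trans hst) h1]
  simp [hs, hst]

/-- the two branches of the secant map -/
def t1E (γ' : ℝ → ℂ) (T : ℝ) (q : ℝ × ℝ) : ℂ :=
  if t1t T q - t1s T q ≤ T / 2 then
    t1A γ' (t1s T q) (t1t T q) / ((max (T - (t1t T q - t1s T q)) (T / 2) : ℝ) : ℂ)
  else
    -t1A γ' (t1t T q) (t1s T q + T) / ((max (t1t T q - t1s T q) (T / 2) : ℝ) : ℂ)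

theorem t1 : S_T1 := by
  intro γ γ' T hT hd hc hper hne hinj
  have hA := t1A_cont hc
  have ht := t1t_cont T
  have hs := t1s_cont T
  have hnz : ∀ x : ℝ, ((max x (T / 2) : ℝ) : ℂ) ≠ 0 := by
    intro x
    have : 0 < max x (T / 2) := lt_max_of_lt_right (by linarith)
    exact_mod_cast this.ne'
  -- the second formula
  have hB : ∀ s t : ℝ, γ t - γ s = -((T - (t - s) : ℝ) : ℂ) * t1A γ' t (s + T) := by
    intro s t
    have h1 := t1A_mul hd hc t (s + T)
    rw [hper s] at h1
    have h2 : s + T - t = T - (t - s) := by ring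
    rw [h2] at h1
    rw [neg_mul, ← h1]
    ring
  have hsec : ∀ s t : ℝ, 0 < t - s → t - s < T → γ t - γ s ≠ 0 := by
    intro s t h0 h1 h2
    have h3 : γ s = γ t := (sub_eq_zero.mp h2).symm
    obtain ⟨k, hk⟩ := hinj s t h3
    have h4 : (k : ℝ) * T = -(t - s) := by linarith
    have h5 : (k : ℝ) < 0 := by
      by_contra h6
      push Not at h6
      have := mul_nonneg h6 hT.le
      linarith
    have h6 : (-1 : ℝ) < k := by
      by_contra h7
      push Not at h7
      have : (k : ℝ) * T ≤ (-1) * T := mul_le_mul_of_nonneg_right h7 hT.le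
      linarith
    have h7 : (-1 : ℤ) < k := by exact_mod_cast h6
    have h8 : k < 0 := by exact_mod_cast h5
    omega
  refine ⟨t1E γ' T, ?_, ?_, ?_, ?_, ?_⟩
  · -- continuity
    unfold t1E
    apply Continuous.if_le
    · apply Continuous.div
      · exact hA.comp (hs.prodMk ht)
      · fun_prop
      · intro q; exact hnz _
    · apply Continuous.div
      · exact (hA.comp (ht.prodMk (hs.add continuous_const))).neg
      · fun_prop
      · intro q; exact hnz _
    · fun_prop
    · exact continuous_const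
    · intro q hq
      have h1 : T - (t1t T q - t1s T q) = T / 2 := by rw [hq]; ring
      rw [h1, hq]
      congr 1
      have h2 := t1A_mul hd hc (t1s T q) (t1t T q)
      rw [hB (t1s T q) (t1t T q), h1, hq] at h2
      have h3 : ((T / 2 : ℝ) : ℂ) ≠ 0 := by
        have : T / 2 ≠ 0 := by linarith
        exact_mod_cast this
      have h4 : ((T / 2 : ℝ) : ℂ) * t1A γ' (t1s T q) (t1t T q) =
          ((T / 2 : ℝ) : ℂ) * (-t1A γ' (t1t T q) (t1s T q + T)) := by
        rw [← h2]; ring
      exact mul_left_cancel₀ h3 h4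
  · -- nonvanishing
    intro q
    have h1 := t1t_mem hT q
    have h2 := t1s_mem hT q
    unfold t1E
    split_ifs with h3
    · apply div_ne_zero _ (hnz _)
      rcases eq_or_lt_of_le h2.2 with h4 | h4
      · rw [h4, t1A_self]; exact hne _
      · intro h5
        have h6 := t1A_mul hd hc (t1s T q) (t1t T q)
        rw [h5, mul_zero] at h6
        exact hsec _ _ (by linarith) (by linarith) h6
    · apply div_ne_zero _ (hnz _)
      push Not at h3
      rw [neg_ne_zero]
      have h4 : t1t T q - t1s T q ≤ T := by linarith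
      rcases eq_or_lt_of_le h4 with h5 | h5
      · have h6 : t1s T q + T = t1t T q := by linarith
        rw [h6, t1A_self]; exact hne _
      · intro h6
        have h7 := hB (t1s T q) (t1t T q)
        rw [h6, mul_zero] at h7
        exact hsec _ _ (by linarith) h5 h7
  · intro s t h0 hst h1 hne0
    have hlt : t - s < T := by
      rcases lt_or_eq_of_le (show t - s ≤ T by linarith) with h | h
      · exact h
      · exfalso
        apply hne0
        have h2 : t = T := by linarith
        have h3 : s = 0 := by linarith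
        rw [h2, h3]
    refine ⟨(t - s) * (T - (t - s)), mul_pos (by linarith) (by linarith), ?_⟩
    unfold t1E
    rw [t1t_eq (h0.trans hst.le) h1, t1s_eq h0 hst.le h1]
    split_ifs with h3
    · have h4 : max (T - (t - s)) (T / 2) = T - (t - s) := max_eq_left (by linarith)
      rw [h4, t1A_mul hd hc s t]
      have h5 : ((T - (t - s) : ℝ) : ℂ) ≠ 0 := by
        have : T - (t - s) ≠ 0 := by linarith
        exact_mod_cast this
      rw [Complex.ofReal_mul]
      field_simp
    · push Not at h3
      have h4 : max (t - s) (T / 2) = t - s := max_eq_left h3.le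
      rw [h4, hB s t]
      have h5 : ((t - s : ℝ) : ℂ) ≠ 0 := by
        have : t - s ≠ 0 := by linarith
        exact_mod_cast this
      rw [Complex.ofReal_mul]
      field_simp
  · intro t h0 h1
    refine ⟨T, hT, ?_⟩
    unfold t1E
    rw [t1t_eq h0 h1, t1s_eq h0 le_rfl h1]
    have h3 : t - t ≤ T / 2 := by rw [sub_self]; linarith
    rw [if_pos h3, t1A_self]
    have h4 : max (T - (t - t)) (T / 2) = T := by
      rw [sub_self, sub_zero]; exact max_eq_left (by linarith)
    rw [h4]
    have h5 : (T : ℂ) ≠ 0 := by exact_mod_cast hT.ne'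
    field_simp
  · refine ⟨T, hT, ?_⟩
    unfold t1E
    rw [t1t_eq hT.le le_rfl, t1s_eq le_rfl hT.le le_rfl]
    have h3 : ¬ (T - 0 ≤ T / 2) := by
      rw [sub_zero]; push Not; linarith
    rw [if_neg h3]
    have h4 : max (T - 0) (T / 2) = T := by
      rw [sub_zero]; exact max_eq_left (by linarith)
    rw [h4, zero_add, t1A_self]
    have h6 : γ' T = γ' 0 := by
      have h7 : HasDerivAt γ (γ' T) (0 + T) := by rw [zero_add]; exact hd T
      have h8 : HasDerivAt (fun x => γ (x + T)) (γ' T) 0 := h7.comp_add_const 0 T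
      have h9 : (fun x => γ (x + T)) = γ := funext hper
      rw [h9] at h8
      exact h8.unique (hd 0)
    rw [h6]
    have h5 : (T : ℂ) ≠ 0 := by exact_mod_cast hT.ne'
    field_simp

end

end Pool.Agent.H709U
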