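import Pool.Agent.H709U.Defs
import Pool.Agent.Helper486.Saddle.Winding

/-! T2: Hopf's Umlaufsatz in the form: the tangent direction of a simple closed curve turns. -/

set_option autoImplicit false

open Real Set Topology Filter

namespace Pool.Agent.H709U

namespace T2

/-- a continuous angle starting at `0` with nonnegative sine stays in `[0, π]` -/
theorem angle {φ : ℝ → ℝ} {T : ℝ} (hφ : ContinuousOn φ (Icc 0 T)) (h0 : φ 0 = 0)
    (hs : ∀ t ∈ Icc 0 T, 0 ≤ Real.sin (φ t)) : ∀ t ∈ Icc 0 T, 0 ≤ φ t ∧ φ t ≤ π := by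
  intro t ht
  have hsub : Icc 0 t ⊆ Icc 0 T := Icc_subset_Icc le_rfl ht.2
  have hc : ContinuousOn φ (Icc 0 t) := hφ.mono hsub
  constructor
  · by_contra hneg
    push Not at hneg
    have h1 : max (φ t) (-(π / 2)) ∈ Icc (φ t) (φ 0) := by
      rw [h0]
      refine ⟨le_max_left _ _, max_le hneg.le ?_⟩
      linarith [Real.pi_pos]
    obtain ⟨x, hx, hx2⟩ := intermediate_value_Icc' ht.1 hc h1
    have h2 := hs x (hsub hx)
    rw [hx2] at h2
    have h3 : Real.sin (max (φ t) (-(π / 2))) < 0 := by
      apply Real.sin_neg_of_neg_of_neg_pi_lt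
      · exact max_lt hneg (by linarith [Real.pi_pos])
      · exact lt_of_lt_of_le (by linarith [Real.pi_pos]) (le_max_right _ _)
    linarith
  · by_contra hbig
    push Not at hbig
    have h1 : min (φ t) (3 * π / 2) ∈ Icc (φ 0) (φ t) := by
      rw [h0]
      refine ⟨le_min (by linarith [Real.pi_pos]) (by linarith [Real.pi_pos]), min_le_left _ _⟩
    obtain ⟨x, hx, hx2⟩ := intermediate_value_Icc ht.1 hc h1
    have h2 := hs x (hsub hx)
    rw [hx2] at h2
    have h4 : π < min (φ t) (3 * π / 2) := lt_min hbig (by linarith [Real.pi_pos])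
    have h5 : min (φ t) (3 * π / 2) ≤ 3 * π / 2 := min_le_right _ _
    have h3 : Real.sin (min (φ t) (3 * π / 2)) < 0 := by
      have h6 : Real.sin (min (φ t) (3 * π / 2)) = -Real.sin (min (φ t) (3 * π / 2) - π) := by
        rw [Real.sin_sub_pi]; ring
      rw [h6, neg_lt_zero]
      apply Real.sin_pos_of_pos_of_lt_pi
      · linarith
      · linarith [Real.pi_pos]
    linarith

/-- an angle with nonnegative sine and final cosine `-1` turns by `π` -/
theorem half {φ : ℝ → ℝ} {T : ℝ} (hT : 0 ≤ T) (hφ : ContinuousOn φ (Icc 0 T)) (h0 : φ 0 = 0)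
    (hs : ∀ t ∈ Icc 0 T, 0 ≤ Real.sin (φ t)) (hc : Real.cos (φ T) = -1) : φ T = π := by
  have h1 := angle hφ h0 hs T ⟨hT, le_rfl⟩
  apply Real.injOn_cos ⟨h1.1, h1.2⟩ ⟨Real.pi_pos.le, le_rfl⟩
  rw [hc, Real.cos_pi]

/-- uniqueness of continuous logarithms -/
theorem log_unique {f g : ℝ → ℂ} (hf : Continuous f) (hg : Continuous g)
    (h : ∀ t, Complex.exp (f t) = Complex.exp (g t)) (h0 : f 0 = g 0) : f = g := by
  apply Complex.isCoveringMap_exp.eq_of_comp_eq hf hg _ 0 h0
  funext t
  exact Subtype.ext (h t)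

theorem re_im_of_exp (z : ℂ) : (Complex.exp z).re = Real.exp z.re * Real.cos z.im ∧
    (Complex.exp z).im = Real.exp z.re * Real.sin z.im :=
  ⟨Complex.exp_re z, Complex.exp_im z⟩

/-- the direction of a positive real number -/
theorem pos_dir {z : ℂ} {a : ℝ} (ha : 0 < a) (h : (a : ℂ) = Complex.exp z) :
    Real.cos z.im = 1 ∧ Real.sin z.im = 0 := by
  have h1 : a = Real.exp z.re * Real.cos z.im := by
    have := congrArg Complex.re h
    rwa [Complex.ofReal_re, Complex.exp_re] at this
  have h2 : 0 = Real.exp z.re * Real.sin z.im := by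
    have := congrArg Complex.im h
    rwa [Complex.ofReal_im, Complex.exp_im] at this
  have h3 : Real.sin z.im = 0 := by
    rcases mul_eq_zero.mp h2.symm with h | h
    · exact absurd h (Real.exp_pos _).ne'
    · exact h
  have h4 : 0 < Real.cos z.im := by
    rw [h1] at ha
    exact (mul_pos_iff_of_pos_left (Real.exp_pos _)).mp ha
  have h5 := Real.sin_sq_add_cos_sq z.im
  rw [h3] at h5
  refine ⟨?_, h3⟩
  nlinarith

/-- the direction of a negative real number -/
theorem neg_dir {z : ℂ} {a : ℝ} (ha : a < 0) (h : (a : ℂ) = Complex.exp z) :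
    Real.cos z.im = -1 ∧ Real.sin z.im = 0 := by
  have h1 : ((-a : ℝ) : ℂ) = Complex.exp (z + π * Complex.I) := by
    rw [Complex.exp_add, Complex.exp_pi_mul_I, ← h]
    push_cast
    ring
  have h2 := pos_dir (by linarith : 0 < -a) h1
  have h3 : (z + π * Complex.I).im = z.im + π := by simp
  rw [h3, Real.cos_add_pi, Real.sin_add_pi] at h2
  exact ⟨by linarith [h2.1], by linarith [h2.2]⟩

/-- the core: lowest point at time `0`, positive direction -/
theorem core (h1 : S_T1) (γ γ' : ℝ → ℂ) (T : ℝ) (hT : 0 < T)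
    (hder : ∀ t, HasDerivAt γ (γ' t) t) (hcont : Continuous γ') (hper : ∀ t, γ (t + T) = γ t)
    (hper' : ∀ t, γ' (t + T) = γ' t)
    (hne : ∀ t, γ' t ≠ 0) (hinj : ∀ s t, γ s = γ t → ∃ k : ℤ, s = t + k * T)
    (L : ℝ → ℂ) (hL : Continuous L) (hexp : ∀ t, Complex.exp (L t) = γ' t) (hLT : L T = L 0)
    (hmin : ∀ t, (γ 0).im ≤ (γ t).im) (c : ℝ) (hc : 0 < c) (hγ0 : γ' 0 = c) : False := by
  obtain ⟨E, hE, hE0, hEoff, hEdiag, r0, hr0, hEcorner⟩ := h1 γ γ' T hT hder hcont hper hne hinj
  obtain ⟨M, hM, hME⟩ := Saddle486.exists_log hE hE0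
  have hγT : γ T = γ 0 := by have := hper 0; rwa [zero_add] at this
  have hγ'T : γ' T = c := by have := hper' 0; rw [zero_add] at this; rw [this, hγ0]
  -- values at the corners
  have hc00 : Real.cos (M (0, 0)).im = 1 ∧ Real.sin (M (0, 0)).im = 0 := by
    obtain ⟨r, hr, h⟩ := hEdiag 0 le_rfl hT.le
    apply pos_dir (a := c / r) (by positivity)
    rw [hME]
    rw [hγ0] at h
    push_cast
    rw [h]
    have : (r : ℂ) ≠ 0 := by exact_mod_cast hr.ne'
    field_simp
  have hcTT : Real.cos (M (T, T)).im = 1 ∧ Real.sin (M (T, T)).im = 0 := by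
    obtain ⟨r, hr, h⟩ := hEdiag T hT.le le_rfl
    apply pos_dir (a := c / r) (by positivity)
    rw [hME]
    rw [hγ'T] at h
    push_cast
    rw [h]
    have : (r : ℂ) ≠ 0 := by exact_mod_cast hr.ne'
    field_simp
  have hc0T : Real.cos (M (0, T)).im = -1 ∧ Real.sin (M (0, T)).im = 0 := by
    apply neg_dir (a := -(c / r0)) (by have : 0 < c / r0 := by positivity
                                       linarith)
    rw [hME]
    have h := hEcorner
    rw [hγ0] at h
    push_cast
    rw [h]
    have : (r0 : ℂ) ≠ 0 := by exact_mod_cast hr0.ne'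
    field_simp
  -- first side
  have hs1 : ∀ t ∈ Icc 0 T, 0 ≤ Real.sin (M (0, t)).im := by
    intro t ht
    rcases eq_or_lt_of_le ht.1 with h | h
    · rw [← h, hc00.2]
    rcases eq_or_lt_of_le ht.2 with h' | h'
    · rw [h', hc0T.2]
    obtain ⟨r, hr, h2⟩ := hEoff 0 t le_rfl h ht.2 (by
      intro h3
      exact h'.ne (congrArg Prod.snd h3))
    have h3 := congrArg Complex.im h2
    rw [Complex.sub_im, Complex.im_ofReal_mul, ← hME, Complex.exp_im] at h3
    have h4 : 0 ≤ r * (Real.exp (M (0, t)).re * Real.sin (M (0, t)).im) := by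
      rw [← h3]; linarith [hmin t]
    have h5 : 0 ≤ Real.exp (M (0, t)).re * Real.sin (M (0, t)).im :=
      (mul_nonneg_iff_of_pos_left hr).mp h4
    exact (mul_nonneg_iff_of_pos_left (Real.exp_pos _)).mp h5
  have hs2 : ∀ s ∈ Icc 0 T, Real.sin (M (s, T)).im ≤ 0 := by
    intro s hs
    rcases eq_or_lt_of_le hs.1 with h | h
    · rw [← h, hc0T.2]
    rcases eq_or_lt_of_le hs.2 with h' | h'
    · rw [h', hcTT.2]
    obtain ⟨r, hr, h2⟩ := hEoff s T h.le h' le_rfl (by
      intro h3
      exact h.ne' (congrArg Prod.fst h3))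
    have h3 := congrArg Complex.im h2
    rw [hγT, Complex.sub_im, Complex.im_ofReal_mul, ← hME, Complex.exp_im] at h3
    have h4 : 0 ≤ r * (Real.exp (M (s, T)).re * (-Real.sin (M (s, T)).im)) := by
      have : r * (Real.exp (M (s, T)).re * (-Real.sin (M (s, T)).im)) =
        -(r * (Real.exp (M (s, T)).re * Real.sin (M (s, T)).im)) := by ring
      rw [this, ← h3]; linarith [hmin s]
    have h5 := (mul_nonneg_iff_of_pos_left hr).mp h4
    have h6 := (mul_nonneg_iff_of_pos_left (Real.exp_pos _)).mp h5
    linarith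
  have hMim : Continuous fun q : ℝ × ℝ => (M q).im := Complex.continuous_im.comp hM
  -- turn along the first side
  have ht1 : (M (0, T)).im - (M (0, 0)).im = π := by
    refine half (φ := fun t => (M (0, t)).im - (M (0, 0)).im) hT.le ?_ (by simp) ?_ ?_
    · apply Continuous.continuousOn
      exact (hMim.comp (by fun_prop : Continuous fun t : ℝ => ((0 : ℝ), t))).sub continuous_const
    · intro t ht
      rw [Real.sin_sub, hc00.1, hc00.2, mul_one, mul_zero, sub_zero]
      exact hs1 t ht
    · rw [Real.cos_sub, hc00.1, hc00.2, hc0T.1]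
      ring
  have ht2 : (M (T, T)).im - (M (0, T)).im = π := by
    refine half (φ := fun s => (M (s, T)).im - (M (0, T)).im) hT.le ?_ (by simp) ?_ ?_
    · apply Continuous.continuousOn
      exact (hMim.comp (by fun_prop : Continuous fun s : ℝ => (s, T))).sub continuous_const
    · intro s hs
      rw [Real.sin_sub, hc0T.1, hc0T.2]
      have := hs2 s hs
      linarith
    · rw [Real.cos_sub, hc0T.1, hc0T.2, hcTT.1]
      ring
  -- the diagonal
  have hdiag : ∀ t ∈ Icc 0 T, Real.sin ((L t).im - (M (t, t)).im) = 0 ∧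
      Real.cos ((L t).im - (M (t, t)).im) = 1 := by
    intro t ht
    obtain ⟨r, hr, h⟩ := hEdiag t ht.1 ht.2
    have h2 : ((r : ℝ) : ℂ) = Complex.exp (L t - M (t, t)) := by
      rw [Complex.exp_sub, hexp, hME, h]
      have := hE0 (t, t)
      field_simp
    have h3 := pos_dir hr h2
    rw [Complex.sub_im] at h3
    exact ⟨h3.2, h3.1⟩
  have hcd : Continuous fun t : ℝ => (L t).im - (M (t, t)).im :=
    (Complex.continuous_im.comp hL).sub (hMim.comp (by fun_prop : Continuous fun t : ℝ => (t, t)))
  have hd0 := hdiag 0 ⟨le_rfl, hT.le⟩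
  have hdd1 := angle (φ := fun t => ((L t).im - (M (t, t)).im) - ((L 0).im - (M (0, 0)).im))
    (T := T) ((hcd.sub continuous_const).continuousOn) (by simp) (by
      intro t ht
      rw [Real.sin_sub, (hdiag t ht).1, hd0.1]
      simp) T ⟨hT.le, le_rfl⟩
  have hdd2 := angle (φ := fun t => ((L 0).im - (M (0, 0)).im) - ((L t).im - (M (t, t)).im))
    (T := T) ((continuous_const.sub hcd).continuousOn) (by simp) (by
      intro t ht
      rw [Real.sin_sub, (hdiag t ht).1, hd0.1]
      simp) T ⟨hT.le, le_rfl⟩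
  rw [hLT] at hdd1 hdd2
  have := Real.pi_pos
  linarith [hdd1.1, hdd2.1]

end T2

open T2

theorem t2 : S_T1 → S_T2 := by
  intro h1 γ γ' T hT hder hcont hper hne hinj L hL hexp hLT
  -- periodicity of the derivative
  have hper' : ∀ t, γ' (t + T) = γ' t := by
    intro t
    have e1 : HasDerivAt (fun x => γ (x + T)) (γ' (t + T)) t := by
      simpa using (hder (t + T)).comp_add_const t T
    have e2 : (fun x => γ (x + T)) = γ := funext hper
    rw [e2] at e1
    exact e1.unique (hder t)
  have hLper : ∀ t, L (t + T) = L t := by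
    have h2 : (fun t => L (t + T)) = L := by
      apply log_unique (f := fun t => L (t + T)) (hL.comp (continuous_add_const T)) hL
      · intro t
        rw [hexp, hexp, hper']
      · simp only [zero_add]
        exact hLT
    intro t
    exact congrFun h2 t
  have hγc : Continuous γ := continuous_iff_continuousAt.mpr (fun t => (hder t).continuousAt)
  -- the lowest point
  obtain ⟨t0, ht0⟩ : ∃ t0, ∀ t, (γ t0).im ≤ (γ t).im := by
    obtain ⟨t0, _, h3⟩ := (isCompact_Icc (a := (0 : ℝ)) (b := T)).exists_isMinOn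
      ⟨0, le_rfl, hT.le⟩ ((Complex.continuous_im.comp hγc).continuousOn)
    refine ⟨t0, fun t => ?_⟩
    have hp : Function.Periodic γ T := hper
    obtain ⟨y, hy, hy2⟩ := hp.exists_mem_Ico₀ hT t
    rw [hy2]
    exact h3 ⟨hy.1, hy.2.le⟩
  -- the derivative at the lowest point is real
  have him : (γ' t0).im = 0 := by
    have h4 : HasDerivAt (fun t => (γ t).im) (γ' t0).im t0 := by
      have h5 := (Complex.imCLM.hasFDerivAt (x := γ t0)).comp_hasDerivAt t0 (hder t0)
      exact h5
    apply IsLocalMin.hasDerivAt_eq_zero _ h4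
    exact Filter.Eventually.of_forall ht0
  have hre : (γ' t0).re ≠ 0 := by
    intro h
    exact hne t0 (Complex.ext h him)
  rcases lt_or_gt_of_ne hre with hneg | hpos
  · -- reverse time
    refine core h1 (fun t => γ (t0 - t)) (fun t => -γ' (t0 - t)) T hT ?_ ?_ ?_ ?_ ?_ ?_
      (fun t => L (t0 - t) + π * Complex.I) ?_ ?_ ?_ ?_ (-(γ' t0).re) (by linarith) ?_
    · intro t
      have h5 := (hder (t0 - t)).scomp t ((hasDerivAt_id t).const_sub t0)
      rw [neg_one_smul] at h5
      exact h5
    · exact (hcont.comp (continuous_const.sub continuous_id)).neg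
    · intro t
      have := hper (t0 - (t + T))
      rw [← this]
      congr 1
      ring
    · intro t
      have := hper' (t0 - (t + T))
      rw [← this]
      congr 2
      ring
    · intro t
      exact neg_ne_zero.mpr (hne _)
    · intro s t hst
      obtain ⟨k, hk⟩ := hinj _ _ hst
      refine ⟨-k, ?_⟩
      push_cast
      linarith
    · exact (hL.comp (continuous_const.sub continuous_id)).add continuous_const
    · intro t
      rw [Complex.exp_add, Complex.exp_pi_mul_I, hexp]
      ring
    · simp only [sub_zero]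
      have := hLper (t0 - T)
      rw [← this]
      congr 2
      ring
    · intro t
      simp only [sub_zero]
      exact ht0 _
    · simp only [sub_zero]
      apply Complex.ext
      · simp
      · simp [him]
  · refine core h1 (fun t => γ (t0 + t)) (fun t => γ' (t0 + t)) T hT ?_ ?_ ?_ ?_ ?_ ?_
      (fun t => L (t0 + t)) ?_ ?_ ?_ ?_ (γ' t0).re hpos ?_
    · intro t
      have h5 := (hder (t0 + t)).scomp t ((hasDerivAt_id t).const_add t0)
      rw [one_smul] at h5
      exact h5
    · exact hcont.comp (continuous_const.add continuous_id)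
    · intro t
      have := hper (t0 + t)
      rw [← this]
      congr 1
      ring
    · intro t
      have := hper' (t0 + t)
      rw [← this]
      congr 1
      ring
    · intro t
      exact hne _
    · intro s t hst
      obtain ⟨k, hk⟩ := hinj _ _ hst
      exact ⟨k, by linarith⟩
    · exact hL.comp (continuous_const.add continuous_id)
    · intro t
      exact hexp _
    · simp only [add_zero]
      exact hLper t0
    · intro t
      simp only [add_zero]
      exact ht0 _
    · simp only [add_zero]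
      apply Complex.ext
      · simp
      · simp [him]

end Pool.Agent.H709U
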