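import Pool.Agent.H709U.Defs
import Pool.Agent.Helper486.Saddle.Winding

/-! T3: a closed orbit has a zero of the field in its bounding box (helper228). -/

open Real Set MeasureTheory Topology Filter
open scoped ENNReal

namespace Pool.Agent.H709U

noncomputable section

open Pool.Agent.H709R2 (rot wedge field ClosedOrbit divW winv)

theorem t3 (hM0 : S_M0) (hT2 : S_T2) : S_T3 := by
  intro X hX α C hC
  obtain ⟨γ, T, hγ, rfl⟩ := hM0 X hX α C hC
  by_contra hcon
  push Not at hcon
  have hne : ∀ p, InBox p (range γ) → X p ≠ 0 := fun p hp h => hcon p h hp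
  have hc : Continuous γ := continuous_iff_continuousAt.2 fun t => (hγ.ode t).continuousAt
  have hcX : Continuous X := hX.continuous
  -- the range is compact
  have hcomp : IsCompact (range γ) := by
    have : range γ = γ '' Icc 0 T := by
      ext z
      constructor
      · rintro ⟨t, rfl⟩
        obtain ⟨s, hs, hst⟩ := Function.Periodic.exists_mem_Ico (f := γ) hγ.per hγ.pos t 0
        rw [zero_add] at hs
        exact ⟨s, ⟨hs.1, hs.2.le⟩, hst.symm⟩
      · rintro ⟨s, _, rfl⟩
        exact ⟨s, rfl⟩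
    rw [this]
    exact isCompact_Icc.image hc
  have hne' : (range γ).Nonempty := range_nonempty γ
  obtain ⟨a0, ha0, ha0'⟩ := hcomp.exists_isMinOn hne' continuous_fst.continuousOn
  obtain ⟨a1, ha1, ha1'⟩ := hcomp.exists_isMaxOn hne' continuous_fst.continuousOn
  obtain ⟨b0, hb0, hb0'⟩ := hcomp.exists_isMinOn hne' continuous_snd.continuousOn
  obtain ⟨b1, hb1, hb1'⟩ := hcomp.exists_isMaxOn hne' continuous_snd.continuousOn
  have ha : a0.1 ≤ a1.1 := ha0' ha1
  have hb : b0.2 ≤ b1.2 := hb0' hb1
  set cl : ℝ × ℝ → ℝ × ℝ := fun z => (max a0.1 (min z.1 a1.1), max b0.2 (min z.2 b1.2)) with hcl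
  have hclc : Continuous cl := by fun_prop
  have hclbox : ∀ z, InBox (cl z) (range γ) := by
    intro z
    refine ⟨⟨a0, ha0, a1, ha1, le_max_left _ _, max_le ha (min_le_right _ _)⟩,
      ⟨b0, hb0, b1, hb1, le_max_left _ _, max_le hb (min_le_right _ _)⟩⟩
  have hclid : ∀ t, cl (γ t) = γ t := by
    intro t
    have h1 : a0.1 ≤ (γ t).1 := ha0' ⟨t, rfl⟩
    have h2 : (γ t).1 ≤ a1.1 := ha1' ⟨t, rfl⟩
    have h3 : b0.2 ≤ (γ t).2 := hb0' ⟨t, rfl⟩
    have h4 : (γ t).2 ≤ b1.2 := hb1' ⟨t, rfl⟩
    simp only [hcl]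
    rw [min_eq_left h2, min_eq_left h4, max_eq_right h1, max_eq_right h3]
  set e : (ℝ × ℝ) ≃L[ℝ] ℂ := Complex.equivRealProdCLM.symm with he
  obtain ⟨l, hl, hle⟩ := Saddle486.exists_log (F := fun z => e (X (cl z)))
    (e.continuous.comp (hcX.comp hclc)) (fun z => by
      rw [Ne, map_eq_zero_iff e e.injective]
      exact hne _ (hclbox z))
  have hrot : ∀ v : ℝ × ℝ, e (rot α v) = Complex.exp (α * Complex.I) * e v := by
    intro v
    have h1 : ∀ w : ℝ × ℝ, e w = (w.1 : ℂ) + w.2 * Complex.I := fun w => by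
      simp [he, Complex.equivRealProdCLM_symm_apply]
    rw [h1, h1, Complex.exp_mul_I]
    unfold H709R2.rot
    push_cast
    ring_nf
    rw [Complex.I_sq]
    ring
  have hG : ∀ t, HasDerivAt (fun t => e (γ t)) (e (rf X α (γ t))) t := fun t =>
    e.hasFDerivAt.comp_hasDerivAt t (hγ.ode t)
  have hGc : Continuous fun t => e (rf X α (γ t)) := by
    have : Continuous fun t => Complex.exp (α * Complex.I) * e (X (γ t)) :=
      continuous_const.mul (e.continuous.comp (hcX.comp hc))
    refine this.congr fun t => ?_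
    exact (hrot _).symm
  have h := hT2 (fun t => e (γ t)) (fun t => e (rf X α (γ t))) T hγ.pos hG hGc
    (fun t => by simp only [hγ.per t]) (fun t => by
      rw [Ne, map_eq_zero_iff e e.injective]
      exact hγ.ne t) (fun s t hst => hγ.inj s t (e.injective hst))
    (fun t => l (γ t) + α * Complex.I) ((hl.comp hc).add continuous_const) (fun t => by
      rw [Complex.exp_add, hle, hclid]
      show _ = e (rot α (X (γ t)))
      rw [hrot, mul_comm])
  apply h
  have : γ T = γ 0 := by simpa using hγ.per 0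
  simp only [this]

end

end Pool.Agent.H709U
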