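import Pool.Agent.H709U.B3
import Pool.Agent.H709U.MA
import Pool.Agent.H709U.G1
import Pool.Agent.H709U.G2
import Pool.Agent.H709U.G3
import Pool.Agent.H709U.G4
import Pool.Agent.H709U.R1

/-! Assembly of the averaged cubic bound for uniformly star-shaped closed orbits. -/

open Real Set MeasureTheory Topology Filter
open scoped ENNReal

namespace Pool.Agent.H709U

open Pool.Agent.H709R2 (rot wedge field ClosedOrbit)
open Pool.Agent.H709Q (Maj)

theorem g4' : S_G4 := g4 ma g1 g2 g3

/-- averaged cubic bound for uniformly star-shaped closed orbits -/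
theorem roundCubic {n : ℕ} {P Q : MvPolynomial (Fin 2) ℝ} (hP : P.totalDegree ≤ n)
    (hQ : Q.totalDegree ≤ n) (hrel : IsRelPrime P Q) {x : ℝ} (hx : 0 < x) :
    Maj (fun α => ({C | C ∈ Cl P Q α ∧ ∃ p, field P Q p = 0 ∧
      ∀ z ∈ C, x ^ 2 * W (field P Q) p α z ^ 2 < V (field P Q) p α z ^ 2}.encard : ℝ≥0∞))
      ((1 + 1 / x ^ 2) * (π * n ^ 3)) :=
  round_coprime b3 g4' hP hQ hrel hx

end Pool.Agent.H709U
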