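import Pool.Agent.H709U.B1
import Pool.Agent.H709U.B2
import Pool.Agent.H709U.B3
import Pool.Agent.H709U.M0
import Pool.Agent.H709U.T1
import Pool.Agent.H709U.T2
import Pool.Agent.H709U.T3
import Pool.Agent.H709U.R1

/-! Assembly of the averaged cubic bound per scale. -/

open Real Set MeasureTheory Topology Filter
open scoped ENNReal

namespace Pool.Agent.H709U

open Pool.Agent.H709Q (Maj)

theorem t3' : S_T3 := t3 m0 (t2 t1)

/-- averaged cubic bound per scale -/
theorem cubicPerScale {n : ℕ} {P Q : MvPolynomial (Fin 2) ℝ} (hP : P.totalDegree ≤ n)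
    (hQ : Q.totalDegree ≤ n) (hne : P ≠ 0 ∨ Q ≠ 0) {r R : ℝ} (hr : 0 < r) (hR : r ≤ R) :
    Maj (fun α => ((ClD P Q r R α).encard : ℝ≥0∞))
      (4 * π * n ^ 3 * (1 + Real.logb 2 (R / r))) :=
  r1 b1 (b2 m0) b3 t3' hP hQ hne hr hR

end Pool.Agent.H709U
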