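import Pool.Agent.H709U.Defs

/-! Task Z: the main theorem from the coprime case (numerical choice of `δ`, Markov inequality). -/

open Real Set MeasureTheory Topology Filter
open scoped ENNReal

namespace Pool.Agent.H709U

open Pool.Agent.H709R2 (rot wedge field ClosedOrbit divW winv)
open Pool.Agent.H709Q (Maj)

theorem z_nM (n : ℕ) : ((nM n : ℕ) : ℝ) + 1 = 8 * (n : ℝ) ^ 2 + 10 * n + 3 := by
  unfold nM
  push_cast
  ring

theorem z_nN (n : ℕ) : ((nN n : ℕ) : ℝ) = 16 * (n : ℝ) + 3 := by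
  have h : nN n = 16 * n + 3 := by unfold nN; omega
  rw [h]
  push_cast
  ring

/-- the half-width of the windows is at most `1 / δ` -/
theorem z_L0 (n : ℕ) (D : ℝ) (hD : 5120 * ((n : ℝ) + 1) ^ 5 ≤ D) :
    2 * L0 n (1 / D) ≤ 2 * D := by
  have hn : (0 : ℝ) ≤ n := Nat.cast_nonneg n
  set t : ℝ := (n : ℝ) + 1 with ht
  have ht1 : 1 ≤ t := by rw [ht]; linarith
  have ht0 : 0 < t := by linarith
  have hDpos : 0 < D := lt_of_lt_of_le (by positivity) hD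
  have e1 : (3 : ℝ) / (1 / D) = 3 * D := by field_simp
  unfold L0
  rw [e1, Real.log_mul (by rw [z_nM]; positivity) (by positivity), Real.log_pow, z_nM, z_nN]
  have h1 : Real.log (8 * (n : ℝ) ^ 2 + 10 * n + 3) ≤ 8 * t ^ 2 := by
    refine (Real.log_le_sub_one_of_pos (by positivity)).trans ?_
    rw [ht]
    nlinarith
  have h2 : Real.log (3 * D) ≤ D / (16 * t) + 48 * t := by
    have e2 : 3 * D = (D / (16 * t)) * (48 * t) := by field_simp; ring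
    have h3 : Real.log (D / (16 * t)) ≤ D / (16 * t) :=
      (Real.log_le_sub_one_of_pos (by positivity)).trans (by linarith)
    have h4 : Real.log (48 * t) ≤ 48 * t :=
      (Real.log_le_sub_one_of_pos (by positivity)).trans (by linarith)
    rw [e2, Real.log_mul (by positivity) (by positivity)]
    linarith
  have h5 : (16 * (n : ℝ) + 3) * Real.log (3 * D) ≤ 16 * t * (D / (16 * t) + 48 * t) := by
    have h6 : 0 ≤ Real.log (3 * D) := Real.log_nonneg (by nlinarith [one_le_pow₀ (n := 5) ht1])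
    have h7 : 16 * (n : ℝ) + 3 ≤ 16 * t := by rw [ht]; linarith
    exact mul_le_mul h7 h2 h6 (by positivity)
  have h8 : 16 * t * (D / (16 * t) + 48 * t) = D + 768 * t ^ 2 := by
    field_simp
    ring
  have h9 : t ^ 2 ≤ t ^ 5 := pow_le_pow_right₀ ht1 (by norm_num)
  rw [h8] at h5
  nlinarith

theorem z_vol (n : ℕ) (ε : ℝ) (hε : 0 < ε) :
    (n : ℝ) ^ 2 * (((nM n : ℕ) + 1) * (nN n : ℕ)) * (20 * (ε / (5120 * ((n : ℝ) + 1) ^ 5))) ≤
      ε / 2 := by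
  have hn : (0 : ℝ) ≤ n := Nat.cast_nonneg n
  rw [z_nM, z_nN]
  set t : ℝ := (n : ℝ) + 1 with ht
  have ht1 : 1 ≤ t := by rw [ht]; linarith
  have ht0 : 0 < t := by linarith
  have h1 : (8 * (n : ℝ) ^ 2 + 10 * n + 3) ≤ 8 * t ^ 2 := by rw [ht]; nlinarith
  have h2 : (16 * (n : ℝ) + 3) ≤ 16 * t := by rw [ht]; linarith
  have h3 : (n : ℝ) ^ 2 ≤ t ^ 2 := by rw [ht]; nlinarith
  calc (n : ℝ) ^ 2 * ((8 * (n : ℝ) ^ 2 + 10 * n + 3) * (16 * (n : ℝ) + 3)) *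
        (20 * (ε / (5120 * t ^ 5)))
      ≤ t ^ 2 * ((8 * t ^ 2) * (16 * t)) * (20 * (ε / (5120 * t ^ 5))) := by gcongr
    _ = ε / 2 := by field_simp; ring

theorem z_num (n : ℕ) (ε : ℝ) (hε : 0 < ε) (hε1 : ε ≤ 1) :
    (n : ℝ) ^ 2 * ((1 + 4 / (ε / (5120 * ((n : ℝ) + 1) ^ 5)) ^ 2) * (π * n) +
        (((nM n : ℕ) + 1) ^ 2 + (n : ℝ) ^ 2) *
          (2 * (L0 n (ε / (5120 * ((n : ℝ) + 1) ^ 5)) + 4 * π / (ε / (5120 * ((n : ℝ) + 1) ^ 5))) + 2) *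
          (8000 * ((n : ℝ) + 1))) ≤
      (10 ^ 11 * ((n : ℝ) + 1) ^ 13 / ε ^ 3) * (ε / 2) := by
  rcases Nat.eq_zero_or_pos n with h0 | h0
  · subst h0
    simp only [Nat.cast_zero, ne_eq, OfNat.ofNat_ne_zero, not_false_eq_true, zero_pow, zero_mul]
    positivity
  have hn : (1 : ℝ) ≤ n := by exact_mod_cast h0
  set t : ℝ := (n : ℝ) + 1 with ht
  have ht2 : 2 ≤ t := by rw [ht]; linarith
  have ht0 : 0 < t := by linarith
  have ht1 : 1 ≤ t := by linarith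
  set D : ℝ := 5120 * t ^ 5 / ε with hDdef
  have hδ : ε / (5120 * t ^ 5) = 1 / D := by rw [hDdef]; field_simp
  have hD : 5120 * t ^ 5 ≤ D := by
    rw [hDdef, le_div_iff₀ hε]
    have : 0 ≤ 5120 * t ^ 5 := by positivity
    nlinarith
  have hD1 : 5120 ≤ D := by
    have := one_le_pow₀ (n := 5) ht1
    linarith
  have hD0 : 0 < D := by linarith
  have hL := z_L0 n D hD
  rw [hδ, z_nM]
  have hpi : π < 3.15 := Real.pi_lt_d2
  have hpi0 := Real.pi_pos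
  have e1 : (4 : ℝ) / (1 / D) ^ 2 = 4 * D ^ 2 := by field_simp
  have e2 : 4 * π / (1 / D) = 4 * π * D := by field_simp
  rw [e1, e2]
  have k1 : (1 + 4 * D ^ 2) * (π * n) ≤ (5 * D ^ 2) * (4 * t) := by
    have h1 : 1 + 4 * D ^ 2 ≤ 5 * D ^ 2 := by nlinarith
    have h2 : π * n ≤ 4 * t := by rw [ht]; nlinarith
    exact mul_le_mul h1 h2 (by positivity) (by positivity)
  have k2 : (8 * (n : ℝ) ^ 2 + 10 * n + 3) ^ 2 + (n : ℝ) ^ 2 ≤ 64 * t ^ 4 := by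
    rw [ht]
    nlinarith [pow_pos (lt_of_lt_of_le one_pos hn) 3, pow_pos (lt_of_lt_of_le one_pos hn) 2]
  have k3 : 2 * (L0 n (1 / D) + 4 * π * D) + 2 ≤ 28 * D := by nlinarith
  have k3' : 0 ≤ 28 * D := by positivity
  have k4 : (n : ℝ) ^ 2 ≤ t ^ 2 := by rw [ht]; nlinarith
  have k5 : ((8 * (n : ℝ) ^ 2 + 10 * n + 3) ^ 2 + (n : ℝ) ^ 2) *
      (2 * (L0 n (1 / D) + 4 * π * D) + 2) * (8000 * t) ≤ (64 * t ^ 4) * (28 * D) * (8000 * t) := by
    refine mul_le_mul_of_nonneg_right ?_ (by positivity)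
    calc ((8 * (n : ℝ) ^ 2 + 10 * n + 3) ^ 2 + (n : ℝ) ^ 2) *
          (2 * (L0 n (1 / D) + 4 * π * D) + 2)
        ≤ ((8 * (n : ℝ) ^ 2 + 10 * n + 3) ^ 2 + (n : ℝ) ^ 2) * (28 * D) :=
          mul_le_mul_of_nonneg_left k3 (by positivity)
      _ ≤ (64 * t ^ 4) * (28 * D) := mul_le_mul_of_nonneg_right k2 k3'
  have k6 : (n : ℝ) ^ 2 * ((1 + 4 * D ^ 2) * (π * n) +
      ((8 * (n : ℝ) ^ 2 + 10 * n + 3) ^ 2 + (n : ℝ) ^ 2) *
        (2 * (L0 n (1 / D) + 4 * π * D) + 2) * (8000 * t)) ≤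
      t ^ 2 * ((5 * D ^ 2) * (4 * t) + (64 * t ^ 4) * (28 * D) * (8000 * t)) := by
    calc (n : ℝ) ^ 2 * ((1 + 4 * D ^ 2) * (π * n) +
          ((8 * (n : ℝ) ^ 2 + 10 * n + 3) ^ 2 + (n : ℝ) ^ 2) *
            (2 * (L0 n (1 / D) + 4 * π * D) + 2) * (8000 * t))
        ≤ (n : ℝ) ^ 2 * ((5 * D ^ 2) * (4 * t) + (64 * t ^ 4) * (28 * D) * (8000 * t)) :=
          mul_le_mul_of_nonneg_left (add_le_add k1 k5) (by positivity)
      _ ≤ t ^ 2 * ((5 * D ^ 2) * (4 * t) + (64 * t ^ 4) * (28 * D) * (8000 * t)) :=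
          mul_le_mul_of_nonneg_right k4 (by positivity)
  refine k6.trans ?_
  have e3 : t ^ 2 * ((5 * D ^ 2) * (4 * t) + (64 * t ^ 4) * (28 * D) * (8000 * t)) =
      (20 * 5120 ^ 2 * t ^ 13 + (64 * 28 * 8000 * 5120) * t ^ 12 * ε) / ε ^ 2 := by
    rw [hDdef]
    field_simp
    ring
  have e4 : (10 ^ 11 * t ^ 13 / ε ^ 3) * (ε / 2) = (5 * 10 ^ 10 * t ^ 13) / ε ^ 2 := by
    field_simp
    ring
  rw [e3, e4]
  refine div_le_div_of_nonneg_right ?_ (by positivity)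
  have k7 : 2 * t ^ 12 ≤ t ^ 13 := by
    have : t ^ 13 = t * t ^ 12 := by ring
    rw [this]
    exact mul_le_mul_of_nonneg_right ht2 (by positivity)
  have k8 : t ^ 12 * ε ≤ t ^ 12 := mul_le_of_le_one_right (by positivity) hε1
  nlinarith [pow_pos ht0 12]

theorem z : S_B1 → S_B2 → S_Z1 → S_Z := by
  intro hB1 hB2 hZ1 n P Q hP hQ hne ε hε hε1
  obtain ⟨h, P₁, Q₁, rfl, rfl, hrel, hP1, hQ1⟩ := hB1 n P Q hP hQ hne
  set t : ℝ := (n : ℝ) + 1 with ht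
  have hn : (0 : ℝ) ≤ n := Nat.cast_nonneg n
  have ht1 : 1 ≤ t := by rw [ht]; linarith
  set δ : ℝ := ε / (5120 * t ^ 5) with hδ
  have hδ0 : 0 < δ := by positivity
  have hδ1 : δ ≤ 1 := by
    rw [hδ, div_le_one (by positivity)]
    have := one_le_pow₀ (n := 5) ht1
    linarith
  obtain ⟨B, hB, g, hg, hgN, hgI⟩ := hZ1 n P₁ Q₁ hP1 hQ1 hrel δ hδ0 hδ1
  set T : ℝ := 10 ^ 11 * t ^ 13 / ε ^ 3 with hT
  have hT0 : 0 < T := by positivity
  have hsub : {α | α ∈ Ioo 0 π ∧ ENNReal.ofReal T < ((Cl (h * P₁) (h * Q₁) α).encard : ℝ≥0∞)} ⊆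
      B ∪ ({α | ENNReal.ofReal T ≤ g α} ∩ Ioo 0 π) := by
    rintro α ⟨h1, h2⟩
    by_cases hα : α ∈ B
    · exact Or.inl hα
    · refine Or.inr ⟨?_, h1⟩
      have h3 := hgN α h1
      simp only [indicator_of_mem (show α ∈ Bᶜ from hα)] at h3
      have h4 : ((Cl (h * P₁) (h * Q₁) α).encard : ℝ≥0∞) ≤ ((Cl P₁ Q₁ α).encard : ℝ≥0∞) := by
        exact_mod_cast Set.encard_le_encard (hB2 h P₁ Q₁ α)
      exact (h2.le.trans h4).trans h3
  have hMark : volume ({α | ENNReal.ofReal T ≤ g α} ∩ Ioo 0 π) ≤ ENNReal.ofReal (ε / 2) := by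
    have hms : MeasurableSet {α | ENNReal.ofReal T ≤ g α} := measurableSet_le measurable_const hg
    rw [← Measure.restrict_apply hms]
    refine (meas_ge_le_lintegral_div hg.aemeasurable ?_ ENNReal.ofReal_ne_top).trans ?_
    · simpa using hT0
    · refine (ENNReal.div_le_div_right hgI _).trans ?_
      rw [← ENNReal.ofReal_div_of_pos hT0]
      refine ENNReal.ofReal_le_ofReal ?_
      rw [div_le_iff₀ hT0, mul_comm (ε / 2) T]
      exact z_num n ε hε hε1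
  calc volume {α | α ∈ Ioo 0 π ∧ ENNReal.ofReal T < ((Cl (h * P₁) (h * Q₁) α).encard : ℝ≥0∞)}
      ≤ volume (B ∪ ({α | ENNReal.ofReal T ≤ g α} ∩ Ioo 0 π)) := measure_mono hsub
    _ ≤ volume B + volume ({α | ENNReal.ofReal T ≤ g α} ∩ Ioo 0 π) := measure_union_le _ _
    _ ≤ ENNReal.ofReal (ε / 2) + ENNReal.ofReal (ε / 2) :=
        add_le_add (hB.trans (ENNReal.ofReal_le_ofReal (z_vol n ε hε))) hMark
    _ = ENNReal.ofReal ε := by
        rw [← ENNReal.ofReal_add (by positivity) (by positivity)]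
        congr 1
        ring

end Pool.Agent.H709U
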