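import Pool.Agent.H709U.Defs

/-! Z1: the theorem for coprime components. -/

open Real Set MeasureTheory Topology Filter
open scoped ENNReal

namespace Pool.Agent.H709U

noncomputable section

open Pool.Agent.H709R2 (rot wedge field ClosedOrbit divW winv)
open Pool.Agent.H709Q (Maj)

namespace Z1aux

lemma maj_mono {N N' : ℝ → ℝ≥0∞} {K K' : ℝ} (h : ∀ α ∈ Ioo 0 π, N α ≤ N' α) (hK : K' ≤ K)
    (hM : Maj N' K') : Maj N K := by
  obtain ⟨g, hg1, hg2, hg3⟩ := hM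
  exact ⟨g, hg1, fun α hα => (h α hα).trans (hg2 α hα), hg3.trans (ENNReal.ofReal_le_ofReal hK)⟩

lemma maj_add {N N' : ℝ → ℝ≥0∞} {K K' : ℝ} (hK : 0 ≤ K) (hK' : 0 ≤ K') (h : Maj N K)
    (h' : Maj N' K') : Maj (fun α => N α + N' α) (K + K') := by
  obtain ⟨g, hg1, hg2, hg3⟩ := h
  obtain ⟨g', hg1', hg2', hg3'⟩ := h'
  refine ⟨fun α => g α + g' α, hg1.add hg1', fun α hα => add_le_add (hg2 α hα) (hg2' α hα), ?_⟩
  rw [lintegral_add_left hg1, ENNReal.ofReal_add hK hK']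
  exact add_le_add hg3 hg3'

lemma maj_sum {ι : Type*} (s : Finset ι) (N : ι → ℝ → ℝ≥0∞) (K : ι → ℝ)
    (hK : ∀ i ∈ s, 0 ≤ K i) (h : ∀ i ∈ s, Maj (N i) (K i)) :
    Maj (fun α => ∑ i ∈ s, N i α) (∑ i ∈ s, K i) := by
  classical
  induction s using Finset.induction_on with
  | empty =>
    refine ⟨fun _ => 0, measurable_const, fun α _ => by simp, by simp⟩
  | insert a s ha ih =>
    simp only [Finset.sum_insert ha]
    exact maj_add (hK a (Finset.mem_insert_self a s))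
      (Finset.sum_nonneg fun i hi => hK i (Finset.mem_insert_of_mem hi))
      (h a (Finset.mem_insert_self a s))
      (ih (fun i hi => hK i (Finset.mem_insert_of_mem hi))
        (fun i hi => h i (Finset.mem_insert_of_mem hi)))

lemma encard_biUnion {ι β : Type*} (s : Finset ι) (A : ι → Set β) :
    ((⋃ i ∈ s, A i).encard : ℝ≥0∞) ≤ ∑ i ∈ s, ((A i).encard : ℝ≥0∞) := by
  classical
  induction s using Finset.induction_on with
  | empty => simp
  | insert a s ha ih =>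
    rw [Finset.sum_insert ha, Finset.set_biUnion_insert]
    have h1 : ((A a ∪ ⋃ x ∈ s, A x).encard : ℝ≥0∞) ≤
        (((A a).encard + (⋃ x ∈ s, A x).encard : ℕ∞) : ℝ≥0∞) :=
      ENat.toENNReal_le.2 (encard_union_le _ _)
    rw [ENat.toENNReal_add] at h1
    exact h1.trans (add_le_add le_rfl ih)

lemma encard_mono' {β : Type*} {A B : Set β} (h : A ⊆ B) :
    (A.encard : ℝ≥0∞) ≤ (B.encard : ℝ≥0∞) := ENat.toENNReal_le.2 (encard_le_encard h)

lemma L0_nonneg (n : ℕ) (δ : ℝ) (hδ : 0 < δ) (hδ1 : δ ≤ 1) : 0 ≤ L0 n δ := by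
  unfold L0
  apply div_nonneg _ (by norm_num)
  apply Real.log_nonneg
  have h1 : (1 : ℝ) ≤ 3 / δ := by
    rw [le_div_iff₀ hδ]
    linarith
  have h2 : (1 : ℝ) ≤ (3 / δ) ^ nN n := one_le_pow₀ h1
  have h3 : (1 : ℝ) ≤ (nM n : ℝ) + 1 := by
    have : (0 : ℝ) ≤ nM n := Nat.cast_nonneg _
    linarith
  nlinarith

lemma rot_zero' (α : ℝ) : rot α (0 : ℝ × ℝ) = 0 := by
  unfold rot
  ext <;> simp

end Z1aux

open Z1aux in
theorem z1 (hM0 : S_M0) (hT3 : S_T3) (hB3 : S_B3) (hK7 : S_K7) (hG4 : S_G4) (hH4 : S_H4)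
    (hE : S_E2b) : S_Z1 := by
  classical
  intro n P Q hP hQ hPQ δ hδ hδ1
  obtain ⟨Z, hZc, hZ⟩ := hB3 n P Q hP hQ hPQ
  have hcd : ContDiff ℝ 2 (field P Q) := H709R2.contDiff_field P Q
  choose R S hR hS hK using fun p => hK7 n P Q hP hQ Z (fun z hz => (hZ z).1 hz) p δ hδ hδ1
  set Λ : ℝ := L0 n δ + 4 * π / δ with hΛ
  have hL0 := L0_nonneg n δ hδ hδ1
  have hΛ0 : 0 ≤ Λ := by
    have : 0 ≤ 4 * π / δ := by positivity
    linarith
  set Jn : ℕ := ⌊2 * Λ⌋₊ with hJn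
  have hJ : ((Jn + 1 : ℕ) : ℝ) ≤ 2 * Λ + 2 := by
    have := Nat.floor_le (by linarith : (0:ℝ) ≤ 2 * Λ)
    push_cast
    linarith
  have hn0 : (0 : ℝ) ≤ n := Nat.cast_nonneg n
  have hZc' : (Z.card : ℝ) ≤ (n : ℝ) ^ 2 := by exact_mod_cast hZc
  refine ⟨{α | α ∈ Ioo 0 π ∧ ∃ p ∈ Z, ∃ r ∈ R p, ‖ee α - r‖ < 2 * δ}, ?_, ?_⟩
  · -- measure of the exceptional set
    have hsub : {α | α ∈ Ioo 0 π ∧ ∃ p ∈ Z, ∃ r ∈ R p, ‖ee α - r‖ < 2 * δ} ⊆
        ⋃ p ∈ Z, ⋃ r ∈ R p, {α | α ∈ Ioo 0 π ∧ ‖ee α - r‖ < 2 * δ} := by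
      rintro α ⟨hα, p, hp, r, hr, h⟩
      simp only [mem_iUnion]
      exact ⟨p, hp, r, hr, hα, h⟩
    refine (measure_mono hsub).trans ?_
    refine (measure_biUnion_finset_le _ _).trans ?_
    have h1 : ∀ p ∈ Z, volume (⋃ r ∈ R p, {α | α ∈ Ioo 0 π ∧ ‖ee α - r‖ < 2 * δ}) ≤
        ENNReal.ofReal (((nM n + 1) * nN n : ℝ) * (20 * δ)) := by
      intro p _
      refine (measure_biUnion_finset_le _ _).trans ?_
      refine (Finset.sum_le_sum fun r _ => hE r δ hδ).trans ?_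
      rw [Finset.sum_const, nsmul_eq_mul, ← ENNReal.ofReal_natCast, ← ENNReal.ofReal_mul
        (Nat.cast_nonneg _)]
      apply ENNReal.ofReal_le_ofReal
      have h2 : ((R p).card : ℝ) ≤ (nM n + 1) * nN n := by exact_mod_cast hR p
      have h3 : (0:ℝ) ≤ 20 * δ := by positivity
      exact mul_le_mul_of_nonneg_right h2 h3
    refine (Finset.sum_le_sum h1).trans ?_
    rw [Finset.sum_const, nsmul_eq_mul, ← ENNReal.ofReal_natCast, ← ENNReal.ofReal_mul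
        (Nat.cast_nonneg _)]
    apply ENNReal.ofReal_le_ofReal
    have h3 : (0:ℝ) ≤ ((nM n + 1) * nN n : ℝ) * (20 * δ) := by positivity
    calc (Z.card : ℝ) * (((nM n + 1) * nN n : ℝ) * (20 * δ)) ≤
          (n : ℝ) ^ 2 * (((nM n + 1) * nN n : ℝ) * (20 * δ)) :=
          mul_le_mul_of_nonneg_right hZc' h3
      _ = (n : ℝ) ^ 2 * ((nM n + 1) * nN n) * (20 * δ) := by ring
  · -- the majorant
    set GS : (ℝ × ℝ) → ℝ → Set (Set (ℝ × ℝ)) := fun p α => {C | C ∈ Cl P Q α ∧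
      ∀ z ∈ C, (δ / 2) ^ 2 * W (field P Q) p α z ^ 2 < V (field P Q) p α z ^ 2} with hGS
    set HS : (ℝ × ℝ) → ℝ → ℝ → Set (Set (ℝ × ℝ)) := fun p v α => {C | C ∈ Cl P Q α ∧ InBox p C ∧
      p ∉ C ∧ ∃ z ∈ C, v ≤ lg p z ∧ lg p z ≤ v + 1} with hHS
    have hcover : ∀ α ∈ Ioo 0 π, (¬ ∃ p ∈ Z, ∃ r ∈ R p, ‖ee α - r‖ < 2 * δ) →
        Cl P Q α ⊆ ⋃ p ∈ Z, (GS p α ∪ ⋃ c ∈ S p, ⋃ j ∈ Finset.range (Jn + 1),
          HS p (c - Λ + j) α) := by
      intro α hα hnB C hC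
      obtain ⟨p, hp0, hbox⟩ := hT3 (field P Q) hcd α C hC
      have hpZ : p ∈ Z := (hZ p).1 hp0
      have hpC : p ∉ C := by
        intro hpC
        obtain ⟨γ, T, hO, hCr⟩ := hM0 (field P Q) hcd α C hC
        rw [hCr] at hpC
        obtain ⟨t, ht⟩ := hpC
        apply hO.ne t
        rw [ht, rf, hp0, rot_zero']
      simp only [mem_iUnion]
      refine ⟨p, hpZ, ?_⟩
      by_cases hcase : ∀ z ∈ C, ∀ c ∈ S p, Λ < |lg p z - c|
      · left
        refine ⟨hC, hK p α ?_ C hC hpC hcase⟩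
        intro a ha
        by_contra hlt
        push Not at hlt
        exact hnB ⟨p, hpZ, a, ha, hlt⟩
      · right
        push Not at hcase
        obtain ⟨z, hz, c, hc, hle⟩ := hcase
        have h1 := (abs_le.1 hle).1
        have h2 := (abs_le.1 hle).2
        have ht0 : 0 ≤ lg p z - (c - Λ) := by linarith
        have ht1 : lg p z - (c - Λ) ≤ 2 * Λ := by linarith
        simp only [mem_iUnion]
        refine ⟨c, hc, ⌊lg p z - (c - Λ)⌋₊, ?_, hC, hbox, hpC, z, hz, ?_, ?_⟩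
        · rw [Finset.mem_range, Nat.lt_succ_iff]
          exact Nat.floor_le_floor ht1
        · have := Nat.floor_le ht0
          linarith
        · have := Nat.lt_floor_add_one (lg p z - (c - Λ))
          linarith
    have hle : ∀ α ∈ Ioo 0 π, indicator {α | α ∈ Ioo 0 π ∧ ∃ p ∈ Z, ∃ r ∈ R p,
        ‖ee α - r‖ < 2 * δ}ᶜ (fun α => ((Cl P Q α).encard : ℝ≥0∞)) α ≤
        ∑ p ∈ Z, (((GS p α).encard : ℝ≥0∞) + ∑ c ∈ S p, ∑ j ∈ Finset.range (Jn + 1),
          ((HS p (c - Λ + j) α).encard : ℝ≥0∞)) := by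
      intro α hα
      by_cases hB : ∃ p ∈ Z, ∃ r ∈ R p, ‖ee α - r‖ < 2 * δ
      · rw [indicator_of_notMem]
        · exact zero_le
        · intro h
          exact h ⟨hα, hB⟩
      · refine (indicator_le_self' (fun _ _ => zero_le) α).trans ?_
        refine (encard_mono' (hcover α hα hB)).trans ?_
        refine (encard_biUnion _ _).trans ?_
        refine Finset.sum_le_sum fun p _ => ?_
        have h1 : ((GS p α ∪ ⋃ c ∈ S p, ⋃ j ∈ Finset.range (Jn + 1),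
            HS p (c - Λ + j) α).encard : ℝ≥0∞) ≤
            (((GS p α).encard + (⋃ c ∈ S p, ⋃ j ∈ Finset.range (Jn + 1),
            HS p (c - Λ + j) α).encard : ℕ∞) : ℝ≥0∞) := ENat.toENNReal_le.2 (encard_union_le _ _)
        rw [ENat.toENNReal_add] at h1
        refine h1.trans (add_le_add le_rfl ?_)
        refine (encard_biUnion _ _).trans ?_
        exact Finset.sum_le_sum fun c _ => encard_biUnion _ _
    have hGM : ∀ p, Maj (fun α => ((GS p α).encard : ℝ≥0∞)) ((1 + 4 / δ ^ 2) * (π * n)) := by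
      intro p
      have h := hG4 n P Q hP hQ p (δ / 2) (by positivity)
      have e : (1 + 1 / (δ / 2) ^ 2) * (π * n) = (1 + 4 / δ ^ 2) * (π * n) := by
        field_simp
        ring
      rw [e] at h
      exact h
    have hHM : ∀ p v, Maj (fun α => ((HS p v α).encard : ℝ≥0∞)) (8000 * (n + 1)) :=
      fun p v => hH4 n P Q hP hQ p v
    have h8 : (0 : ℝ) ≤ 8000 * (n + 1) := by positivity
    have hG0 : (0 : ℝ) ≤ (1 + 4 / δ ^ 2) * (π * n) := by positivity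
    have hMp : ∀ p ∈ Z, Maj (fun α => ((GS p α).encard : ℝ≥0∞) + ∑ c ∈ S p,
        ∑ j ∈ Finset.range (Jn + 1), ((HS p (c - Λ + j) α).encard : ℝ≥0∞))
        ((1 + 4 / δ ^ 2) * (π * n) + ∑ c ∈ S p, ∑ j ∈ Finset.range (Jn + 1),
          (8000 * ((n : ℝ) + 1))) := by
      intro p _
      refine maj_add hG0 (Finset.sum_nonneg fun _ _ => Finset.sum_nonneg fun _ _ => h8)
        (hGM p) ?_
      refine maj_sum _ _ _ (fun _ _ => Finset.sum_nonneg fun _ _ => h8) fun c _ => ?_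
      exact maj_sum _ _ _ (fun _ _ => h8) fun j _ => hHM p _
    have hMs := maj_sum Z _ _ (fun p _ => add_nonneg hG0
      (Finset.sum_nonneg fun _ _ => Finset.sum_nonneg fun _ _ => h8)) hMp
    refine maj_mono hle ?_ hMs
    -- arithmetic
    have hb : ∀ p ∈ Z, (1 + 4 / δ ^ 2) * (π * n) + ∑ c ∈ S p, ∑ j ∈ Finset.range (Jn + 1),
          (8000 * ((n : ℝ) + 1)) ≤ (1 + 4 / δ ^ 2) * (π * n) +
        (((nM n : ℝ) + 1) ^ 2 + n ^ 2) * (2 * Λ + 2) * (8000 * (n + 1)) := by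
      intro p _
      rw [Finset.sum_const, Finset.sum_const, Finset.card_range, nsmul_eq_mul, nsmul_eq_mul]
      have h1 : ((S p).card : ℝ) ≤ ((nM n : ℝ) + 1) ^ 2 + n ^ 2 := by
        have h2 : ((S p).card : ℝ) ≤ ((nM n + 1) ^ 2 + Z.card : ℕ) := by exact_mod_cast hS p
        push_cast at h2
        linarith
      have h3 : (0 : ℝ) ≤ ((Jn + 1 : ℕ) : ℝ) := Nat.cast_nonneg _
      have h4 : ((S p).card : ℝ) * ((Jn + 1 : ℕ) : ℝ) ≤
          (((nM n : ℝ) + 1) ^ 2 + n ^ 2) * (2 * Λ + 2) :=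
        mul_le_mul h1 hJ h3 (by positivity)
      have h5 := mul_le_mul_of_nonneg_right h4 h8
      linarith
    refine (Finset.sum_le_sum hb).trans ?_
    rw [Finset.sum_const, nsmul_eq_mul]
    refine mul_le_mul_of_nonneg_right hZc' ?_
    have : (0:ℝ) ≤ 2 * Λ + 2 := by linarith
    positivity

end

end Pool.Agent.H709U
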