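import Pool.Agent.H709U.B1
import Pool.Agent.H709U.B2
import Pool.Agent.H709U.B3
import Pool.Agent.H709U.E1
import Pool.Agent.H709U.E2
import Pool.Agent.H709U.E2b
import Pool.Agent.H709U.E3
import Pool.Agent.H709U.E4me
import Pool.Agent.H709U.G1
import Pool.Agent.H709U.G2
import Pool.Agent.H709U.G3
import Pool.Agent.H709U.G4
import Pool.Agent.H709U.H1
import Pool.Agent.H709U.H2
import Pool.Agent.H709U.H3
import Pool.Agent.H709U.H4
import Pool.Agent.H709U.K1
import Pool.Agent.H709U.K2
import Pool.Agent.H709U.K3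
import Pool.Agent.H709U.K4
import Pool.Agent.H709U.K5
import Pool.Agent.H709U.K7
import Pool.Agent.H709U.M0
import Pool.Agent.H709U.MA
import Pool.Agent.H709U.MB
import Pool.Agent.H709U.T1
import Pool.Agent.H709U.T2
import Pool.Agent.H709U.T3
import Pool.Agent.H709U.Z1
import Pool.Agent.H709U.Z
import Pool.Agent.H709U.TopR
import Pool.Agent.H709U.TopG
import Pool.Agent.H709U.Fin

/-! Assembly. -/

open Real Set MeasureTheory Topology Filter
open scoped ENNReal

namespace Pool.Agent.H709U

open Pool.Agent.H709R2 (rot wedge field ClosedOrbit)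
open Pool.Agent.H709Q (Maj)

theorem h4' : S_H4 := h4 m0 mb h1 h2 h3

theorem e4' : S_E4 := e4me e1 e2 e3

theorem k7' : S_K7 := k7 m0 k1 k2 k3 k4 k5 e4'

theorem z1' : S_Z1 := z1 m0 t3' b3 k7' g4' h4' e2b

/-- the main theorem -/
theorem main : S_Z := z b1 (b2 m0) z1'

end Pool.Agent.H709U
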